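import Pool.Agent.H2.AdS.Basic

/-!
# The complex structure of the limit algebra (step AD-3)

`exists_J` is pure linear algebra: out of the quadratic identities of the limit algebra and the
absence of a real eigenvalue it makes an isometric complex structure on the form `bW` which
commutes with the maps of the family.  All auxiliary lemmas (`alg_*`) are private.
-/

set_option autoImplicit false

open scoped RealInnerProductSpace

namespace Pool.Agent.H2.AdS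

section alg

variable {Q : Type*} [NormedAddCommGroup Q] [InnerProductSpace ℝ Q]

/-- The unipotent isometry which maps `Ph S 0 0` to `Ph S q c` and fixes `Pp` pointwise. -/
private noncomputable def alg_nL (S : Q →ₗ[ℝ] Q) (q : Q) (c : ℝ) : W Q →ₗ[ℝ] W Q where
  toFun x := (x.1, x.2.1 + NN S q x.1,
    (x.2.2.1 + (-(1 / 4) * ⟪q, NN S q x.1⟫ - c * x.1.2) - 1 / 2 * ⟪q, x.2.1⟫,
      x.2.2.2 + (-(1 / 4) * ⟪S q, NN S q x.1⟫ + c * x.1.1) - 1 / 2 * ⟪S q, x.2.1⟫))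
  map_add' x y := by
    refine Prod.ext rfl (Prod.ext ?_ (Prod.ext ?_ ?_))
    · simp only [Prod.fst_add, Prod.snd_add, NN_add_right]; abel
    · simp only [Prod.fst_add, Prod.snd_add, NN_add_right, inner_add_right]; ring
    · simp only [Prod.fst_add, Prod.snd_add, NN_add_right, inner_add_right]; ring
  map_smul' a x := by
    refine Prod.ext rfl (Prod.ext ?_ (Prod.ext ?_ ?_))
    · simp only [Prod.smul_fst, Prod.smul_snd, NN_smul_right, RingHom.id_apply, smul_add]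
    · simp only [Prod.smul_fst, Prod.smul_snd, NN_smul_right, RingHom.id_apply, inner_smul_right,
        smul_eq_mul]; ring
    · simp only [Prod.smul_fst, Prod.smul_snd, NN_smul_right, RingHom.id_apply, inner_smul_right,
        smul_eq_mul]; ring

private theorem alg_NN_neg (S : Q →ₗ[ℝ] Q) (q : Q) (y : ℝ × ℝ) : NN S (-q) y = -NN S q y := by
  simp only [NN, map_neg, smul_neg]; abel

private theorem alg_nL_inv (S : Q →ₗ[ℝ] Q) (q : Q) (c : ℝ) (x : W Q) :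
    alg_nL S (-q) (-c) (alg_nL S q c x) = x := by
  refine Prod.ext rfl (Prod.ext ?_ (Prod.ext ?_ ?_))
  · simp only [alg_nL, LinearMap.coe_mk, AddHom.coe_mk, alg_NN_neg]; abel
  · simp only [alg_nL, LinearMap.coe_mk, AddHom.coe_mk, alg_NN_neg, inner_add_right,
      inner_neg_left, inner_neg_right]; ring
  · simp only [alg_nL, LinearMap.coe_mk, AddHom.coe_mk, alg_NN_neg, inner_add_right,
      inner_neg_left, inner_neg_right, map_neg]; ring

private noncomputable def alg_nE (S : Q →ₗ[ℝ] Q) (q : Q) (c : ℝ) : W Q ≃ₗ[ℝ] W Q :=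
  LinearEquiv.ofLinearMap (alg_nL S q c) (alg_nL S (-q) (-c))
    (LinearMap.ext fun x => by
      have h := alg_nL_inv S (-q) (-c) x
      simpa using h)
    (LinearMap.ext fun x => alg_nL_inv S q c x)

private theorem alg_nE_apply (S : Q →ₗ[ℝ] Q) (q : Q) (c : ℝ) (x : W Q) :
    alg_nE S q c x = (x.1, x.2.1 + NN S q x.1,
    (x.2.2.1 + (-(1 / 4) * ⟪q, NN S q x.1⟫ - c * x.1.2) - 1 / 2 * ⟪q, x.2.1⟫,
      x.2.2.2 + (-(1 / 4) * ⟪S q, NN S q x.1⟫ + c * x.1.1) - 1 / 2 * ⟪S q, x.2.1⟫)) := rfl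

private theorem alg_nE_bW (S : Q →ₗ[ℝ] Q) (q : Q) (c : ℝ) (x y : W Q) :
    bW (alg_nE S q c x) (alg_nE S q c y) = bW x y := by
  simp only [alg_nE_apply, bW, NN, inner_add_left, inner_add_right, inner_smul_left,
    inner_smul_right]
  rw [real_inner_comm x.2.1 q, real_inner_comm x.2.1 (S q), real_inner_comm q (S q)]
  simp
  ring

private theorem alg_nE_Ph (S : Q →ₗ[ℝ] Q) (q q' : Q) (c c' : ℝ) :
    (Ph S q' c').map (alg_nE S q c : W Q →ₗ[ℝ] W Q) =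
      Ph S (q + q') (c + c' + 1 / 4 * (⟪q, S q'⟫ - ⟪q', S q⟫)) := by
  have key : ∀ y : ℝ × ℝ, alg_nE S q c (pt S q' c' y) =
      pt S (q + q') (c + c' + 1 / 4 * (⟪q, S q'⟫ - ⟪q', S q⟫)) y := by
    intro y
    refine Prod.ext rfl (Prod.ext ?_ (Prod.ext ?_ ?_))
    · simp only [alg_nE_apply, pt, NN_add]; abel
    · simp only [alg_nE_apply, pt, NN, map_add, inner_add_left, inner_add_right,
        inner_smul_right]
      rw [real_inner_comm q' q, real_inner_comm (S q) q']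
      ring
    · simp only [alg_nE_apply, pt, NN, map_add, inner_add_left, inner_add_right,
        inner_smul_right]
      rw [real_inner_comm (S q') q, real_inner_comm (S q) q', real_inner_comm (S q') (S q)]
      ring
  ext x
  simp only [Submodule.mem_map, LinearEquiv.coe_coe]
  constructor
  · rintro ⟨w, hw, rfl⟩
    rw [eq_pt hw, key]
    exact pt_mem _ _ _ _
  · intro hx
    refine ⟨pt S q' c' x.1, pt_mem _ _ _ _, ?_⟩
    rw [key]
    exact (eq_pt hx).symm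

private theorem alg_nE_Pp (S : Q →ₗ[ℝ] Q) (q : Q) (c : ℝ) :
    (Pp Q).map (alg_nE S q c : W Q →ₗ[ℝ] W Q) = Pp Q := by
  have key : ∀ x ∈ Pp Q, alg_nE S q c x = x := by
    intro x hx
    obtain ⟨h1, h2⟩ := hx
    rw [alg_nE_apply, h1, h2]
    refine Prod.ext h1.symm (Prod.ext ?_ (Prod.ext ?_ ?_))
    · simp [NN, h2]
    · simp [NN]
    · simp [NN]
  ext x
  simp only [Submodule.mem_map, LinearEquiv.coe_coe]
  constructor
  · rintro ⟨w, hw, rfl⟩
    rw [key w hw]; exact hw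
  · intro hx
    exact ⟨x, hx, key x hx⟩

private theorem alg_nE_LamC (S : Q →ₗ[ℝ] Q) (q : Q) (c : ℝ) :
    ∀ P ∈ LamC S, P.map (alg_nE S q c : W Q →ₗ[ℝ] W Q) ∈ LamC S := by
  rintro P (rfl | ⟨q', c', rfl⟩)
  · exact Or.inl (alg_nE_Pp S q c)
  · exact Or.inr ⟨_, _, alg_nE_Ph S q q' c c'⟩

private theorem alg_exists_ne {S : Q →ₗ[ℝ] Q} {P : Submodule ℝ (W Q)} (hP : P ∈ LamC S) :
    ∃ x ∈ P, x ≠ 0 := by
  rcases hP with rfl | ⟨q, c, rfl⟩
  · refine ⟨(0, 0, (1, 0)), ⟨rfl, rfl⟩, fun h => ?_⟩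
    have := congrArg (fun x : W Q => x.2.2.1) h
    simp at this
  · refine ⟨pt S q c (1, 0), pt_mem _ _ _ _, fun h => ?_⟩
    have := congrArg (fun x : W Q => x.1.1) h
    simp [pt] at this

private theorem alg_symm [FiniteDimensional ℝ Q] {S : Q →ₗ[ℝ] Q}
    (hS : ∀ q : Q, q ≠ 0 → ∀ c : ℝ, S q ≠ c • q) (s : W Q ≃ₗ[ℝ] W Q)
    (hs : ∀ x y, bW (s x) (s y) = bW x y)
    (hsL : ∀ P ∈ LamC S, P.map (s : W Q →ₗ[ℝ] W Q) ∈ LamC S) :
    ∀ P ∈ LamC S, P.map (s.symm : W Q →ₗ[ℝ] W Q) ∈ LamC S := by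
  intro P hP
  obtain ⟨x, hx, hx0⟩ := alg_exists_ne hP
  have h1 : bW (s.symm x) (s.symm x) = 0 := by
    rw [← hs, LinearEquiv.apply_symm_apply]
    exact LamC_iso hP hx hx
  have h2 : s.symm x ≠ 0 := fun h => hx0 (by simpa using h)
  obtain ⟨P', hP', hxP'⟩ := LamC_cov hS _ h1
  have h3 : x ∈ P'.map (s : W Q →ₗ[ℝ] W Q) := ⟨s.symm x, hxP', by simp⟩
  have h4 : P'.map (s : W Q →ₗ[ℝ] W Q) = P := LamC_uni hS (hsL P' hP') hP hx0 h3 hx
  have h5 : P.map (s.symm : W Q →ₗ[ℝ] W Q) = P' := by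
    rw [← h4]
    ext w
    simp
  rw [h5]
  exact hP'


/-- Step (1): from `s` one gets an isometry which maps `Ph S 0 0` to `Pp`. -/
private theorem alg_exists_h [FiniteDimensional ℝ Q] {S : Q →ₗ[ℝ] Q}
    (hS : ∀ q : Q, q ≠ 0 → ∀ c : ℝ, S q ≠ c • q) (s : W Q ≃ₗ[ℝ] W Q)
    (hs : ∀ x y, bW (s x) (s y) = bW x y)
    (hsL : ∀ P ∈ LamC S, P.map (s : W Q →ₗ[ℝ] W Q) ∈ LamC S)
    (hne : (Pp Q).map (s : W Q →ₗ[ℝ] W Q) ≠ Pp Q) :
    ∃ h : W Q ≃ₗ[ℝ] W Q, (∀ x y, bW (h x) (h y) = bW x y) ∧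
      (∀ P ∈ LamC S, P.map (h : W Q →ₗ[ℝ] W Q) ∈ LamC S) ∧
      (Ph S 0 0).map (h : W Q →ₗ[ℝ] W Q) = Pp Q := by
  rcases hsL (Pp Q) (Or.inl rfl) with h1 | ⟨q, c, h1⟩
  · exact absurd h1 hne
  have hmap : ∀ P : Submodule ℝ (W Q),
      P.map (((alg_nE S q c).trans s.symm : W Q ≃ₗ[ℝ] W Q) : W Q →ₗ[ℝ] W Q) =
        (P.map (alg_nE S q c : W Q →ₗ[ℝ] W Q)).map (s.symm : W Q →ₗ[ℝ] W Q) := by
    intro P
    ext x
    simp
  refine ⟨(alg_nE S q c).trans s.symm, fun x y => ?_, fun P hP => ?_, ?_⟩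
  · rw [LinearEquiv.trans_apply, LinearEquiv.trans_apply, ← hs, LinearEquiv.apply_symm_apply,
      LinearEquiv.apply_symm_apply, alg_nE_bW]
  · rw [hmap]
    exact alg_symm hS s hs hsL _ (alg_nE_LamC S q c P hP)
  · rw [hmap, alg_nE_Ph]
    have h2 : (Ph S (q + 0) (c + 0 + 1 / 4 * (⟪q, S 0⟫ - ⟪(0 : Q), S q⟫))) = Ph S q c := by
      simp
    rw [h2, ← h1]
    ext x
    simp

/-- Step (1), second half: an isometry preserving `LamC S` of a special form. -/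
private theorem alg_exists_Y [FiniteDimensional ℝ Q] {S : Q →ₗ[ℝ] Q}
    (hS : ∀ q : Q, q ≠ 0 → ∀ c : ℝ, S q ≠ c • q) (s : W Q ≃ₗ[ℝ] W Q)
    (hs : ∀ x y, bW (s x) (s y) = bW x y)
    (hsL : ∀ P ∈ LamC S, P.map (s : W Q →ₗ[ℝ] W Q) ∈ LamC S)
    (hne : (Pp Q).map (s : W Q →ₗ[ℝ] W Q) ≠ Pp Q) :
    ∃ (Y : W Q ≃ₗ[ℝ] W Q) (κ : ℝ), κ ≠ 0 ∧
      (∀ P ∈ LamC S, P.map (Y : W Q →ₗ[ℝ] W Q) ∈ LamC S) ∧
      ∀ x, Y x = ((x.1.1 - κ * x.2.2.2, x.1.2 + κ * x.2.2.1), x.2.1, x.2.2) := by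
  obtain ⟨h, hh, hhL, hh0⟩ := alg_exists_h hS s hs hsL hne
  set z : W Q ≃ₗ[ℝ] W Q := alg_nE S 0 1 with hz
  have hzx : ∀ x : W Q, z x = x + (0, 0, (-x.1.2, x.1.1)) := by
    intro x
    rw [hz, alg_nE_apply]
    refine Prod.ext ?_ (Prod.ext ?_ (Prod.ext ?_ ?_))
    · simp
    · simp [NN]
    · simp
    · simp
  set Y : W Q ≃ₗ[ℝ] W Q := h.trans (z.trans h.symm) with hY
  have hYx : ∀ x, Y x = h.symm (z (h x)) := fun x => rfl
  have hmapY : ∀ P : Submodule ℝ (W Q), P.map (Y : W Q →ₗ[ℝ] W Q) =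
      ((P.map (h : W Q →ₗ[ℝ] W Q)).map (z : W Q →ₗ[ℝ] W Q)).map (h.symm : W Q →ₗ[ℝ] W Q) := by
    intro P
    ext x
    simp only [Submodule.mem_map_equiv]
    exact Iff.rfl
  have hYL : ∀ P ∈ LamC S, P.map (Y : W Q →ₗ[ℝ] W Q) ∈ LamC S := by
    intro P hP
    rw [hmapY]
    exact alg_symm hS h hh hhL _ (alg_nE_LamC S 0 1 _ (hhL P hP))
  have hYb : ∀ x y, bW (Y x) (Y y) = bW x y := by
    intro x y
    rw [hYx, hYx, ← hh, LinearEquiv.apply_symm_apply, LinearEquiv.apply_symm_apply, hz,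
      alg_nE_bW, hh]
  -- the image of `Y - 1`
  have him : ∀ x, Y x - x ∈ Ph S 0 0 := by
    intro x
    have h1 : ((0, 0, (-(h x).1.2, (h x).1.1)) : W Q) ∈ Pp Q := ⟨rfl, rfl⟩
    rw [← hh0] at h1
    obtain ⟨w, hw, hw2⟩ := h1
    have h2 : Y x - x = w := by
      rw [hYx, hzx, map_add, LinearEquiv.symm_apply_apply]
      rw [LinearEquiv.coe_coe] at hw2
      rw [← hw2, LinearEquiv.symm_apply_apply]
      abel
    rw [h2]; exact hw
  have him' : ∀ x, (Y x).2.1 = x.2.1 ∧ (Y x).2.2 = x.2.2 := by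
    intro x
    obtain ⟨h1, h2, h3⟩ := him x
    simp only [Prod.fst_sub, Prod.snd_sub, map_zero, smul_zero, add_zero, inner_zero_left,
      mul_zero, zero_mul, sub_self] at h1 h2 h3
    exact ⟨sub_eq_zero.1 h1, Prod.ext (sub_eq_zero.1 h2) (sub_eq_zero.1 h3)⟩
  have hker : ∀ x : W Q, x.2.2 = 0 → Y x = x := by
    intro x hx
    have h0 : ∀ p ∈ Pp Q, bW (h x) p = 0 := by
      intro p hp
      rw [← hh0] at hp
      obtain ⟨w, hw, rfl⟩ := hp
      rw [LinearEquiv.coe_coe, hh]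
      obtain ⟨h1, h2, h3⟩ := hw
      simp only [map_zero, smul_zero, add_zero, inner_zero_left, mul_zero, zero_mul, sub_zero]
        at h1 h2 h3
      simp [bW, h1, h2, h3, hx]
    have h1 := h0 (0, 0, (1, 0)) ⟨rfl, rfl⟩
    have h2 := h0 (0, 0, (0, 1)) ⟨rfl, rfl⟩
    simp [bW] at h1 h2
    rw [hYx, hzx, h1, h2]
    have h3 : ((0, 0, (-(0 : ℝ), (0 : ℝ))) : W Q) = 0 := by simp
    rw [h3, add_zero, LinearEquiv.symm_apply_apply]
  set e₁ : W Q := (0, 0, (1, 0)) with he₁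
  set e₂ : W Q := (0, 0, (0, 1)) with he₂
  have hb11 := hYb e₁ e₁
  have hb12 := hYb e₁ e₂
  have hb22 := hYb e₂ e₂
  have hi1 := him' e₁
  have hi2 := him' e₂
  have hm11 : (Y e₁).1.1 = 0 := by
    simp only [bW, hi1.1, hi1.2] at hb11
    simp [he₁] at hb11
    linarith
  have hm22 : (Y e₂).1.2 = 0 := by
    simp only [bW, hi2.1, hi2.2] at hb22
    simp [he₂] at hb22
    linarith
  have hm12 : (Y e₂).1.1 = -(Y e₁).1.2 := by
    simp only [bW, hi1.1, hi1.2, hi2.1, hi2.2] at hb12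
    simp [he₁, he₂] at hb12
    linarith
  set κ : ℝ := (Y e₁).1.2 with hκ
  have hYe₁ : Y e₁ = ((0, κ), 0, (1, 0)) :=
    Prod.ext (Prod.ext hm11 rfl) (Prod.ext hi1.1 hi1.2)
  have hYe₂ : Y e₂ = ((-κ, 0), 0, (0, 1)) :=
    Prod.ext (Prod.ext hm12 hm22) (Prod.ext hi2.1 hi2.2)
  have hform : ∀ x, Y x = ((x.1.1 - κ * x.2.2.2, x.1.2 + κ * x.2.2.1), x.2.1, x.2.2) := by
    intro x
    have h1 : x = (x.1, x.2.1, 0) + x.2.2.1 • e₁ + x.2.2.2 • e₂ := by
      refine Prod.ext ?_ (Prod.ext ?_ (Prod.ext ?_ ?_)) <;> simp [he₁, he₂]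
    have h2 : Y x = (x.1, x.2.1, 0) + x.2.2.1 • Y e₁ + x.2.2.2 • Y e₂ := by
      conv_lhs => rw [h1]
      rw [map_add, map_add, map_smul, map_smul, hker (x.1, x.2.1, 0) rfl]
    rw [h2, hYe₁, hYe₂]
    refine Prod.ext (Prod.ext ?_ ?_) (Prod.ext ?_ (Prod.ext ?_ ?_))
    · simp; ring
    · simp; ring
    · simp
    · simp
    · simp
  refine ⟨Y, κ, ?_, hYL, hform⟩
  intro hκ0
  have h1 : ∀ x, Y x = x := by
    intro x
    rw [hform, hκ0]
    simp
  have h2 := h1 (h.symm ((1, 0), 0, 0))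
  rw [hYx, LinearEquiv.apply_symm_apply] at h2
  have h3 := h.symm.injective h2
  rw [hzx] at h3
  have h4 := congrArg (fun x : W Q => x.2.2.2) h3
  simp at h4


/-- Step (2): the quadratic identity. -/
private theorem alg_E [FiniteDimensional ℝ Q] {S : Q →ₗ[ℝ] Q}
    (hS : ∀ q : Q, q ≠ 0 → ∀ c : ℝ, S q ≠ c • q) (s : W Q ≃ₗ[ℝ] W Q)
    (hs : ∀ x y, bW (s x) (s y) = bW x y)
    (hsL : ∀ P ∈ LamC S, P.map (s : W Q →ₗ[ℝ] W Q) ∈ LamC S)
    (hne : (Pp Q).map (s : W Q →ₗ[ℝ] W Q) ≠ Pp Q) (q : Q) :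
    (⟪q, q⟫ : ℝ) • S (S q) - (2 * ⟪q, S q⟫ : ℝ) • S q + (⟪S q, S q⟫ : ℝ) • q = 0 := by
  by_cases hq : q = 0
  · simp [hq]
  obtain ⟨Y, κ, hκ, hYL, hform⟩ := alg_exists_Y hS s hs hsL hne
  set a : ℝ := ⟪q, S q⟫ with ha
  set b : ℝ := ⟪q, q⟫ with hb
  set d : ℝ := ⟪S q, S q⟫ with hd
  have ha' : (⟪S q, q⟫ : ℝ) = a := real_inner_comm _ _
  have hmem : ∀ y, Y (pt S q 0 y) ∈ (Ph S q 0).map (Y : W Q →ₗ[ℝ] W Q) :=
    fun y => ⟨pt S q 0 y, pt_mem _ _ _ _, rfl⟩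
  rcases hYL (Ph S q 0) (Or.inr ⟨q, 0, rfl⟩) with h1 | ⟨q', c', h1⟩
  · have h2 := hmem (1, 0)
    rw [h1] at h2
    have h3 : (Y (pt S q 0 (1, 0))).2.1 = 0 := h2.2
    rw [hform] at h3
    exact absurd (by simpa [pt, NN] using h3) hq
  rw [h1] at hmem
  have e1 := (hmem (1, 0)).1
  have e2 := (hmem (0, 1)).1
  rw [hform] at e1 e2
  simp only [pt, NN, one_smul, zero_smul, add_zero, zero_add, mul_one, mul_zero, zero_sub,
    sub_zero, ha', ← ha, ← hb, ← hd] at e1 e2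
  -- `e1 : q = (1 + κ/4 a) q' - κ/4 b S q'`, `e2 : S q = κ/4 d q' + (1 - κ/4 a) S q'`
  have e3 : S q = (1 - κ * (-(1 / 4) * a)) • S q' + (κ * (-(1 / 4) * b)) • S (S q') := by
    conv_lhs => rw [e1]
    rw [map_add, map_smul, map_smul]
  have e4 : S (S q) = (1 - κ * (-(1 / 4) * a)) • S (S q') +
      (κ * (-(1 / 4) * b)) • S (S (S q')) := by
    conv_lhs => rw [e3]
    rw [map_add, map_smul, map_smul]
  have hR : b • S (S q') - (2 * a) • S q' + d • q' = 0 := by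
    have h5 : (κ / 4) • (b • S (S q') - (2 * a) • S q' + d • q') = 0 := by
      have h6 := e3.symm.trans e2
      have h7 : (κ / 4) • (b • S (S q') - (2 * a) • S q' + d • q') =
          (-(κ * (-(1 / 4) * d)) • q' + (1 + κ * (-(1 / 4) * a)) • S q') -
          ((1 - κ * (-(1 / 4) * a)) • S q' + (κ * (-(1 / 4) * b)) • S (S q')) := by
        module
      rw [h7, h6]
      module
    rcases smul_eq_zero.1 h5 with h6 | h6
    · exact absurd (by linarith) hκ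
    · exact h6
  have hSR : b • S (S (S q')) - (2 * a) • S (S q') + d • S q' = 0 := by
    have h := congrArg S hR
    rw [map_add, map_sub, map_smul, map_smul, map_smul, map_zero] at h
    exact h
  have h8 : b • S (S q) - (2 * a) • S q + d • q =
      (1 - κ * (-(1 / 4) * a)) • (b • S (S q') - (2 * a) • S q' + d • q') +
      (κ * (-(1 / 4) * b)) • (b • S (S (S q')) - (2 * a) • S (S q') + d • S q') := by
    rw [e4, e3]
    conv_lhs => rw [e1]
    module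
  rw [h8, hR, hSR]
  simp


private theorem alg_comb_zero {S : Q →ₗ[ℝ] Q} (hS : ∀ q : Q, q ≠ 0 → ∀ c : ℝ, S q ≠ c • q)
    {q : Q} (hq : q ≠ 0) {c d : ℝ} (h : c • S q + d • q = 0) : c = 0 ∧ d = 0 := by
  by_contra hcon
  have hy : ((d, c) : ℝ × ℝ) ≠ 0 := by
    intro h0
    exact hcon ⟨congrArg Prod.snd h0, congrArg Prod.fst h0⟩
  apply NN_ne_zero hS hq hy
  rw [NN, add_comm]
  exact h

/-- Step (3): the coefficients of the quadratic identity are constant. -/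
private theorem alg_const {S : Q →ₗ[ℝ] Q} (hQ : ∃ q : Q, q ≠ 0)
    (hS : ∀ q : Q, q ≠ 0 → ∀ c : ℝ, S q ≠ c • q)
    (hE : ∀ q : Q, (⟪q, q⟫ : ℝ) • S (S q) - (2 * ⟪q, S q⟫ : ℝ) • S q +
      (⟪S q, S q⟫ : ℝ) • q = 0) :
    ∃ α β : ℝ, α ^ 2 < β ∧ (∀ q, S (S q) = (2 * α) • S q - β • q) ∧
      (∀ q, (⟪q, S q⟫ : ℝ) = α * ⟪q, q⟫) ∧ ∀ q, (⟪S q, S q⟫ : ℝ) = β * ⟪q, q⟫ := by
  set A : Q → ℝ := fun q => ⟪q, S q⟫ / ⟪q, q⟫ with hA
  set B : Q → ℝ := fun q => ⟪S q, S q⟫ / ⟪q, q⟫ with hB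
  have hpos : ∀ q : Q, q ≠ 0 → (0 : ℝ) < ⟪q, q⟫ := fun q hq => real_inner_self_pos.2 hq
  have hAq : ∀ q : Q, q ≠ 0 → (⟪q, S q⟫ : ℝ) = A q * ⟪q, q⟫ := fun q hq => by
    rw [hA]; field_simp [(hpos q hq).ne']
  have hBq : ∀ q : Q, q ≠ 0 → (⟪S q, S q⟫ : ℝ) = B q * ⟪q, q⟫ := fun q hq => by
    rw [hB]; field_simp [(hpos q hq).ne']
  have c1 : ∀ q : Q, q ≠ 0 → S (S q) = (2 * A q) • S q - B q • q := by
    intro q hq
    have h1 := hE q
    rw [hAq q hq, hBq q hq] at h1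
    have h2 : (⟪q, q⟫ : ℝ) • (S (S q) - ((2 * A q) • S q - B q • q)) = 0 := by
      rw [← h1]; module
    rcases smul_eq_zero.1 h2 with h3 | h3
    · exact absurd h3 (hpos q hq).ne'
    · exact sub_eq_zero.1 h3
  have c2 : ∀ q q' : Q, q ≠ 0 → q' ≠ 0 → ∀ e f : ℝ, q' = e • q + f • S q →
      A q' = A q ∧ B q' = B q := by
    intro q q' hq hq' e f hef
    have h1 : S (S q') = (2 * A q) • S q' - B q • q' := by
      rw [hef]
      simp only [map_add, map_smul, c1 q hq, map_sub]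
      module
    have h2 := c1 q' hq'
    have h3 : (2 * A q - 2 * A q') • S q' + (B q' - B q) • q' = 0 := by
      have h4 : (2 * A q - 2 * A q') • S q' + (B q' - B q) • q' =
          ((2 * A q) • S q' - B q • q') - ((2 * A q') • S q' - B q' • q') := by module
      rw [h4, ← h1, ← h2, sub_self]
    obtain ⟨h5, h6⟩ := alg_comb_zero hS hq' h3
    exact ⟨by linarith, by linarith⟩
  have c3 : ∀ q : Q, q ≠ 0 → A q ^ 2 < B q := by
    intro q hq
    have h1 : S q - A q • q ≠ 0 := fun h => hS q hq (A q) (sub_eq_zero.1 h)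
    have h2 := hpos _ h1
    have h3 : (⟪S q - A q • q, S q - A q • q⟫ : ℝ) = (B q - A q ^ 2) * ⟪q, q⟫ := by
      simp only [inner_sub_left, inner_sub_right, inner_smul_left, inner_smul_right]
      rw [real_inner_comm q (S q), hAq q hq, hBq q hq]
      simp
      ring
    rw [h3] at h2
    have h4 := hpos q hq
    by_contra hcon
    push Not at hcon
    nlinarith
  have c4 : ∀ q q' : Q, q ≠ 0 → q' ≠ 0 → A q' = A q ∧ B q' = B q := by
    intro q q' hq hq'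
    by_cases hx : q + q' = 0
    · refine c2 q q' hq hq' (-1) 0 ?_
      rw [zero_smul, add_zero, neg_one_smul]
      exact (neg_eq_of_add_eq_zero_right hx).symm
    set x : Q := q + q' with hxdef
    have h1 : (2 * (A x - A q)) • S q + (-(B x - B q)) • q + ((2 * (A x - A q')) • S q' +
        (-(B x - B q')) • q') = 0 := by
      have h2 := c1 x hx
      have h3 : S (S x) = S (S q) + S (S q') := by rw [hxdef, map_add, map_add]
      rw [h3, c1 q hq, c1 q' hq'] at h2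
      have h4 : S x = S q + S q' := by rw [hxdef, map_add]
      rw [h4] at h2
      have h5 : (2 * (A x - A q)) • S q + (-(B x - B q)) • q + ((2 * (A x - A q')) • S q' +
        (-(B x - B q')) • q') = ((2 * A x) • (S q + S q') - B x • (q + q')) -
          ((2 * A q) • S q - B q • q + ((2 * A q') • S q' - B q' • q')) := by module
      rw [h5, h2, hxdef, sub_self]
    set c₁ : ℝ := 2 * (A x - A q) with hc₁
    set d₁ : ℝ := -(B x - B q) with hd₁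
    set c₂ : ℝ := 2 * (A x - A q') with hc₂
    set d₂ : ℝ := -(B x - B q') with hd₂
    by_cases h0 : c₂ = 0 ∧ d₂ = 0
    · rw [h0.1, h0.2, zero_smul, zero_smul, add_zero, add_zero] at h1
      obtain ⟨h5, h6⟩ := alg_comb_zero hS hq h1
      exact ⟨by linarith [h0.1], by linarith [h0.2]⟩
    · have hr : 0 < d₂ ^ 2 + 2 * A q' * c₂ * d₂ + B q' * c₂ ^ 2 := by
        have h5 : d₂ ^ 2 + 2 * A q' * c₂ * d₂ + B q' * c₂ ^ 2 =
            (d₂ + A q' * c₂) ^ 2 + (B q' - A q' ^ 2) * c₂ ^ 2 := by ring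
        rw [h5]
        have h6 : 0 < B q' - A q' ^ 2 := sub_pos.2 (c3 q' hq')
        by_cases h7 : c₂ = 0
        · have h8 : d₂ ≠ 0 := fun h => h0 ⟨h7, h⟩
          rw [h7]
          have : 0 < d₂ ^ 2 := by positivity
          simpa using this
        · have : 0 < (B q' - A q' ^ 2) * c₂ ^ 2 := by positivity
          nlinarith [sq_nonneg (d₂ + A q' * c₂)]
      set r : ℝ := d₂ ^ 2 + 2 * A q' * c₂ * d₂ + B q' * c₂ ^ 2 with hrdef
      have h9 : c₂ • S q' + d₂ • q' = -(c₁ • S q + d₁ • q) := by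
        rw [eq_neg_iff_add_eq_zero, add_comm]; exact h1
      have h10 : c₂ • S (S q') + d₂ • S q' = -(c₁ • S (S q) + d₁ • S q) := by
        have := congrArg S h9
        simpa only [map_add, map_smul, map_neg] using this
      have h11 : r • q' = (-(d₂ + 2 * A q' * c₂) * d₁ - c₂ * c₁ * B q) • q +
          (c₂ * c₁ * (2 * A q) + c₂ * d₁ - (d₂ + 2 * A q' * c₂) * c₁) • S q := by
        have h12 : r • q' = (-c₂) • (c₂ • S (S q') + d₂ • S q') +
            (d₂ + 2 * A q' * c₂) • (c₂ • S q' + d₂ • q') := by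
          rw [c1 q' hq', hrdef]; module
        rw [h12, h10, h9, c1 q hq]
        module
      have h13 : q' = (r⁻¹ * (-(d₂ + 2 * A q' * c₂) * d₁ - c₂ * c₁ * B q)) • q +
          (r⁻¹ * (c₂ * c₁ * (2 * A q) + c₂ * d₁ - (d₂ + 2 * A q' * c₂) * c₁)) • S q := by
        have h14 : q' = r⁻¹ • (r • q') := by rw [smul_smul, inv_mul_cancel₀ hr.ne', one_smul]
        conv_lhs => rw [h14, h11]
        rw [smul_add, smul_smul, smul_smul]
      exact c2 q q' hq hq' _ _ h13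
  obtain ⟨q₀, hq₀⟩ := hQ
  refine ⟨A q₀, B q₀, c3 q₀ hq₀, fun q => ?_, fun q => ?_, fun q => ?_⟩
  · by_cases hq : q = 0
    · simp [hq]
    · obtain ⟨h1, h2⟩ := c4 q₀ q hq₀ hq
      rw [← h1, ← h2]; exact c1 q hq
  · by_cases hq : q = 0
    · simp [hq]
    · obtain ⟨h1, h2⟩ := c4 q₀ q hq₀ hq
      rw [← h1]; exact hAq q hq
  · by_cases hq : q = 0
    · simp [hq]
    · obtain ⟨h1, h2⟩ := c4 q₀ q hq₀ hq
      rw [← h2]; exact hBq q hq


/-- The complex structure. -/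
private noncomputable def alg_J (S : Q →ₗ[ℝ] Q) (α β r : ℝ) : W Q →ₗ[ℝ] W Q where
  toFun x := ((r * (-α * x.1.1 - β * x.1.2), r * (x.1.1 + α * x.1.2)),
    r • (S x.2.1 - α • x.2.1),
    (r * (α * x.2.2.1 - x.2.2.2), r * (β * x.2.2.1 - α * x.2.2.2)))
  map_add' x y := by
    refine Prod.ext (Prod.ext ?_ ?_) (Prod.ext ?_ (Prod.ext ?_ ?_))
    · simp only [Prod.fst_add, Prod.snd_add]; ring
    · simp only [Prod.fst_add, Prod.snd_add]; ring
    · simp only [Prod.fst_add, Prod.snd_add, map_add]; module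
    · simp only [Prod.fst_add, Prod.snd_add]; ring
    · simp only [Prod.fst_add, Prod.snd_add]; ring
  map_smul' a x := by
    refine Prod.ext (Prod.ext ?_ ?_) (Prod.ext ?_ (Prod.ext ?_ ?_))
    · simp only [Prod.smul_fst, Prod.smul_snd, smul_eq_mul, RingHom.id_apply]; ring
    · simp only [Prod.smul_fst, Prod.smul_snd, smul_eq_mul, RingHom.id_apply]; ring
    · simp only [Prod.smul_fst, Prod.smul_snd, map_smul, RingHom.id_apply]; module
    · simp only [Prod.smul_fst, Prod.smul_snd, smul_eq_mul, RingHom.id_apply]; ring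
    · simp only [Prod.smul_fst, Prod.smul_snd, smul_eq_mul, RingHom.id_apply]; ring

private theorem alg_J_apply (S : Q →ₗ[ℝ] Q) (α β r : ℝ) (x : W Q) : alg_J S α β r x =
    ((r * (-α * x.1.1 - β * x.1.2), r * (x.1.1 + α * x.1.2)),
    r • (S x.2.1 - α • x.2.1),
    (r * (α * x.2.2.1 - x.2.2.2), r * (β * x.2.2.1 - α * x.2.2.2))) := rfl

private theorem alg_J_neg (S : Q →ₗ[ℝ] Q) (α β r : ℝ) (x : W Q) :
    alg_J S α β (-r) x = -alg_J S α β r x := by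
  rw [alg_J_apply, alg_J_apply]
  refine Prod.ext (Prod.ext ?_ ?_) (Prod.ext ?_ (Prod.ext ?_ ?_)) <;> simp

private theorem alg_J_sq {S : Q →ₗ[ℝ] Q} {α β r : ℝ} (hr : r ^ 2 * (β - α ^ 2) = 1)
    (h1 : ∀ q, S (S q) = (2 * α) • S q - β • q) (x : W Q) :
    alg_J S α β r (alg_J S α β r x) = -x := by
  rw [alg_J_apply, alg_J_apply]
  refine Prod.ext (Prod.ext ?_ ?_) (Prod.ext ?_ (Prod.ext ?_ ?_))
  · simp only [Prod.fst_neg]
    linear_combination (-x.1.1) * hr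
  · simp only [Prod.fst_neg, Prod.snd_neg]
    linear_combination (-x.1.2) * hr
  · simp only [Prod.fst_neg, Prod.snd_neg, map_smul, map_sub, h1]
    have h2 : r • (r • ((2 * α) • S x.2.1 - β • x.2.1 - α • S x.2.1) -
        α • (r • (S x.2.1 - α • x.2.1))) = -((r ^ 2 * (β - α ^ 2)) • x.2.1) := by
      module
    rw [h2, hr, one_smul]
  · simp only [Prod.fst_neg, Prod.snd_neg]
    linear_combination (-x.2.2.1) * hr
  · simp only [Prod.snd_neg]
    linear_combination (-x.2.2.2) * hr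

private theorem alg_J_bW {S : Q →ₗ[ℝ] Q} {α β r : ℝ} (hr : r ^ 2 * (β - α ^ 2) = 1)
    (h2 : ∀ q, (⟪q, S q⟫ : ℝ) = α * ⟪q, q⟫) (h3 : ∀ q, (⟪S q, S q⟫ : ℝ) = β * ⟪q, q⟫)
    (x y : W Q) : bW (alg_J S α β r x) (alg_J S α β r y) = bW x y := by
  have p1 : (⟪x.2.1, S y.2.1⟫ : ℝ) + ⟪S x.2.1, y.2.1⟫ = 2 * α * ⟪x.2.1, y.2.1⟫ := by
    have e := h2 (x.2.1 + y.2.1)
    simp only [map_add, inner_add_left, inner_add_right] at e
    rw [h2 x.2.1, h2 y.2.1, real_inner_comm x.2.1 y.2.1, real_inner_comm (S x.2.1) y.2.1] at e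
    linarith
  have p2 : (⟪S x.2.1, S y.2.1⟫ : ℝ) = β * ⟪x.2.1, y.2.1⟫ := by
    have e := h3 (x.2.1 + y.2.1)
    simp only [map_add, inner_add_left, inner_add_right] at e
    rw [h3 x.2.1, h3 y.2.1, real_inner_comm x.2.1 y.2.1,
      real_inner_comm (S x.2.1) (S y.2.1)] at e
    linarith
  have p3 : (⟪r • (S x.2.1 - α • x.2.1), r • (S y.2.1 - α • y.2.1)⟫ : ℝ) = ⟪x.2.1, y.2.1⟫ := by
    simp only [inner_smul_left, inner_smul_right, inner_sub_left, inner_sub_right]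
    simp only [conj_trivial]
    linear_combination (r ^ 2) * p2 - (r ^ 2 * α) * p1 + ⟪x.2.1, y.2.1⟫ * hr
  simp only [bW, alg_J_apply]
  rw [p3]
  linear_combination (2 * (x.1.1 * y.2.2.1 + x.1.2 * y.2.2.2) +
    2 * (x.2.2.1 * y.1.1 + x.2.2.2 * y.1.2)) * hr

private theorem alg_J_mem {S : Q →ₗ[ℝ] Q} {α β r : ℝ}
    (h1 : ∀ q, S (S q) = (2 * α) • S q - β • q)
    (h2 : ∀ q, (⟪q, S q⟫ : ℝ) = α * ⟪q, q⟫) (h3 : ∀ q, (⟪S q, S q⟫ : ℝ) = β * ⟪q, q⟫) :
    ∀ P ∈ LamC S, ∀ x ∈ P, alg_J S α β r x ∈ P := by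
  rintro P (rfl | ⟨q, c, rfl⟩) x hx
  · obtain ⟨e1, e2⟩ := hx
    refine ⟨?_, ?_⟩
    · rw [alg_J_apply, e1]; simp
    · rw [alg_J_apply, e2]; simp
  · obtain ⟨e1, e2, e3⟩ := hx
    have e4 : r • (S x.2.1 - α • x.2.1) = (r * (-α * x.1.1 - β * x.1.2)) • q +
        (r * (x.1.1 + α * x.1.2)) • S q := by
      rw [e1]
      simp only [map_add, map_smul, h1]
      module
    have e5 : (⟪S q, q⟫ : ℝ) = α * ⟪q, q⟫ := by rw [real_inner_comm]; exact h2 q
    refine ⟨e4, ?_, ?_⟩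
    · simp only [alg_J_apply]
      rw [e4, e2, e3, e1]
      simp only [inner_add_right, inner_smul_right, h2, h3, e5]
      ring
    · simp only [alg_J_apply]
      rw [e4, e2, e3, e1]
      simp only [inner_add_right, inner_smul_right, h2, h3, e5]
      ring

/-- Step (5): uniqueness of the complex structure up to sign. -/
private theorem alg_unique {S : Q →ₗ[ℝ] Q} (hQ : ∃ q : Q, q ≠ 0)
    (hS : ∀ q : Q, q ≠ 0 → ∀ c : ℝ, S q ≠ c • q) {α β : ℝ}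
    (h1 : ∀ q, S (S q) = (2 * α) • S q - β • q) (J' : W Q →ₗ[ℝ] W Q)
    (hJ : ∀ x, J' (J' x) = -x) (hb : ∀ x y, bW (J' x) (J' y) = bW x y)
    (hm : ∀ P ∈ LamC S, ∀ x ∈ P, J' x ∈ P) :
    ∃ m : ℝ, m ^ 2 * (β - α ^ 2) = 1 ∧ ∀ x, J' x = alg_J S α β m x := by
  have hPh : ∀ q c y, J' (pt S q c y) ∈ Ph S q c := fun q c y =>
    hm _ (Or.inr ⟨q, c, rfl⟩) _ (pt_mem _ _ _ _)
  have h00 : ∀ y : ℝ × ℝ, pt S 0 0 y = (y, 0, 0) := by
    intro y
    simp [pt, NN]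
  have hy : ∀ y : ℝ × ℝ, (J' (y, 0, 0)).2 = 0 := by
    intro y
    have e := hPh 0 0 y
    rw [h00] at e
    obtain ⟨e1, e2, e3⟩ := e
    simp at e1 e2 e3
    exact Prod.ext e1 (Prod.ext e2 e3)
  have hz : ∀ z : ℝ × ℝ, (J' (0, 0, z)).1 = 0 ∧ (J' (0, 0, z)).2.1 = 0 := fun z =>
    hm _ (Or.inl rfl) (0, 0, z) ⟨rfl, rfl⟩
  have horth : ∀ x w : W Q, bW (J' x) w = -bW x (J' w) := by
    intro x w
    have e := hb x (J' w)
    rw [hJ, bW_neg_right] at e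
    linarith
  have hq : ∀ q : Q, (J' (0, q, 0)).1 = 0 ∧ (J' (0, q, 0)).2.2 = 0 := by
    intro q
    have a1 := horth (0, q, 0) (0, 0, (1, 0))
    have a2 := horth (0, q, 0) (0, 0, (0, 1))
    have a3 := horth (0, q, 0) ((1, 0), 0, 0)
    have a4 := horth (0, q, 0) ((0, 1), 0, 0)
    have b1 := hz (1, 0)
    have b2 := hz (0, 1)
    have b3 := hy (1, 0)
    have b4 := hy (0, 1)
    simp only [bW, b1.1, b1.2] at a1
    simp only [bW, b2.1, b2.2] at a2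
    simp only [bW, b3] at a3
    simp only [bW, b4] at a4
    simp at a1 a2 a3 a4
    exact ⟨Prod.ext a1 a2, Prod.ext a3 a4⟩
  set m11 : ℝ := (J' ((1, 0), 0, 0)).1.1 with hm11
  set m21 : ℝ := (J' ((1, 0), 0, 0)).1.2 with hm21
  set m12 : ℝ := (J' ((0, 1), 0, 0)).1.1 with hm12
  set m22 : ℝ := (J' ((0, 1), 0, 0)).1.2 with hm22
  have E1 : J' ((1, 0), 0, 0) = ((m11, m21), 0, 0) := Prod.ext rfl (hy (1, 0))
  have E2 : J' ((0, 1), 0, 0) = ((m12, m22), 0, 0) := Prod.ext rfl (hy (0, 1))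
  have F : ∀ z : ℝ × ℝ, J' (0, 0, z) = (0, 0, (J' (0, 0, z)).2.2) := fun z =>
    Prod.ext (hz z).1 (Prod.ext (hz z).2 rfl)
  have G : ∀ q : Q, J' (0, q, 0) = (0, (J' (0, q, 0)).2.1, 0) := fun q =>
    Prod.ext (hq q).1 (Prod.ext rfl (hq q).2)
  -- the photons `Ph S 0 1`
  have F2 : J' (0, 0, (0, 1)) = (0, 0, (-m21, m11)) := by
    have e := hPh 0 1 (1, 0)
    have e0 : pt S 0 1 (1, 0) = (((1, 0), 0, 0) : W Q) + (0, 0, (0, 1)) := by
      simp [pt, NN]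
    rw [e0, map_add, E1, F] at e
    obtain ⟨-, e2, e3⟩ := e
    simp at e2 e3
    rw [F, Prod.ext_iff]
    refine ⟨rfl, Prod.ext rfl (Prod.ext ?_ ?_)⟩
    · exact e2
    · exact e3
  have F1 : J' (0, 0, (1, 0)) = (0, 0, (m22, -m12)) := by
    have e := hPh 0 1 (0, 1)
    have e0 : pt S 0 1 (0, 1) = (((0, 1), 0, 0) : W Q) - (0, 0, (1, 0)) := by
      simp [pt, NN]
    rw [e0, map_sub, E2, F] at e
    obtain ⟨-, e2, e3⟩ := e
    simp at e2 e3
    rw [F, Prod.ext_iff]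
    refine ⟨rfl, Prod.ext rfl (Prod.ext ?_ ?_)⟩
    · exact e2
    · change (J' (0, 0, (1, 0))).2.2.2 = -m12
      linarith
  -- the map on `Q`
  have R1 : ∀ q : Q, J' (0, q, 0) = (0, m11 • q + m21 • S q, 0) := by
    intro q
    have e := (hPh q 0 (1, 0)).1
    have e0 : pt S q 0 (1, 0) = (((1, 0), 0, 0) : W Q) + (0, q, 0) +
        (0, 0, (pt S q 0 (1, 0)).2.2) := by
      refine Prod.ext ?_ (Prod.ext ?_ ?_) <;> simp [pt, NN]
    rw [e0, map_add, map_add, E1, G, F] at e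
    simp at e
    rw [G, e]
  have R2 : ∀ q : Q, J' (0, S q, 0) = (0, m12 • q + m22 • S q, 0) := by
    intro q
    have e := (hPh q 0 (0, 1)).1
    have e0 : pt S q 0 (0, 1) = (((0, 1), 0, 0) : W Q) + (0, S q, 0) +
        (0, 0, (pt S q 0 (0, 1)).2.2) := by
      refine Prod.ext ?_ (Prod.ext ?_ ?_) <;> simp [pt, NN]
    rw [e0, map_add, map_add, E2, G, F] at e
    simp at e
    rw [G, e]
  obtain ⟨q, hq0⟩ := hQ
  have k1 : m22 - m11 - 2 * α * m21 = 0 ∧ m12 + β * m21 = 0 := by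
    have e := (R1 (S q)).symm.trans (R2 q)
    have e' := congrArg (fun x : W Q => x.2.1) e
    simp only at e'
    rw [h1] at e'
    refine alg_comb_zero hS hq0 ?_
    have : (m22 - m11 - 2 * α * m21) • S q + (m12 + β * m21) • q =
        (m12 • q + m22 • S q) - (m11 • S q + m21 • ((2 * α) • S q - β • q)) := by module
    rw [this, ← e', sub_self]
  have k2 : m11 * m21 + m21 * m22 = 0 ∧ m11 ^ 2 + m21 * m12 + 1 = 0 := by
    have e := hJ (0, q, 0)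
    have e0 : (((0, m11 • q + m21 • S q, 0)) : W Q) = m11 • (0, q, 0) + m21 • (0, S q, 0) := by
      simp
    rw [R1, e0, map_add, map_smul, map_smul, R1, R2] at e
    have e' := congrArg (fun x : W Q => x.2.1) e
    simp only [Prod.snd_add, Prod.fst_add, Prod.smul_snd, Prod.smul_fst, Prod.snd_neg,
      Prod.fst_neg] at e'
    refine alg_comb_zero hS hq0 ?_
    have : (m11 * m21 + m21 * m22) • S q + (m11 ^ 2 + m21 * m12 + 1) • q =
        (m11 • (m11 • q + m21 • S q) + m21 • (m12 • q + m22 • S q)) + q := by module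
    rw [this, e', neg_add_cancel]
  have hm21ne : m21 ≠ 0 := by
    intro h
    have := k2.2
    rw [h] at this
    nlinarith [sq_nonneg m11]
  have k3 : m11 + m22 = 0 := by
    have e : m21 * (m11 + m22) = 0 := by linarith [k2.1]
    exact (mul_eq_zero.1 e).resolve_left hm21ne
  have k4 : m11 = -α * m21 := by linarith [k1.1]
  have k5 : m22 = α * m21 := by linarith
  have k6 : m12 = -β * m21 := by linarith [k1.2]
  refine ⟨m21, ?_, fun x => ?_⟩
  · have e := k2.2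
    rw [k4, k6] at e
    linear_combination (-1 : ℝ) * e
  · have e : x = x.1.1 • (((1, 0), 0, 0) : W Q) + x.1.2 • (((0, 1), 0, 0) : W Q) + (0, x.2.1, 0) +
        x.2.2.1 • ((0, 0, (1, 0)) : W Q) + x.2.2.2 • ((0, 0, (0, 1)) : W Q) := by
      refine Prod.ext (Prod.ext ?_ ?_) (Prod.ext ?_ (Prod.ext ?_ ?_)) <;> simp
    conv_lhs => rw [e]
    simp only [map_add, map_smul]
    rw [E1, E2, R1, F1, F2, alg_J_apply, k5, k6, k4]
    refine Prod.ext (Prod.ext ?_ ?_) (Prod.ext ?_ (Prod.ext ?_ ?_))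
    · simp; ring
    · simp; ring
    · simp; module
    · simp; ring
    · simp; ring

/-- If an isometry preserving `LamC S` moves `Pp`, then there is a complex structure preserving
all members of `LamC S`, unique up to sign. -/
theorem exists_J {Q : Type*} [NormedAddCommGroup Q] [InnerProductSpace ℝ Q]
    [FiniteDimensional ℝ Q] (S : Q →ₗ[ℝ] Q) (hQ : ∃ q : Q, q ≠ 0)
    (hS : ∀ q : Q, q ≠ 0 → ∀ c : ℝ, S q ≠ c • q)
    (s : W Q ≃ₗ[ℝ] W Q) (hs : ∀ x y, bW (s x) (s y) = bW x y)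
    (hsL : ∀ P ∈ LamC S, P.map (s : W Q →ₗ[ℝ] W Q) ∈ LamC S)
    (hne : (Pp Q).map (s : W Q →ₗ[ℝ] W Q) ≠ Pp Q) :
    ∃ J : W Q →ₗ[ℝ] W Q, (∀ x, J (J x) = -x) ∧ (∀ x y, bW (J x) (J y) = bW x y) ∧
      (∀ P ∈ LamC S, ∀ x ∈ P, J x ∈ P) ∧
      ∀ γ : W Q ≃ₗ[ℝ] W Q, (∀ x y, bW (γ x) (γ y) = bW x y) →
        (∀ P ∈ LamC S, P.map (γ : W Q →ₗ[ℝ] W Q) ∈ LamC S) →
        (∀ x, γ (J x) = J (γ x)) ∨ (∀ x, γ (J x) = -J (γ x)) := by
  obtain ⟨α, β, hαβ, h1, h2, h3⟩ := alg_const hQ hS (alg_E hS s hs hsL hne)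
  have hpos : 0 < β - α ^ 2 := sub_pos.2 hαβ
  set r : ℝ := (Real.sqrt (β - α ^ 2))⁻¹ with hr
  have hr1 : r ^ 2 * (β - α ^ 2) = 1 := by
    rw [hr, inv_pow, Real.sq_sqrt hpos.le, inv_mul_cancel₀ hpos.ne']
  refine ⟨alg_J S α β r, alg_J_sq hr1 h1, alg_J_bW hr1 h2 h3, alg_J_mem h1 h2 h3, ?_⟩
  intro γ hγ hγL
  set J' : W Q →ₗ[ℝ] W Q := (γ.symm : W Q →ₗ[ℝ] W Q) ∘ₗ alg_J S α β r ∘ₗ (γ : W Q →ₗ[ℝ] W Q)
    with hJ'
  have hJ'x : ∀ x, J' x = γ.symm (alg_J S α β r (γ x)) := fun x => rfl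
  obtain ⟨m, hm1, hm2⟩ := alg_unique hQ hS h1 J' (fun x => by
      rw [hJ'x, hJ'x, LinearEquiv.apply_symm_apply, alg_J_sq hr1 h1, map_neg,
        LinearEquiv.symm_apply_apply]) (fun x y => by
      rw [hJ'x, hJ'x, ← hγ, LinearEquiv.apply_symm_apply, LinearEquiv.apply_symm_apply,
        alg_J_bW hr1 h2 h3, hγ]) (fun P hP x hx => by
      have e := alg_J_mem (r := r) h1 h2 h3 _ (hγL P hP) (γ x) ⟨x, hx, rfl⟩
      obtain ⟨w, hw, hw2⟩ := e
      rw [hJ'x, ← hw2, LinearEquiv.coe_coe, LinearEquiv.symm_apply_apply]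
      exact hw)
  have hmr : m = r ∨ m = -r := by
    have e : (m - r) * (m + r) = 0 := by
      have e1 : (m ^ 2 - r ^ 2) * (β - α ^ 2) = 0 := by linarith
      have e2 := (mul_eq_zero.1 e1).resolve_right hpos.ne'
      linear_combination e2
    rcases mul_eq_zero.1 e with e1 | e1
    · left; linarith
    · right; linarith
  rcases hmr with rfl | rfl
  · left
    intro x
    have e := hm2 x
    rw [hJ'x] at e
    rw [← e, LinearEquiv.apply_symm_apply]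
  · right
    intro x
    have e := hm2 x
    rw [hJ'x, alg_J_neg] at e
    have e2 : alg_J S α β r x = -γ.symm (alg_J S α β r (γ x)) := by rw [e, neg_neg]
    rw [e2, map_neg, LinearEquiv.apply_symm_apply]

end alg

end Pool.Agent.H2.AdS
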