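import Pool.Agent.H2.AdS.Basic

/-!
# AD-1: limits of isometries and photon foliations (helper78)
-/

set_option autoImplicit false

open scoped RealInnerProductSpace
open Filter Topology

namespace Pool.Agent.H2.AdS

section Limit

variable {E : Type*} [NormedAddCommGroup E] [InnerProductSpace ℝ E]

theorem Limit_ultra {X : Type*} [TopologicalSpace X] {K : Set X} (hK : IsCompact K)
    (𝒰 : Ultrafilter ℕ) {f : ℕ → X} (hf : ∀ᶠ n in (𝒰 : Filter ℕ), f n ∈ K) :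
    ∃ x ∈ K, Tendsto f 𝒰 (𝓝 x) := by
  obtain ⟨x, hx, h⟩ := hK.ultrafilter_le_nhds (𝒰.map f) (le_principal_iff.2 hf)
  exact ⟨x, hx, h⟩

section Gen

variable {X : Type*} [NormedAddCommGroup X] [NormedSpace ℝ X] [FiniteDimensional ℝ X]

/-- normalised operators whose norms tend to infinity converge to a nonzero operator -/
theorem Limit_gen1 (𝒰 : Ultrafilter ℕ) (f : ℕ → X →L[ℝ] X)
    (hinf : Tendsto (fun n => ‖f n‖) 𝒰 atTop) :
    ∃ T : X →L[ℝ] X, T ≠ 0 ∧ ∀ x, Tendsto (fun n => ‖f n‖⁻¹ • f n x) 𝒰 (𝓝 (T x)) := by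
  haveI : ProperSpace (X →L[ℝ] X) := FiniteDimensional.proper ℝ (X →L[ℝ] X)
  obtain ⟨T, -, hT⟩ := Limit_ultra (isCompact_closedBall (0 : X →L[ℝ] X) 1) 𝒰
    (f := fun n => ‖f n‖⁻¹ • f n) (Eventually.of_forall fun n => by
      rw [mem_closedBall_zero_iff, norm_smul, norm_inv, norm_norm]
      exact inv_mul_le_one)
  refine ⟨T, ?_, fun x => ?_⟩
  · rintro rfl
    have h1 := hT.norm
    have h2 : ‖(0 : X →L[ℝ] X)‖ = 1 := by
      refine tendsto_nhds_unique h1 (tendsto_const_nhds.congr' ?_)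
      filter_upwards [hinf.eventually_gt_atTop 0] with n hn
      rw [norm_smul, norm_inv, norm_norm]
      exact (inv_mul_cancel₀ hn.ne').symm
    rw [norm_zero] at h2
    exact zero_ne_one h2
  · have h1 : Continuous fun φ : X →L[ℝ] X => φ x := by fun_prop
    exact (h1.tendsto T).comp hT

theorem Limit_gen2 (𝒰 : Ultrafilter ℕ) (f g : ℕ → X →L[ℝ] X) (hfg : ∀ n, ‖g n‖ ≤ 3 * ‖f n‖) :
    ∃ S : X →L[ℝ] X, ∀ x, Tendsto (fun n => ‖f n‖⁻¹ • g n x) 𝒰 (𝓝 (S x)) := by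
  haveI : ProperSpace (X →L[ℝ] X) := FiniteDimensional.proper ℝ (X →L[ℝ] X)
  obtain ⟨S, -, hS⟩ := Limit_ultra (isCompact_closedBall (0 : X →L[ℝ] X) 3) 𝒰
    (f := fun n => ‖f n‖⁻¹ • g n) (Eventually.of_forall fun n => by
      rw [mem_closedBall_zero_iff, norm_smul, norm_inv, norm_norm]
      have h1 : ‖f n‖⁻¹ * ‖f n‖ ≤ 1 := inv_mul_le_one
      have h2 := mul_le_mul_of_nonneg_left (hfg n) (inv_nonneg.2 (norm_nonneg (f n)))
      linarith)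
  refine ⟨S, fun x => ?_⟩
  have h1 : Continuous fun φ : X →L[ℝ] X => φ x := by fun_prop
  exact (h1.tendsto S).comp hS

end Gen

theorem Limit_form_le (x y : V E) : |form x y| ≤ 3 * ‖x‖ * ‖y‖ := by
  unfold form
  have h1 : |⟪x.1, y.1⟫| ≤ ‖x.1‖ * ‖y.1‖ := abs_real_inner_le_norm _ _
  have a1 : ‖x.1‖ ≤ ‖x‖ := norm_fst_le x
  have a2 : ‖y.1‖ ≤ ‖y‖ := norm_fst_le y
  have b1 : |x.2.1| ≤ ‖x‖ := (norm_fst_le x.2).trans (norm_snd_le x)
  have b2 : |y.2.1| ≤ ‖y‖ := (norm_fst_le y.2).trans (norm_snd_le y)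
  have c1 : |x.2.2| ≤ ‖x‖ := (norm_snd_le x.2).trans (norm_snd_le x)
  have c2 : |y.2.2| ≤ ‖y‖ := (norm_snd_le y.2).trans (norm_snd_le y)
  have d1 : ‖x.1‖ * ‖y.1‖ ≤ ‖x‖ * ‖y‖ := mul_le_mul a1 a2 (norm_nonneg _) (norm_nonneg _)
  have d2 : |x.2.1| * |y.2.1| ≤ ‖x‖ * ‖y‖ := mul_le_mul b1 b2 (abs_nonneg _) (norm_nonneg _)
  have d3 : |x.2.2| * |y.2.2| ≤ ‖x‖ * ‖y‖ := mul_le_mul c1 c2 (abs_nonneg _) (norm_nonneg _)
  rw [← abs_mul] at d2 d3
  rw [abs_le] at h1 d2 d3 ⊢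
  constructor <;> nlinarith [h1.1, h1.2, d2.1, d2.2, d3.1, d3.2]

theorem Limit_norm_sq_le (x : V E) : ‖x‖ ^ 2 ≤ form x (x.1, -x.2) := by
  have h : form x (x.1, -x.2) = ‖x.1‖ ^ 2 + x.2.1 ^ 2 + x.2.2 ^ 2 := by
    simp only [form, real_inner_self_eq_norm_sq, Prod.fst_neg, Prod.snd_neg]
    ring
  rw [h, Prod.norm_def, Prod.norm_def]
  rcases max_cases ‖x.1‖ (max ‖x.2.1‖ ‖x.2.2‖) with ⟨h1, -⟩ | ⟨h1, -⟩ <;> rw [h1]
  · nlinarith [sq_nonneg x.2.1, sq_nonneg x.2.2]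
  · rcases max_cases ‖x.2.1‖ ‖x.2.2‖ with ⟨h2, -⟩ | ⟨h2, -⟩ <;> rw [h2, Real.norm_eq_abs, sq_abs]
    · nlinarith [sq_nonneg ‖x.1‖, sq_nonneg x.2.2]
    · nlinarith [sq_nonneg ‖x.1‖, sq_nonneg x.2.1]

theorem Limit_norm_flip (x : V E) : ‖((x.1, -x.2) : V E)‖ = ‖x‖ := by
  have h1 : ‖((x.1, -x.2) : V E)‖ = max ‖x.1‖ ‖-x.2‖ := rfl
  have h2 : ‖x‖ = max ‖x.1‖ ‖x.2‖ := rfl
  rw [h1, h2, norm_neg]

theorem Limit_dep {u w : V E} (hu : form u u = 0) (hw : form w w = 0) (huw : form u w = 0)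
    (hdet : u.2.1 * w.2.2 - u.2.2 * w.2.1 = 0) (hu0 : u ≠ 0) : ∃ c : ℝ, w = c • u := by
  have key : ∀ c : ℝ, w.2.1 = c * u.2.1 → w.2.2 = c * u.2.2 → w = c • u := by
    intro c h1 h2
    refine (eq_of_snd ?_ hw ?_ ?_).symm
    · rw [form_smul_left, form_smul_right, hu]; ring
    · rw [form_smul_left, huw]; ring
    · exact Prod.ext h1.symm h2.symm
  by_cases h1 : u.2.1 = 0
  · have h2 : u.2.2 ≠ 0 := by
      intro h2
      exact hu0 (eq_zero_of_snd hu (Prod.ext h1 h2))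
    refine ⟨w.2.2 / u.2.2, key _ ?_ ?_⟩
    · rw [h1] at hdet ⊢
      have h3 : u.2.2 * w.2.1 = 0 := by linarith
      rw [(mul_eq_zero.1 h3).resolve_left h2]
      ring
    · field_simp
  · refine ⟨w.2.1 / u.2.1, key _ ?_ ?_⟩
    · field_simp
    · field_simp
      linarith

theorem Limit_indep {u w : V E} (hdet : u.2.1 * w.2.2 - u.2.2 * w.2.1 ≠ 0) (y : ℝ × ℝ) :
    ∃ α β : ℝ, (α • u + β • w).2 = y := by
  refine ⟨(y.1 * w.2.2 - y.2 * w.2.1) / (u.2.1 * w.2.2 - u.2.2 * w.2.1),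
    (u.2.1 * y.2 - u.2.2 * y.1) / (u.2.1 * w.2.2 - u.2.2 * w.2.1), ?_⟩
  refine Prod.ext ?_ ?_
  · simp only [Prod.snd_add, Prod.fst_add, Prod.smul_snd, Prod.smul_fst, smul_eq_mul]
    rw [div_mul_eq_mul_div, div_mul_eq_mul_div, ← add_div, div_eq_iff hdet]
    ring
  · simp only [Prod.snd_add, Prod.smul_snd, smul_eq_mul]
    rw [div_mul_eq_mul_div, div_mul_eq_mul_div, ← add_div, div_eq_iff hdet]
    ring

/-- two isotropic vectors orthogonal to each other and to a negative vector are proportional -/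
theorem Limit_rank {u w k : V E} (hu : form u u = 0) (hw : form w w = 0) (huw : form u w = 0)
    (hk : form k k < 0) (hku : form k u = 0) (hkw : form k w = 0) (hu0 : u ≠ 0) :
    ∃ c : ℝ, w = c • u := by
  refine Limit_dep hu hw huw ?_ hu0
  by_contra hdet
  obtain ⟨α, β, hz⟩ := Limit_indep hdet k.2
  have hzz : form (α • u + β • w) (α • u + β • w) = 0 := by
    simp only [form_add_left, form_add_right, form_smul_left, form_smul_right, hu, hw, huw,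
      form_comm w u]
    ring
  have hzk : form k (α • u + β • w) = 0 := by
    simp only [form_add_right, form_smul_right, hku, hkw]
    ring
  have h1 : form (α • u + β • w - k) (α • u + β • w - k) = form k k := by
    rw [form_sub_left, form_sub_right, form_sub_right, hzz, hzk, form_comm _ k, hzk]
    ring
  have h2 : (α • u + β • w - k).2 = 0 := by
    rw [Prod.snd_sub, hz, sub_self]
  have h3 : 0 ≤ form (α • u + β • w - k) (α • u + β • w - k) := by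
    unfold form
    rw [h2, real_inner_self_eq_norm_sq]
    simp
  rw [h1] at h3
  exact absurd hk (not_lt.2 h3)

theorem Limit_tform {𝒰 : Ultrafilter ℕ} {f g : ℕ → V E} {a b : V E}
    (hf : Tendsto f 𝒰 (𝓝 a)) (hg : Tendsto g 𝒰 (𝓝 b)) :
    Tendsto (fun n => form (f n) (g n)) 𝒰 (𝓝 (form a b)) :=
  (continuous_form.tendsto (a, b)).comp (hf.prodMk_nhds hg)

/-- the image of a photon under an isometry is a graph -/
theorem Limit_graph {Λ : Set (Submodule ℝ (V E))} (hΛ : IsFol Λ) {P : Submodule ℝ (V E)}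
    (hP : P ∈ Λ) (F : V E ≃ₗ[ℝ] V E) (hF : ∀ x y, form (F x) (F y) = form x y) (y : ℝ × ℝ) :
    ∃ z ∈ P, (F z).2 = y := by
  obtain ⟨a, ha, ha2⟩ := hΛ.graph P hP (1, 0)
  obtain ⟨b, hb, hb2⟩ := hΛ.graph P hP (0, 1)
  have hdet : (F a).2.1 * (F b).2.2 - (F a).2.2 * (F b).2.1 ≠ 0 := by
    intro hdet
    have h0 : ∀ x ∈ P, ∀ z ∈ P, form (F x) (F z) = 0 := fun x hx z hz => by
      rw [hF, hΛ.iso P hP x hx z hz]
    have ha0 : F a ≠ 0 := by
      intro h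
      have h1 : a = 0 := by simpa using h
      rw [h1] at ha2
      simpa using congrArg Prod.fst ha2
    obtain ⟨c, hc⟩ := Limit_dep (h0 a ha a ha) (h0 b hb b hb) (h0 a ha b hb) hdet ha0
    rw [← map_smul] at hc
    have h1 := F.injective hc
    rw [h1] at hb2
    rw [Prod.smul_snd, ha2] at hb2
    simpa using congrArg Prod.snd hb2
  obtain ⟨α, β, h⟩ := Limit_indep hdet y
  refine ⟨α • a + β • b, P.add_mem (P.smul_mem _ ha) (P.smul_mem _ hb), ?_⟩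
  rw [map_add, map_smul, map_smul]
  exact h

/-- two limits of elements of images of a photon -/
def Limit_BU (F : ℕ → V E ≃ₗ[ℝ] V E) (𝒰 : Ultrafilter ℕ)
    (Λ Λ' : Set (Submodule ℝ (V E))) : Prop :=
  ∀ (P : Submodule ℝ (V E)) (u w : ℕ → V E) (u' w' : V E), P ∈ Λ →
    (∀ n, u n ∈ P ∧ w n ∈ P) → Tendsto (fun n => F n (u n)) 𝒰 (𝓝 u') →
    Tendsto (fun n => F n (w n)) 𝒰 (𝓝 w') → ∃ P' ∈ Λ', u' ∈ P' ∧ w' ∈ P'

variable [FiniteDimensional ℝ E] {Λ Λ' : Set (Submodule ℝ (V E))}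

/-- bounded sequences of operators converge along an ultrafilter -/
theorem Limit_ops (𝒰 : Ultrafilter ℕ) (f : ℕ → V E →L[ℝ] V E) (M : ℝ)
    (hM : ∀ᶠ n in (𝒰 : Filter ℕ), ‖f n‖ ≤ M) :
    ∃ g : V E →L[ℝ] V E, Tendsto f 𝒰 (𝓝 g) := by
  haveI : ProperSpace (V E →L[ℝ] V E) := FiniteDimensional.proper ℝ (V E →L[ℝ] V E)
  obtain ⟨g, -, hg⟩ := Limit_ultra (isCompact_closedBall (0 : V E →L[ℝ] V E) M) 𝒰 (f := f) (by
      filter_upwards [hM] with n hn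
      exact (dist_zero_right (f n)).trans_le hn)
  exact ⟨g, hg⟩

omit [FiniteDimensional ℝ E] in
theorem Limit_eval {𝒰 : Ultrafilter ℕ} {f : ℕ → V E →L[ℝ] V E} {g : V E →L[ℝ] V E}
    (h : Tendsto f 𝒰 (𝓝 g)) (x : V E) : Tendsto (fun n => f n x) 𝒰 (𝓝 (g x)) := by
  have h1 : Continuous fun φ : V E →L[ℝ] V E => φ x := by fun_prop
  exact (h1.tendsto g).comp h

omit [FiniteDimensional ℝ E] in
theorem Limit_comp {𝒰 : Ultrafilter ℕ} {f f' : ℕ → V E →L[ℝ] V E} {g g' : V E →L[ℝ] V E}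
    (h : Tendsto f 𝒰 (𝓝 g)) (h' : Tendsto f' 𝒰 (𝓝 g')) :
    Tendsto (fun n => (f n).comp (f' n)) 𝒰 (𝓝 (g.comp g')) := by
  have h1 : Continuous fun p : (V E →L[ℝ] V E) × (V E →L[ℝ] V E) => p.1.comp p.2 := by fun_prop
  exact (h1.tendsto (g, g')).comp (h.prodMk_nhds h')

theorem Limit_inv_norm {F : V E ≃ₗ[ℝ] V E} (hF : ∀ x y, form (F x) (F y) = form x y) :
    ‖LinearMap.toContinuousLinearMap (F.symm : V E →ₗ[ℝ] V E)‖ ≤
      3 * ‖LinearMap.toContinuousLinearMap (F : V E →ₗ[ℝ] V E)‖ := by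
  refine ContinuousLinearMap.opNorm_le_bound _ (by positivity) fun y => ?_
  change ‖F.symm y‖ ≤ _
  set z := F.symm y with hz
  have h1 := Limit_norm_sq_le z
  have h2 : form z (z.1, -z.2) = form y (F (z.1, -z.2)) := by
    rw [← hF, hz, LinearEquiv.apply_symm_apply]
  have h3 := (le_abs_self _).trans (Limit_form_le y (F (z.1, -z.2)))
  have h4 : ‖F (z.1, -z.2)‖ ≤
      ‖LinearMap.toContinuousLinearMap (F : V E →ₗ[ℝ] V E)‖ * ‖z‖ := by
    have := (LinearMap.toContinuousLinearMap (F : V E →ₗ[ℝ] V E)).le_opNorm (z.1, -z.2)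
    rw [Limit_norm_flip] at this
    exact this
  rw [h2] at h1
  rcases eq_or_lt_of_le (norm_nonneg z) with h5 | h5
  · rw [← h5]
    positivity
  · have h6 : ‖z‖ * ‖z‖ ≤
        (3 * ‖LinearMap.toContinuousLinearMap (F : V E →ₗ[ℝ] V E)‖ * ‖y‖) * ‖z‖ := by
      calc ‖z‖ * ‖z‖ = ‖z‖ ^ 2 := by ring
        _ ≤ 3 * ‖y‖ * ‖F (z.1, -z.2)‖ := h1.trans h3
        _ ≤ 3 * ‖y‖ * (‖LinearMap.toContinuousLinearMap (F : V E →ₗ[ℝ] V E)‖ * ‖z‖) :=
            mul_le_mul_of_nonneg_left h4 (by positivity)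
        _ = _ := by ring
    exact le_of_mul_le_mul_right h6 h5

/-- bounded sequences converge to an isometry that maps `Λ` to `Λ'` -/
theorem Limit_caseA (hΛ : IsFol Λ) (hΛ' : IsFol Λ') (F : ℕ → V E ≃ₗ[ℝ] V E)
    (hF : ∀ n x y, form (F n x) (F n y) = form x y) (𝒰 : Ultrafilter ℕ)
    (hBU : Limit_BU F 𝒰 Λ Λ') (M : ℝ)
    (hM : ∀ᶠ n in (𝒰 : Filter ℕ),
      ‖LinearMap.toContinuousLinearMap (F n : V E →ₗ[ℝ] V E)‖ ≤ M) :
    ∃ g : V E ≃ₗ[ℝ] V E, (∀ x y, form (g x) (g y) = form x y) ∧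
      ∀ P, P ∈ Λ ↔ ∃ P' ∈ Λ', P = P'.map (g : V E →ₗ[ℝ] V E) := by
  obtain ⟨f, hf⟩ := Limit_ops 𝒰
    (fun n => LinearMap.toContinuousLinearMap (F n : V E →ₗ[ℝ] V E)) M hM
  obtain ⟨g, hg⟩ := Limit_ops 𝒰
    (fun n => LinearMap.toContinuousLinearMap ((F n).symm : V E →ₗ[ℝ] V E)) (3 * M) (by
      filter_upwards [hM] with n hn
      exact (Limit_inv_norm (hF n)).trans (mul_le_mul_of_nonneg_left hn (by norm_num)))
  have hfx : ∀ x, Tendsto (fun n => F n x) 𝒰 (𝓝 (f x)) := fun x => Limit_eval hf x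
  have hfg : f.comp g = ContinuousLinearMap.id ℝ (V E) := by
    refine tendsto_nhds_unique (Limit_comp hf hg) (tendsto_const_nhds.congr fun n => ?_)
    exact ContinuousLinearMap.ext fun x => ((F n).apply_symm_apply x).symm
  have hgf : g.comp f = ContinuousLinearMap.id ℝ (V E) := by
    refine tendsto_nhds_unique (Limit_comp hg hf) (tendsto_const_nhds.congr fun n => ?_)
    exact ContinuousLinearMap.ext fun x => ((F n).symm_apply_apply x).symm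
  have hfg' : ∀ x, f (g x) = x := fun x => DFunLike.congr_fun hfg x
  have hgf' : ∀ x, g (f x) = x := fun x => DFunLike.congr_fun hgf x
  have hfF : ∀ x y, form (f x) (f y) = form x y := fun x y =>
    tendsto_nhds_unique (Limit_tform (hfx x) (hfx y))
      (tendsto_const_nhds.congr fun n => (hF n x y).symm)
  have hgG : ∀ x y, form (g x) (g y) = form x y := fun x y => by
    rw [← hfF, hfg', hfg']
  -- members of `Λ` are mapped into members of `Λ'`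
  have hA1 : ∀ P ∈ Λ, ∃ P' ∈ Λ', ∀ x ∈ P, f x ∈ P' := by
    intro P hP
    obtain ⟨x₁, hx₁, h2⟩ := hΛ.graph P hP (1, 0)
    have hne : f x₁ ≠ 0 := by
      intro h
      have h3 := hgf' x₁
      rw [h, map_zero] at h3
      rw [← h3] at h2
      simpa using congrArg Prod.fst h2
    obtain ⟨P', hP', h3, -⟩ := hBU P (fun _ => x₁) (fun _ => x₁) (f x₁) (f x₁) hP
      (fun _ => ⟨hx₁, hx₁⟩) (hfx x₁) (hfx x₁)
    refine ⟨P', hP', fun x hx => ?_⟩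
    obtain ⟨P'', hP'', h4, h5⟩ := hBU P (fun _ => x₁) (fun _ => x) (f x₁) (f x) hP
      (fun _ => ⟨hx₁, hx⟩) (hfx x₁) (hfx x)
    rwa [hΛ'.uni P' hP' P'' hP'' (f x₁) hne h3 h4]
  have hA2 : ∀ P ∈ Λ, ∀ P' ∈ Λ', (∀ x ∈ P, f x ∈ P') → ∀ z ∈ P', g z ∈ P := by
    intro P hP P' hP' h z hz
    refine hΛ.mem_of_orth hP ?_ fun x hx => ?_
    · rw [hgG, hΛ'.iso P' hP' z hz z hz]
    · rw [← hfF, hfg', hΛ'.iso P' hP' _ (h x hx) z hz]
  let ge : V E ≃ₗ[ℝ] V E := LinearEquiv.ofLinearMap (g : V E →ₗ[ℝ] V E) (f : V E →ₗ[ℝ] V E)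
    (LinearMap.ext hgf') (LinearMap.ext hfg')
  have hmap : ∀ P ∈ Λ, ∀ P' ∈ Λ', (∀ x ∈ P, f x ∈ P') → P = P'.map (ge : V E →ₗ[ℝ] V E) := by
    intro P hP P' hP' h
    ext x
    constructor
    · intro hx
      exact ⟨f x, h x hx, hgf' x⟩
    · rintro ⟨z, hz, rfl⟩
      exact hA2 P hP P' hP' h z hz
  refine ⟨ge, hgG, fun P => ⟨fun hP => ?_, ?_⟩⟩
  · obtain ⟨P', hP', h⟩ := hA1 P hP
    exact ⟨P', hP', hmap P hP P' hP' h⟩
  · rintro ⟨P', hP', rfl⟩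
    obtain ⟨z₁, hz₁, h2⟩ := hΛ'.graph P' hP' (1, 0)
    have hz0 : z₁ ≠ 0 := by
      intro h
      rw [h] at h2
      simpa using congrArg Prod.fst h2
    have hne : g z₁ ≠ 0 := by
      intro h
      have h3 := hfg' z₁
      rw [h, map_zero] at h3
      exact hz0 h3.symm
    obtain ⟨P, hP, hgP⟩ := hΛ.cov (g z₁) hne (by rw [hgG, hΛ'.iso P' hP' z₁ hz₁ z₁ hz₁])
    obtain ⟨P'', hP'', h⟩ := hA1 P hP
    have h3 : z₁ ∈ P'' := by
      have := h _ hgP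
      rwa [hfg'] at this
    have h4 : P' = P'' := hΛ'.uni P' hP' P'' hP'' z₁ hz0 hz₁ h3
    rw [← h4] at h
    rw [← hmap P hP P' hP' h]
    exact hP

omit [FiniteDimensional ℝ E] in
/-- two vectors of a photon orthogonal to an isotropic vector off the photon are proportional -/
theorem Limit_line (hΛ : IsFol Λ) {P : Submodule ℝ (V E)} (hP : P ∈ Λ) {l u w : V E}
    (hl : form l l = 0) (hlP : l ∉ P) (hu : u ∈ P) (hu0 : u ≠ 0) (hul : form u l = 0)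
    (hw : w ∈ P) (hw0 : w ≠ 0) (hwl : form w l = 0) : ∃ c : ℝ, c ≠ 0 ∧ w = c • u := by
  by_cases hdet : u.2.1 * w.2.2 - u.2.2 * w.2.1 = 0
  · obtain ⟨c, hc⟩ := Limit_dep (hΛ.iso P hP u hu u hu) (hΛ.iso P hP w hw w hw)
      (hΛ.iso P hP u hu w hw) hdet hu0
    refine ⟨c, ?_, hc⟩
    rintro rfl
    exact hw0 (by rw [hc, zero_smul])
  · exfalso
    apply hlP
    refine hΛ.mem_of_orth hP hl fun x hx => ?_
    obtain ⟨α, β, h⟩ := Limit_indep hdet x.2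
    have h1 := hΛ.unique_graph hP (P.add_mem (P.smul_mem α hu) (P.smul_mem β hw)) hx h
    rw [← h1, form_add_left, form_smul_left, form_smul_left, hul, hwl]
    ring

/-- two photons transverse to an isotropic vector `l` -/
theorem Limit_two (hE : 3 ≤ Module.finrank ℝ E) (hΛ : IsFol Λ) {l : V E} (hl : form l l = 0)
    (hl0 : l ≠ 0) : ∃ u₁ u₂ : V E, form u₁ u₂ ≠ 0 ∧ u₁ ≠ 0 ∧ u₂ ≠ 0 ∧ form u₁ l = 0 ∧
      form u₂ l = 0 ∧ (∃ P₁ ∈ Λ, u₁ ∈ P₁ ∧ l ∉ P₁) ∧ ∃ P₂ ∈ Λ, u₂ ∈ P₂ ∧ l ∉ P₂ := by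
  set r : ℝ := ‖l.1‖ with hr
  have hr2 : r ^ 2 = l.2.1 ^ 2 + l.2.2 ^ 2 := by
    have h := hl
    unfold form at h
    rw [real_inner_self_eq_norm_sq, ← hr] at h
    linarith
  have hr0 : r ≠ 0 := by
    intro h
    rw [h] at hr2
    have h1 : l.2.1 = 0 := by nlinarith [sq_nonneg l.2.1, sq_nonneg l.2.2]
    have h2 : l.2.2 = 0 := by nlinarith [sq_nonneg l.2.1, sq_nonneg l.2.2]
    exact hl0 (eq_zero_of_snd hl (Prod.ext h1 h2))
  have hr2p : 0 < r ^ 2 := by positivity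
  -- two orthonormal vectors orthogonal to `l.1`
  obtain ⟨h₁, h₂, hn1, hn2, h12, he1, he2⟩ : ∃ h₁ h₂ : E, ⟪h₁, h₁⟫ = 1 ∧ ⟪h₂, h₂⟫ = 1 ∧
      ⟪h₁, h₂⟫ = 0 ∧ ⟪h₁, l.1⟫ = 0 ∧ ⟪h₂, l.1⟫ = 0 := by
    set S : Submodule ℝ E := (Submodule.span ℝ {l.1})ᗮ with hS
    have h1 := Submodule.finrank_add_finrank_orthogonal (Submodule.span ℝ {l.1})
    have h2 : Module.finrank ℝ (Submodule.span ℝ {l.1}) ≤ 1 := by
      have := finrank_span_le_card (R := ℝ) ({l.1} : Set E)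
      simpa using this
    have h3 : 2 ≤ Module.finrank ℝ S := by
      rw [hS]
      omega
    let b := stdOrthonormalBasis ℝ S
    have hb := b.orthonormal
    have hmem : ∀ v : S, ⟪(v : E), l.1⟫ = 0 := fun v =>
      Submodule.mem_orthogonal_singleton_iff_inner_left.1 v.2
    refine ⟨b ⟨0, by omega⟩, b ⟨1, by omega⟩, ?_, ?_, ?_, hmem _, hmem _⟩
    · have := hb.1 ⟨0, by omega⟩
      rw [real_inner_self_eq_norm_sq]
      have h4 : ‖((b ⟨0, by omega⟩ : S) : E)‖ = 1 := this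
      rw [h4]; norm_num
    · have := hb.1 ⟨1, by omega⟩
      rw [real_inner_self_eq_norm_sq]
      have h4 : ‖((b ⟨1, by omega⟩ : S) : E)‖ = 1 := this
      rw [h4]; norm_num
    · exact hb.2 (by simp)
  let U : E → V E := fun h => (r • h, (-l.2.2, l.2.1))
  have hUU : ∀ h h' : E, form (U h) (U h') = r ^ 2 * (⟪h, h'⟫ - 1) := by
    intro h h'
    simp only [U, form, inner_smul_left, inner_smul_right, RCLike.conj_to_real]
    linear_combination hr2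
  have hUl : ∀ h : E, ⟪h, l.1⟫ = 0 → form (U h) l = 0 := by
    intro h hh
    simp only [U, form, inner_smul_left, hh]
    ring
  have hU0 : ∀ h : E, U h ≠ 0 := by
    intro h h0
    have e1 : -l.2.2 = 0 := congrArg (fun x : V E => x.2.1) h0
    have e2 : l.2.1 = 0 := congrArg (fun x : V E => x.2.2) h0
    rw [e2, neg_eq_zero.1 e1] at hr2
    rw [hr2] at hr2p
    simp at hr2p
  obtain ⟨η, hη, hlη⟩ := hΛ.cov l hl0 hl
  have hP : ∀ h : E, ⟪h, h⟫ = 1 → U h ∉ η → ∃ P ∈ Λ, U h ∈ P ∧ l ∉ P := by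
    intro h hh hn
    obtain ⟨P, hP, hUP⟩ := hΛ.cov (U h) (hU0 h) (by rw [hUU, hh]; ring)
    refine ⟨P, hP, hUP, fun hlP => hn ?_⟩
    rwa [hΛ.uni η hη P hP l hl0 hlη hlP]
  have hne12 : form (U h₁) (U h₂) ≠ 0 := by
    rw [hUU, h12]
    have : r ^ 2 * (0 - 1) = -(r ^ 2) := by ring
    rw [this]
    exact (neg_lt_zero.2 hr2p).ne
  have hne13 : form (U h₁) (U (-h₁)) ≠ 0 := by
    rw [hUU, inner_neg_right, hn1]
    have : r ^ 2 * (-1 - 1) = -(2 * r ^ 2) := by ring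
    rw [this]
    exact (neg_lt_zero.2 (by positivity)).ne
  have hne23 : form (U h₂) (U (-h₁)) ≠ 0 := by
    rw [hUU, inner_neg_right, real_inner_comm, h12]
    have : r ^ 2 * (-0 - 1) = -(r ^ 2) := by ring
    rw [this]
    exact (neg_lt_zero.2 hr2p).ne
  have hn3 : ⟪-h₁, -h₁⟫ = 1 := by rw [inner_neg_neg, hn1]
  have he3 : ⟪-h₁, l.1⟫ = 0 := by rw [inner_neg_left, he1, neg_zero]
  by_cases c1 : U h₁ ∈ η
  · have c2 : U h₂ ∉ η := fun h => hne12 (hΛ.iso η hη _ c1 _ h)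
    have c3 : U (-h₁) ∉ η := fun h => hne13 (hΛ.iso η hη _ c1 _ h)
    exact ⟨U h₂, U (-h₁), hne23, hU0 _, hU0 _, hUl _ he2, hUl _ he3, hP _ hn2 c2, hP _ hn3 c3⟩
  · by_cases c2 : U h₂ ∈ η
    · have c3 : U (-h₁) ∉ η := fun h => hne23 (hΛ.iso η hη _ c2 _ h)
      exact ⟨U h₁, U (-h₁), hne13, hU0 _, hU0 _, hUl _ he1, hUl _ he3, hP _ hn1 c1, hP _ hn3 c3⟩
    · exact ⟨U h₁, U h₂, hne12, hU0 _, hU0 _, hUl _ he1, hUl _ he2, hP _ hn1 c1, hP _ hn2 c2⟩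

/-- the limit of the preimages of the points over `(1, 0)` -/
theorem Limit_key (hΛ : IsFol Λ) (hΛ' : IsFol Λ') (F : ℕ → V E ≃ₗ[ℝ] V E)
    (hF : ∀ n x y, form (F n x) (F n y) = form x y) (𝒰 : Ultrafilter ℕ)
    (hBU : Limit_BU F 𝒰 Λ Λ') {R : ℝ} (hR : ∀ n, ‖(F n).symm ((0, 1, 0) : V E)‖ ≤ R)
    {c : ℕ → ℝ} (hc : Tendsto c 𝒰 (𝓝 0)) {T : V E → V E}
    (hT : ∀ x, Tendsto (fun n => c n • F n x) 𝒰 (𝓝 (T x))) {l l' y₀ : V E}
    (hl : Tendsto (fun n => c n • (F n).symm y₀) 𝒰 (𝓝 l)) (hll : form l l = 0)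
    (hTl : ∀ x, T x = form x l • l') (hl'0 : l' ≠ 0) {P₀ : Submodule ℝ (V E)} (hP₀ : P₀ ∈ Λ')
    (hl'P : l' ∈ P₀) {s₀ : V E} (hs₀ : s₀ ∈ P₀) (hs₀2 : s₀.2 = (1, 0))
    {P : Submodule ℝ (V E)} (hP : P ∈ Λ) (hlP : l ∉ P) :
    ∃ z : ℕ → V E, (∀ n, z n ∈ P) ∧ (∀ n, ‖z n‖⁻¹ ≤ 3 * R) ∧
      Tendsto (fun n => F n (z n)) 𝒰 (𝓝 s₀) ∧
      ∃ w ∈ P, w ≠ 0 ∧ Tendsto (fun n => ‖z n‖⁻¹ • z n) 𝒰 (𝓝 w) ∧ form w l = 0 := by
  obtain ⟨u, hu, hul⟩ : ∃ u ∈ P, form u l ≠ 0 := by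
    by_contra h
    push Not at h
    exact hlP (hΛ.mem_of_orth hP hll h)
  choose z hz hz2 using fun n => Limit_graph hΛ hP (F n) (hF n) (1, 0)
  have hiso : ∀ n, form (F n (z n)) (F n (z n)) = 0 := fun n => by
    rw [hF, hΛ.iso P hP _ (hz n) _ (hz n)]
  have hnorm : ∀ n, ‖F n (z n)‖ ≤ 1 := by
    intro n
    have h1 := hiso n
    unfold form at h1
    rw [hz2 n, real_inner_self_eq_norm_sq] at h1
    have h2 : ‖(F n (z n)).1‖ ≤ 1 := by
      norm_num at h1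
      nlinarith [norm_nonneg (F n (z n)).1]
    rw [Prod.norm_def, hz2 n]
    refine max_le h2 ?_
    rw [Prod.norm_def]
    simp
  have hform : ∀ n, form (z n) ((F n).symm ((0, 1, 0) : V E)) = -1 := by
    intro n
    rw [← hF n, LinearEquiv.apply_symm_apply]
    unfold form
    rw [hz2 n]
    simp
  have hzR : ∀ n, 1 ≤ 3 * ‖z n‖ * R := by
    intro n
    have h1 := Limit_form_le (z n) ((F n).symm ((0, 1, 0) : V E))
    rw [hform n, abs_neg, abs_one] at h1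
    exact h1.trans (mul_le_mul_of_nonneg_left (hR n) (by positivity))
  have hz0 : ∀ n, 0 < ‖z n‖ := by
    intro n
    rcases eq_or_lt_of_le (norm_nonneg (z n)) with h | h
    · have := hzR n
      rw [← h] at this
      norm_num at this
    · exact h
  have hzinv : ∀ n, ‖z n‖⁻¹ ≤ 3 * R := by
    intro n
    rw [inv_le_iff_one_le_mul₀ (hz0 n)]
    have := hzR n
    linarith
  obtain ⟨s, -, hs⟩ := Limit_ultra (isCompact_closedBall (0 : V E) 1) 𝒰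
    (f := fun n => F n (z n)) (Eventually.of_forall fun n => mem_closedBall_zero_iff.2 (hnorm n))
  have hcu : Tendsto (fun n => F n (c n • u)) 𝒰 (𝓝 (T u)) :=
    (hT u).congr fun n => (map_smul (F n) (c n) u).symm
  obtain ⟨P', hP', hsP', hTP'⟩ := hBU P z (fun n => c n • u) s (T u) hP
    (fun n => ⟨hz n, P.smul_mem _ hu⟩) hs hcu
  have hl'P' : l' ∈ P' := by
    have h1 : l' = (form u l)⁻¹ • T u := by
      rw [hTl, smul_smul, inv_mul_cancel₀ hul, one_smul]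
    rw [h1]
    exact P'.smul_mem _ hTP'
  have hPP : P₀ = P' := hΛ'.uni P₀ hP₀ P' hP' l' hl'0 hl'P hl'P'
  have hs2 : s.2 = (1, 0) := by
    have h1 : Tendsto (fun n => (F n (z n)).2) 𝒰 (𝓝 s.2) := (continuous_snd.tendsto s).comp hs
    refine tendsto_nhds_unique h1 (tendsto_const_nhds.congr fun n => (hz2 n).symm)
  have hss : s = s₀ := by
    rw [← hPP] at hsP'
    exact hΛ'.unique_graph hP₀ hsP' hs₀ (hs2.trans hs₀2.symm)
  rw [hss] at hs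
  have hwn : ∀ n, ‖‖z n‖⁻¹ • z n‖ = 1 := by
    intro n
    rw [norm_smul, norm_inv, norm_norm, inv_mul_cancel₀ (hz0 n).ne']
  obtain ⟨w, -, hw⟩ := Limit_ultra (isCompact_closedBall (0 : V E) 1) 𝒰
    (f := fun n => ‖z n‖⁻¹ • z n)
    (Eventually.of_forall fun n => mem_closedBall_zero_iff.2 (hwn n).le)
  have hwP : w ∈ P := by
    have hcl : IsClosed (P : Set (V E)) := P.closed_of_finiteDimensional
    exact hcl.mem_of_tendsto hw (Eventually.of_forall fun n => P.smul_mem _ (hz n))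
  have hw1 : ‖w‖ = 1 := by
    refine tendsto_nhds_unique hw.norm (tendsto_const_nhds.congr fun n => (hwn n).symm)
  have hw0 : w ≠ 0 := by
    rintro rfl
    simp at hw1
  refine ⟨z, hz, hzinv, hs, w, hwP, hw0, hw, ?_⟩
  have h1 := Limit_tform hw hl
  have h2 : Tendsto (fun n => ‖z n‖⁻¹ * (c n * form (F n (z n)) y₀)) 𝒰 (𝓝 0) := by
    have h3 : Tendsto (fun n => c n * form (F n (z n)) y₀) 𝒰 (𝓝 0) := by
      have := hc.mul (Limit_tform hs (tendsto_const_nhds (x := y₀)))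
      simpa using this
    refine squeeze_zero_norm (a := fun n => 3 * R * ‖c n * form (F n (z n)) y₀‖) (fun n => ?_) ?_
    · rw [norm_mul, norm_inv, norm_norm]
      exact mul_le_mul_of_nonneg_right (hzinv n) (norm_nonneg _)
    · have := (h3.norm).const_mul (3 * R)
      simpa using this
  refine tendsto_nhds_unique h1 (h2.congr fun n => ?_)
  rw [form_smul_left, form_smul_right, ← hF n (z n), LinearEquiv.apply_symm_apply]

/-- sequences with unbounded norms are impossible -/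
theorem Limit_caseB (hE : 3 ≤ Module.finrank ℝ E) (hΛ : IsFol Λ) (hΛ' : IsFol Λ')
    (F : ℕ → V E ≃ₗ[ℝ] V E) (hF : ∀ n x y, form (F n x) (F n y) = form x y)
    (𝒰 : Ultrafilter ℕ) (hBU : Limit_BU F 𝒰 Λ Λ') {K : Set (V E)} (hK : IsCompact K)
    (hK1 : K ⊆ {x | form x x = -1}) (hk : ∀ n, (F n).symm ((0, 1, 0) : V E) ∈ K)
    (hinf : Tendsto (fun n => ‖LinearMap.toContinuousLinearMap (F n : V E →ₗ[ℝ] V E)‖) 𝒰
      atTop) : False := by
  set c : ℕ → ℝ := fun n => ‖LinearMap.toContinuousLinearMap (F n : V E →ₗ[ℝ] V E)‖⁻¹ with hc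
  have hc0 : Tendsto c 𝒰 (𝓝 0) := tendsto_inv_atTop_zero.comp hinf
  obtain ⟨T, hT0, hTx'⟩ := Limit_gen1 𝒰
    (fun n => LinearMap.toContinuousLinearMap (F n : V E →ₗ[ℝ] V E)) hinf
  obtain ⟨S, hSx'⟩ := Limit_gen2 𝒰
    (fun n => LinearMap.toContinuousLinearMap (F n : V E →ₗ[ℝ] V E))
    (fun n => LinearMap.toContinuousLinearMap ((F n).symm : V E →ₗ[ℝ] V E))
    (fun n => Limit_inv_norm (hF n))
  have hTx : ∀ x, Tendsto (fun n => c n • F n x) 𝒰 (𝓝 (T x)) := hTx'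
  have hSx : ∀ x, Tendsto (fun n => c n • (F n).symm x) 𝒰 (𝓝 (S x)) := hSx'
  obtain ⟨k, hkK, hkl⟩ := Limit_ultra hK 𝒰 (f := fun n => (F n).symm ((0, 1, 0) : V E))
    (Eventually.of_forall hk)
  have hkk : form k k = -1 := hK1 hkK
  have hadj : ∀ x y, form (T x) y = form x (S y) := by
    intro x y
    refine tendsto_nhds_unique (Limit_tform (hTx x) (tendsto_const_nhds (x := y)))
      ((Limit_tform (tendsto_const_nhds (x := x)) (hSx y)).congr fun n => ?_)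
    rw [form_smul_left, form_smul_right, ← hF n x, LinearEquiv.apply_symm_apply]
  have hcc : Tendsto (fun n => c n * c n) 𝒰 (𝓝 0) := by
    have := hc0.mul hc0
    simpa using this
  have hSS : ∀ x y, form (S x) (S y) = 0 := by
    intro x y
    have h1 : Tendsto (fun n => c n * c n * form x y) 𝒰 (𝓝 0) := by
      have := hcc.mul_const (form x y)
      simpa using this
    refine tendsto_nhds_unique (Limit_tform (hSx x) (hSx y)) (h1.congr fun n => ?_)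
    rw [form_smul_left, form_smul_right, ← hF n ((F n).symm x), LinearEquiv.apply_symm_apply,
      LinearEquiv.apply_symm_apply]
    ring
  have hTT : ∀ x y, form (T x) (T y) = 0 := by
    intro x y
    have h1 : Tendsto (fun n => c n * c n * form x y) 𝒰 (𝓝 0) := by
      have := hcc.mul_const (form x y)
      simpa using this
    refine tendsto_nhds_unique (Limit_tform (hTx x) (hTx y)) (h1.congr fun n => ?_)
    rw [form_smul_left, form_smul_right, hF]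
    ring
  have hkS : ∀ y, form k (S y) = 0 := by
    intro y
    have h1 : Tendsto (fun n => c n * form ((0, 1, 0) : V E) y) 𝒰 (𝓝 0) := by
      have := hc0.mul_const (form ((0, 1, 0) : V E) y)
      simpa using this
    refine tendsto_nhds_unique (Limit_tform hkl (hSx y)) (h1.congr fun n => ?_)
    rw [form_smul_right, ← hF n ((F n).symm _), LinearEquiv.apply_symm_apply,
      LinearEquiv.apply_symm_apply]
  -- the vector `l`
  obtain ⟨x, y₀, hxy⟩ : ∃ x y, form x (S y) ≠ 0 := by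
    by_contra h
    push Not at h
    apply hT0
    refine ContinuousLinearMap.ext fun x => ?_
    exact form_nondeg fun y => by rw [hadj, h]
  set l := S y₀ with hl
  have hl0 : l ≠ 0 := by
    intro h
    rw [h, form_zero_right] at hxy
    exact hxy rfl
  set x₁ := (form x l)⁻¹ • x with hx₁
  have hx₁l : form x₁ l = 1 := by
    rw [hx₁, form_smul_left, inv_mul_cancel₀ hxy]
  set l' := T x₁ with hl'
  have hTl : ∀ z, T z = form z l • l' := by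
    intro z
    rw [← sub_eq_zero]
    refine form_nondeg fun y => ?_
    obtain ⟨φ, hφ⟩ := Limit_rank (hSS y₀ y₀) (hSS y y) (hSS y₀ y) (by rw [hkk]; norm_num)
      (hkS y₀) (hkS y) hl0
    rw [form_sub_left, form_smul_left, hl', hadj, hadj, hφ, ← hl, form_smul_right,
      form_smul_right, hx₁l]
    ring
  have hl'0 : l' ≠ 0 := by
    intro h
    apply hT0
    refine ContinuousLinearMap.ext fun z => ?_
    rw [hTl z, h, smul_zero]
    rfl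
  obtain ⟨P₀, hP₀, hl'P⟩ := hΛ'.cov l' hl'0 (hTT x₁ x₁)
  obtain ⟨s₀, hs₀, hs₀2⟩ := hΛ'.graph P₀ hP₀ (1, 0)
  obtain ⟨R, hR⟩ := hK.isBounded.exists_norm_le
  obtain ⟨u₁, u₂, hu12, hu1, hu2, hu1l, hu2l, ⟨P₁, hP₁, huP₁, hlP₁⟩, P₂, hP₂, huP₂, hlP₂⟩ :=
    Limit_two hE hΛ (hSS y₀ y₀) hl0
  obtain ⟨z₁, hz₁, hzi₁, hs₁, w₁, hw₁P, hw₁0, hw₁, hw₁l⟩ :=
    Limit_key hΛ hΛ' F hF 𝒰 hBU (fun n => hR _ (hk n)) hc0 hTx (hSx y₀) (hSS y₀ y₀) hTl hl'0
      hP₀ hl'P hs₀ hs₀2 hP₁ hlP₁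
  obtain ⟨z₂, hz₂, hzi₂, hs₂, w₂, hw₂P, hw₂0, hw₂, hw₂l⟩ :=
    Limit_key hΛ hΛ' F hF 𝒰 hBU (fun n => hR _ (hk n)) hc0 hTx (hSx y₀) (hSS y₀ y₀) hTl hl'0
      hP₀ hl'P hs₀ hs₀2 hP₂ hlP₂
  have hR0 : 0 ≤ 3 * R := (inv_nonneg.2 (norm_nonneg (z₁ 0))).trans (hzi₁ 0)
  have hww : form w₁ w₂ = 0 := by
    have h1 : Tendsto (fun n => form (F n (z₁ n)) (F n (z₂ n))) 𝒰 (𝓝 0) := by
      have := Limit_tform hs₁ hs₂
      rwa [hΛ'.iso P₀ hP₀ s₀ hs₀ s₀ hs₀] at this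
    have h2 : Tendsto (fun n => ‖z₁ n‖⁻¹ * ‖z₂ n‖⁻¹ * form (F n (z₁ n)) (F n (z₂ n))) 𝒰
        (𝓝 0) := by
      refine squeeze_zero_norm
        (a := fun n => (3 * R) * (3 * R) * ‖form (F n (z₁ n)) (F n (z₂ n))‖) (fun n => ?_) ?_
      · rw [norm_mul, norm_mul, norm_inv, norm_norm, norm_inv, norm_norm]
        refine mul_le_mul_of_nonneg_right ?_ (norm_nonneg _)
        exact mul_le_mul (hzi₁ n) (hzi₂ n) (inv_nonneg.2 (norm_nonneg _)) hR0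
      · have := (h1.norm).const_mul ((3 * R) * (3 * R))
        simpa using this
    refine tendsto_nhds_unique (Limit_tform hw₁ hw₂) (h2.congr fun n => ?_)
    rw [form_smul_left, form_smul_right, hF]
    ring
  obtain ⟨c₁, hc₁, h₁⟩ := Limit_line hΛ hP₁ (hSS y₀ y₀) hlP₁ huP₁ hu1 hu1l hw₁P hw₁0 hw₁l
  obtain ⟨c₂, hc₂, h₂⟩ := Limit_line hΛ hP₂ (hSS y₀ y₀) hlP₂ huP₂ hu2 hu2l hw₂P hw₂0 hw₂l
  rw [h₁, h₂, form_smul_left, form_smul_right] at hww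
  exact mul_ne_zero hc₁ (mul_ne_zero hc₂ hu12) hww

end Limit

theorem limit_foliation {E : Type*} [NormedAddCommGroup E] [InnerProductSpace ℝ E]
    [FiniteDimensional ℝ E] (hE : 3 ≤ Module.finrank ℝ E)
    {Λ Λ' : Set (Submodule ℝ (V E))} (hΛ : IsFol Λ) (hΛ' : IsFol Λ')
    (A : ℕ → V E ≃ₗ[ℝ] V E) (hA : ∀ n x y, form (A n x) (A n y) = form x y)
    (𝒰 : Ultrafilter ℕ)
    (hBU : ∀ (P : ℕ → Submodule ℝ (V E)) (u w : ℕ → V E) (u' w' : V E),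
      (∀ n, P n ∈ Λ ∧ u n ∈ P n ∧ w n ∈ P n) →
      Tendsto (fun n => A n (u n)) 𝒰 (𝓝 u') → Tendsto (fun n => A n (w n)) 𝒰 (𝓝 w') →
      ∃ P' ∈ Λ', u' ∈ P' ∧ w' ∈ P')
    (Γ : Subgroup (V E ≃ₗ[ℝ] V E)) (hΓ : ∀ γ ∈ Γ, ∀ x y, form (γ x) (γ y) = form x y)
    (hΓΛ : ∀ γ ∈ Γ, ∀ P ∈ Λ, P.map (γ : V E →ₗ[ℝ] V E) ∈ Λ)
    (hc : ∃ K : Set (V E), IsCompact K ∧ K ⊆ {x | form x x = -1} ∧
      ∀ x, form x x = -1 → ∃ γ ∈ Γ, γ x ∈ K) :
    ∃ g : V E ≃ₗ[ℝ] V E, (∀ x y, form (g x) (g y) = form x y) ∧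
      ∀ P, P ∈ Λ ↔ ∃ P' ∈ Λ', P = P'.map (g : V E →ₗ[ℝ] V E) := by
  obtain ⟨K, hK, hK1, hKΓ⟩ := hc
  have hx₀ : form ((0, 1, 0) : V E) (0, 1, 0) = -1 := by
    unfold form
    simp
  have hAs : ∀ n, form ((A n).symm (0, 1, 0)) ((A n).symm (0, 1, 0)) = -1 := by
    intro n
    rw [← hA n, LinearEquiv.apply_symm_apply, hx₀]
  choose γ hγ hγK using fun n => hKΓ _ (hAs n)
  let F : ℕ → V E ≃ₗ[ℝ] V E := fun n => (γ n).symm.trans (A n)
  have hF : ∀ n x y, form (F n x) (F n y) = form x y := by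
    intro n x y
    change form (A n ((γ n).symm x)) (A n ((γ n).symm y)) = _
    rw [hA, ← hΓ (γ n) (hγ n), LinearEquiv.apply_symm_apply, LinearEquiv.apply_symm_apply]
  have hFk : ∀ n, (F n).symm ((0, 1, 0) : V E) ∈ K := fun n => hγK n
  have hBU' : Limit_BU F 𝒰 Λ Λ' := by
    intro P u w u' w' hP huw hu hw
    refine hBU (fun n => P.map (((γ n)⁻¹ : V E ≃ₗ[ℝ] V E) : V E →ₗ[ℝ] V E))
      (fun n => (γ n).symm (u n)) (fun n => (γ n).symm (w n)) u' w' (fun n => ?_) hu hw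
    refine ⟨hΓΛ _ (Γ.inv_mem (hγ n)) P hP, ?_, ?_⟩
    · exact ⟨u n, (huw n).1, rfl⟩
    · exact ⟨w n, (huw n).2, rfl⟩
  by_cases hM : ∃ M : ℝ, ∀ᶠ n in (𝒰 : Filter ℕ),
      ‖LinearMap.toContinuousLinearMap (F n : V E →ₗ[ℝ] V E)‖ ≤ M
  · obtain ⟨M, hM⟩ := hM
    exact Limit_caseA hΛ hΛ' F hF 𝒰 hBU' M hM
  · exfalso
    push Not at hM
    refine Limit_caseB hE hΛ hΛ' F hF 𝒰 hBU' hK hK1 hFk (tendsto_atTop.2 fun M => ?_)
    filter_upwards [hM M] with n hn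
    exact hn.le

end Pool.Agent.H2.AdS
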