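import Pool.Agent.H2.AdS.Basic

/-!
# A group acting properly and cocompactly does not fix a photon

Files for MP_58a686_gt: the exceptional case of the rigidity of the limit foliation.
-/

set_option autoImplicit false

open scoped RealInnerProductSpace
open Filter Topology

namespace Pool.Agent.H2.AdS

section NotFix

variable {Q : Type*} [NormedAddCommGroup Q] [InnerProductSpace ℝ Q]

/-- An isometry of `W Q` which preserves the photon at infinity. -/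
structure NfIso (γ : W Q ≃ₗ[ℝ] W Q) : Prop where
  b : ∀ x y, bW (γ x) (γ y) = bW x y
  p : ∀ x ∈ Pp Q, γ x ∈ Pp Q
  p' : ∀ x ∈ Pp Q, γ⁻¹ x ∈ Pp Q

theorem nf_inv_apply (γ : W Q ≃ₗ[ℝ] W Q) (x : W Q) : γ⁻¹ (γ x) = x := γ.symm_apply_apply x

theorem nf_apply_inv (γ : W Q ≃ₗ[ℝ] W Q) (x : W Q) : γ (γ⁻¹ x) = x := γ.apply_symm_apply x

theorem NfIso.mul {γ γ' : W Q ≃ₗ[ℝ] W Q} (h : NfIso γ) (h' : NfIso γ') : NfIso (γ * γ') where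
  b x y := by
    rw [LinearEquiv.mul_apply, LinearEquiv.mul_apply, h.b, h'.b]
  p x hx := h.p _ (h'.p x hx)
  p' x hx := by
    rw [mul_inv_rev]
    exact h'.p' _ (h.p' x hx)

theorem NfIso.inv {γ : W Q ≃ₗ[ℝ] W Q} (h : NfIso γ) : NfIso γ⁻¹ where
  b x y := by
    rw [← h.b (γ⁻¹ x) (γ⁻¹ y), nf_apply_inv, nf_apply_inv]
  p x hx := h.p' x hx
  p' x hx := by
    rw [inv_inv]
    exact h.p x hx

/-- the action on the first component -/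
def nfLam (γ : W Q ≃ₗ[ℝ] W Q) : (ℝ × ℝ) →ₗ[ℝ] (ℝ × ℝ) :=
  (LinearMap.fst ℝ (ℝ × ℝ) (Q × (ℝ × ℝ))).comp
    ((γ : W Q →ₗ[ℝ] W Q).comp (LinearMap.inl ℝ (ℝ × ℝ) (Q × (ℝ × ℝ))))

theorem nfLam_apply (γ : W Q ≃ₗ[ℝ] W Q) (y : ℝ × ℝ) : nfLam γ y = (γ (y, 0)).1 := rfl

/-- the action on the photon at infinity -/
def nfMu (γ : W Q ≃ₗ[ℝ] W Q) : (ℝ × ℝ) →ₗ[ℝ] (ℝ × ℝ) :=
  (LinearMap.snd ℝ Q (ℝ × ℝ)).comp ((LinearMap.snd ℝ (ℝ × ℝ) (Q × (ℝ × ℝ))).comp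
    ((γ : W Q →ₗ[ℝ] W Q).comp ((LinearMap.inr ℝ (ℝ × ℝ) (Q × (ℝ × ℝ))).comp
      (LinearMap.inr ℝ Q (ℝ × ℝ)))))

theorem nfMu_apply (γ : W Q ≃ₗ[ℝ] W Q) (z : ℝ × ℝ) : nfMu γ z = (γ (0, 0, z)).2.2 := rfl

/-- the action on the middle component -/
def nfRho (γ : W Q ≃ₗ[ℝ] W Q) : Q →ₗ[ℝ] Q :=
  (LinearMap.fst ℝ Q (ℝ × ℝ)).comp ((LinearMap.snd ℝ (ℝ × ℝ) (Q × (ℝ × ℝ))).comp
    ((γ : W Q →ₗ[ℝ] W Q).comp ((LinearMap.inr ℝ (ℝ × ℝ) (Q × (ℝ × ℝ))).comp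
      (LinearMap.inl ℝ Q (ℝ × ℝ)))))

theorem nfRho_apply (γ : W Q ≃ₗ[ℝ] W Q) (q : Q) : nfRho γ q = (γ (0, q, 0)).2.1 := rfl

theorem NfIso.fst0 {γ : W Q ≃ₗ[ℝ] W Q} (h : NfIso γ) {x : W Q} (hx : x.1 = 0) :
    (γ x).1 = 0 := by
  have key : ∀ z : ℝ × ℝ, bW (γ x) (0, 0, z) = 0 := by
    intro z
    have hz : ((0, 0, z) : W Q) ∈ Pp Q := ⟨rfl, rfl⟩
    have h1 := h.p' _ hz
    rw [← nf_apply_inv γ (0, 0, z), h.b]
    obtain ⟨h2, h3⟩ := h1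
    generalize γ⁻¹ (0, 0, z) = w at h2 h3
    simp [bW, h2, h3, hx]
  have h1 := key (1, 0)
  have h2 := key (0, 1)
  simp [bW] at h1 h2
  exact Prod.ext h1 h2

theorem NfIso.fst {γ : W Q ≃ₗ[ℝ] W Q} (h : NfIso γ) (x : W Q) : (γ x).1 = nfLam γ x.1 := by
  have h1 : x = (x.1, 0) + (0, x.2) := by simp
  rw [nfLam_apply]
  conv_lhs => rw [h1, map_add, Prod.fst_add, h.fst0 (x := (0, x.2)) rfl, add_zero]

theorem NfIso.pp {γ : W Q ≃ₗ[ℝ] W Q} (h : NfIso γ) (z : ℝ × ℝ) :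
    γ (0, 0, z) = (0, 0, nfMu γ z) := by
  have hz : ((0, 0, z) : W Q) ∈ Pp Q := ⟨rfl, rfl⟩
  obtain ⟨h1, h2⟩ := h.p _ hz
  exact Prod.ext h1 (Prod.ext h2 rfl)

theorem NfIso.mid {γ : W Q ≃ₗ[ℝ] W Q} (h : NfIso γ) {x : W Q} (hx : x.1 = 0) :
    (γ x).2.1 = nfRho γ x.2.1 := by
  have h1 : x = (0, x.2.1, 0) + (0, 0, x.2.2) := by
    refine Prod.ext ?_ (Prod.ext ?_ ?_) <;> simp [hx]
  rw [nfRho_apply]
  conv_lhs => rw [h1, map_add, h.pp]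
  simp

theorem NfIso.norm_mid {γ : W Q ≃ₗ[ℝ] W Q} (h : NfIso γ) {x : W Q} (hx : x.1 = 0) :
    ‖(γ x).2.1‖ = ‖x.2.1‖ := by
  have h1 := h.b x x
  have h2 : ∀ w : W Q, w.1 = 0 → bW w w = ‖w.2.1‖ ^ 2 := by
    intro w hw
    simp [bW, hw]
  rw [h2 _ (h.fst0 hx), h2 _ hx] at h1
  exact (sq_eq_sq₀ (norm_nonneg _) (norm_nonneg _)).1 h1

theorem NfIso.norm_rho {γ : W Q ≃ₗ[ℝ] W Q} (h : NfIso γ) (q : Q) : ‖nfRho γ q‖ = ‖q‖ :=
  h.norm_mid (x := (0, q, 0)) rfl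

theorem NfIso.lam_mul {γ γ' : W Q ≃ₗ[ℝ] W Q} (h : NfIso γ) (y : ℝ × ℝ) :
    nfLam (γ * γ') y = nfLam γ (nfLam γ' y) := by
  rw [nfLam_apply, LinearEquiv.mul_apply, h.fst, nfLam_apply γ' y]

theorem NfIso.mu_mul {γ γ' : W Q ≃ₗ[ℝ] W Q} (h' : NfIso γ') (z : ℝ × ℝ) :
    nfMu (γ * γ') z = nfMu γ (nfMu γ' z) := by
  rw [nfMu_apply, LinearEquiv.mul_apply, h'.pp, nfMu_apply γ]

theorem nfLam_one (y : ℝ × ℝ) : nfLam (1 : W Q ≃ₗ[ℝ] W Q) y = y := rfl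

theorem nfMu_one (z : ℝ × ℝ) : nfMu (1 : W Q ≃ₗ[ℝ] W Q) z = z := rfl

theorem NfIso.lam_inv {γ : W Q ≃ₗ[ℝ] W Q} (h : NfIso γ) (y : ℝ × ℝ) :
    nfLam γ (nfLam γ⁻¹ y) = y := by
  rw [← h.lam_mul, mul_inv_cancel, nfLam_one]

theorem NfIso.mu_inv {γ : W Q ≃ₗ[ℝ] W Q} (h : NfIso γ) (y : ℝ × ℝ) :
    nfMu γ (nfMu γ⁻¹ y) = y := by
  rw [← h.inv.mu_mul, mul_inv_cancel, nfMu_one]

theorem NfIso.pair {γ : W Q ≃ₗ[ℝ] W Q} (h : NfIso γ) (y z : ℝ × ℝ) :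
    (nfLam γ y).1 * (nfMu γ z).1 + (nfLam γ y).2 * (nfMu γ z).2 = y.1 * z.1 + y.2 * z.2 := by
  have h1 := h.b (y, 0) (0, 0, z)
  rw [h.pp] at h1
  have h2 : (γ (y, 0)).1 = nfLam γ y := rfl
  simp [bW, h2] at h1
  exact h1

theorem NfIso.lam_inj {γ : W Q ≃ₗ[ℝ] W Q} (h : NfIso γ) {y : ℝ × ℝ} (hy : nfLam γ y = 0) :
    y = 0 := by
  have h1 := h.pair y (1, 0)
  have h2 := h.pair y (0, 1)
  rw [hy] at h1 h2
  simp at h1 h2
  exact Prod.ext h1.symm h2.symm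

/-- the action on the photons other than the one at infinity -/
theorem nf_ph {S : Q →ₗ[ℝ] Q} {γ : W Q ≃ₗ[ℝ] W Q} (h : NfIso γ)
    (hL : ∀ P ∈ LamC S, P.map (γ : W Q →ₗ[ℝ] W Q) ∈ LamC S) (q : Q) (c : ℝ) :
    ∃ q' c', ∀ y, γ (pt S q c y) = pt S q' c' (nfLam γ y) := by
  have hmem := hL _ (Or.inr ⟨q, c, rfl⟩)
  rcases hmem with h1 | ⟨q', c', h1⟩
  · exfalso
    have h2 : γ (pt S q c (1, 0)) ∈ Pp Q := by
      rw [← h1]
      exact ⟨_, pt_mem S q c (1, 0), rfl⟩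
    have h3 := h.p' _ h2
    rw [nf_inv_apply] at h3
    have h4 : ((1 : ℝ), (0 : ℝ)) = 0 := h3.1
    simpa using congrArg Prod.fst h4
  · refine ⟨q', c', fun y => ?_⟩
    have h2 : γ (pt S q c y) ∈ Ph S q' c' := by
      rw [← h1]
      exact ⟨_, pt_mem S q c y, rfl⟩
    rw [eq_pt h2, h.fst]
    rfl

theorem nf_ptsub (S : Q →ₗ[ℝ] Q) (q q' : Q) (c c' : ℝ) (y : ℝ × ℝ) :
    (pt S q c y - pt S q' c' y).1 = 0 ∧
      (pt S q c y - pt S q' c' y).2.1 = NN S (q - q') y := by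
  constructor
  · simp [pt]
  · rw [NN_sub]
    simp [pt]

/-- the first-order data of an element -/
theorem nf_tau {S : Q →ₗ[ℝ] Q} {γ : W Q ≃ₗ[ℝ] W Q} (h : NfIso γ)
    (hL : ∀ P ∈ LamC S, P.map (γ : W Q →ₗ[ℝ] W Q) ∈ LamC S) :
    ∃ q₀ : Q, ∀ (q : Q) (c : ℝ), ∃ (t : Q) (c' : ℝ),
      (∀ y, γ (pt S q c y) = pt S (q₀ + t) c' (nfLam γ y)) ∧
      ∀ y, NN S t (nfLam γ y) = nfRho γ (NN S q y) := by
  obtain ⟨q₀, c₀, h0⟩ := nf_ph h hL 0 0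
  refine ⟨q₀, fun q c => ?_⟩
  obtain ⟨q', c', h1⟩ := nf_ph h hL q c
  refine ⟨q' - q₀, c', fun y => by rw [h1 y, add_sub_cancel], fun y => ?_⟩
  have h2 : γ (pt S q c y - pt S 0 0 y) = pt S q' c' (nfLam γ y) - pt S q₀ c₀ (nfLam γ y) := by
    rw [map_sub, h1, h0]
  have h3 := nf_ptsub S q 0 c 0 y
  have h4 := nf_ptsub S q' q₀ c' c₀ (nfLam γ y)
  rw [← h4.2, ← h2, h.mid h3.1, h3.2, sub_zero]

/-- the quarter turn -/
def nfRot (y : ℝ × ℝ) : ℝ × ℝ := (-y.2, y.1)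

theorem nfRot_norm (y : ℝ × ℝ) : ‖nfRot y‖ = ‖y‖ := by
  simp [nfRot, Prod.norm_def, max_comm]

theorem nfRot_surj (z : ℝ × ℝ) : nfRot (z.2, -z.1) = z := by
  simp [nfRot]

theorem nf_pt_add (S : Q →ₗ[ℝ] Q) (q : Q) (c d : ℝ) (y : ℝ × ℝ) :
    pt S q (c + d) y = pt S q c y + d • (0, 0, nfRot y) := by
  refine Prod.ext ?_ (Prod.ext ?_ (Prod.ext ?_ ?_))
  · simp [pt]
  · simp [pt]
  · simp [pt, nfRot]
    ring
  · simp [pt, nfRot]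
    ring

theorem nf_kappa {S : Q →ₗ[ℝ] Q} (hS : ∀ q : Q, q ≠ 0 → ∀ c : ℝ, S q ≠ c • q)
    {γ : W Q ≃ₗ[ℝ] W Q} (h : NfIso γ)
    (hL : ∀ P ∈ LamC S, P.map (γ : W Q →ₗ[ℝ] W Q) ∈ LamC S) :
    ∃ κ : ℝ, ∀ y, nfMu γ (nfRot y) = κ • nfRot (nfLam γ y) := by
  obtain ⟨q₀, h0⟩ := nf_tau h hL
  obtain ⟨t, c, h1, h2⟩ := h0 0 0
  obtain ⟨t', c', h3, h4⟩ := h0 0 1
  have hz : ∀ s : Q, (∀ y, NN S s (nfLam γ y) = nfRho γ (NN S 0 y)) → s = 0 := by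
    intro s hs
    by_contra hne
    have hl : nfLam γ (1, 0) ≠ 0 := by
      intro h5
      have := h.lam_inj h5
      simpa using congrArg Prod.fst this
    apply NN_ne_zero hS hne hl
    rw [hs]
    simp [NN]
  have ht := hz t h2
  have ht' := hz t' h4
  subst ht
  subst ht'
  refine ⟨c' - c, fun y => ?_⟩
  have h5 : γ (0, 0, nfRot y) = γ (pt S 0 1 y) - γ (pt S 0 0 y) := by
    rw [← map_sub]
    congr 1
    have := nf_pt_add S 0 0 1 y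
    rw [zero_add] at this
    rw [this]
    simp
  rw [h3, h1, h.pp] at h5
  have h6 := nf_pt_add S (q₀ + 0) c (c' - c) (nfLam γ y)
  rw [add_sub_cancel] at h6
  rw [h6, add_sub_cancel_left] at h5
  have h7 := congrArg (fun x : W Q => x.2.2) h5
  simpa using h7

/-- uniform bounds for `N_q y` -/
theorem nf_bounds [FiniteDimensional ℝ Q] {S : Q →ₗ[ℝ] Q} (hQ : ∃ q : Q, q ≠ 0)
    (hS : ∀ q : Q, q ≠ 0 → ∀ c : ℝ, S q ≠ c • q) :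
    ∃ a b : ℝ, 0 < a ∧ 0 < b ∧ ∀ (q : Q) (y : ℝ × ℝ),
      a * (‖q‖ * ‖y‖) ≤ ‖NN S q y‖ ∧ ‖NN S q y‖ ≤ b * (‖q‖ * ‖y‖) := by
  have hcS : Continuous S := S.continuous_of_finiteDimensional
  have hcont : Continuous fun p : Q × (ℝ × ℝ) => ‖NN S p.1 p.2‖ := by
    unfold NN
    fun_prop
  have hK : IsCompact ((Metric.sphere (0 : Q) 1) ×ˢ (Metric.sphere (0 : ℝ × ℝ) 1)) :=
    (isCompact_sphere _ _).prod (isCompact_sphere _ _)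
  obtain ⟨q₁, hq₁⟩ := hQ
  have hne : ((Metric.sphere (0 : Q) 1) ×ˢ (Metric.sphere (0 : ℝ × ℝ) 1)).Nonempty := by
    refine ⟨(‖q₁‖⁻¹ • q₁, (1, 0)), ?_, ?_⟩
    · rw [mem_sphere_zero_iff_norm, norm_smul, norm_inv, norm_norm,
        inv_mul_cancel₀ (norm_ne_zero_iff.2 hq₁)]
    · rw [mem_sphere_zero_iff_norm]
      simp [Prod.norm_def]
  obtain ⟨p, hp, hmin⟩ := hK.exists_isMinOn hne hcont.continuousOn
  obtain ⟨p', hp', hmax⟩ := hK.exists_isMaxOn hne hcont.continuousOn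
  have hn : ∀ p : Q × (ℝ × ℝ), p ∈ (Metric.sphere (0 : Q) 1) ×ˢ (Metric.sphere (0 : ℝ × ℝ) 1) →
      p.1 ≠ 0 ∧ p.2 ≠ 0 := by
    rintro p ⟨h1, h2⟩
    rw [mem_sphere_zero_iff_norm] at h1 h2
    constructor
    · intro h
      rw [h, norm_zero] at h1
      exact zero_ne_one h1
    · intro h
      rw [h, norm_zero] at h2
      exact zero_ne_one h2
  have ha : 0 < ‖NN S p.1 p.2‖ := norm_pos_iff.2 (NN_ne_zero hS (hn p hp).1 (hn p hp).2)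
  have hb : 0 < ‖NN S p'.1 p'.2‖ := norm_pos_iff.2 (NN_ne_zero hS (hn p' hp').1 (hn p' hp').2)
  refine ⟨_, _, ha, hb, fun q y => ?_⟩
  by_cases hq : q = 0
  · subst hq
    simp [NN]
  by_cases hy : y = 0
  · subst hy
    simp [NN]
  have hq' : 0 < ‖q‖ := norm_pos_iff.2 hq
  have hy' : 0 < ‖y‖ := norm_pos_iff.2 hy
  have hmem : ((‖q‖⁻¹ • q, ‖y‖⁻¹ • y) : Q × (ℝ × ℝ)) ∈
      (Metric.sphere (0 : Q) 1) ×ˢ (Metric.sphere (0 : ℝ × ℝ) 1) := by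
    refine ⟨?_, ?_⟩
    · rw [mem_sphere_zero_iff_norm, norm_smul, norm_inv, norm_norm, inv_mul_cancel₀ hq'.ne']
    · rw [mem_sphere_zero_iff_norm, norm_smul, norm_inv, norm_norm, inv_mul_cancel₀ hy'.ne']
  have h1 := hmin hmem
  have h2 := hmax hmem
  simp only [Set.mem_ofPred_eq] at h1 h2
  have h3 : ‖NN S (‖q‖⁻¹ • q) (‖y‖⁻¹ • y)‖ = ‖NN S q y‖ / (‖q‖ * ‖y‖) := by
    rw [NN_smul_right, NN_smul, norm_smul, norm_smul, norm_inv, norm_norm, norm_inv, norm_norm]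
    field_simp
  rw [h3] at h1 h2
  have h4 : 0 < ‖q‖ * ‖y‖ := mul_pos hq' hy'
  exact ⟨(le_div_iff₀ h4).1 h1, (div_le_iff₀ h4).1 h2⟩

/-- bounded distortion of the action on the first component -/
theorem nf_dist {S : Q →ₗ[ℝ] Q} (hQ : ∃ q : Q, q ≠ 0)
    {a b : ℝ} (ha : 0 < a) (hb : 0 < b)
    (hab : ∀ (q : Q) (y : ℝ × ℝ),
      a * (‖q‖ * ‖y‖) ≤ ‖NN S q y‖ ∧ ‖NN S q y‖ ≤ b * (‖q‖ * ‖y‖))
    {γ : W Q ≃ₗ[ℝ] W Q} (h : NfIso γ)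
    (hL : ∀ P ∈ LamC S, P.map (γ : W Q →ₗ[ℝ] W Q) ∈ LamC S) (y z : ℝ × ℝ) :
    ‖nfLam γ y‖ * ‖z‖ ≤ (b / a) ^ 2 * (‖nfLam γ z‖ * ‖y‖) := by
  obtain ⟨q, hq⟩ := hQ
  obtain ⟨q₀, h0⟩ := nf_tau h hL
  obtain ⟨t, c, -, h2⟩ := h0 q 0
  have hq' : 0 < ‖q‖ := norm_pos_iff.2 hq
  have ht : t ≠ 0 := by
    rintro rfl
    have h3 := h2 (1, 0)
    have h4 : NN S 0 (nfLam γ (1, 0)) = 0 := by simp [NN]
    rw [h4] at h3
    have h5 := h.norm_rho (NN S q (1, 0))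
    rw [← h3, norm_zero] at h5
    have h6 : NN S q (1, 0) = q := by simp [NN]
    rw [h6] at h5
    exact hq (norm_eq_zero.1 h5.symm)
  have ht' : 0 < ‖t‖ := norm_pos_iff.2 ht
  have hn : ∀ y, ‖NN S t (nfLam γ y)‖ = ‖NN S q y‖ := fun y => by rw [h2, h.norm_rho]
  have h3 : a * (‖t‖ * ‖nfLam γ y‖) ≤ b * (‖q‖ * ‖y‖) :=
    ((hab t _).1.trans_eq (hn y)).trans (hab q y).2
  have h4 : a * (‖q‖ * ‖z‖) ≤ b * (‖t‖ * ‖nfLam γ z‖) :=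
    ((hab q z).1.trans_eq (hn z).symm).trans (hab t _).2
  have h5 := mul_le_mul h3 h4 (by positivity) (by positivity)
  have h6 : 0 < a ^ 2 * (‖t‖ * ‖q‖) := by positivity
  refine le_of_mul_le_mul_left ?_ h6
  calc a ^ 2 * (‖t‖ * ‖q‖) * (‖nfLam γ y‖ * ‖z‖)
      = a * (‖t‖ * ‖nfLam γ y‖) * (a * (‖q‖ * ‖z‖)) := by ring
    _ ≤ b * (‖q‖ * ‖y‖) * (b * (‖t‖ * ‖nfLam γ z‖)) := h5
    _ = a ^ 2 * (‖t‖ * ‖q‖) * ((b / a) ^ 2 * (‖nfLam γ z‖ * ‖y‖)) := by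
      field_simp

theorem nf_mu_dist {S : Q →ₗ[ℝ] Q} (hQ : ∃ q : Q, q ≠ 0)
    (hS : ∀ q : Q, q ≠ 0 → ∀ c : ℝ, S q ≠ c • q)
    {a b : ℝ} (ha : 0 < a) (hb : 0 < b)
    (hab : ∀ (q : Q) (y : ℝ × ℝ),
      a * (‖q‖ * ‖y‖) ≤ ‖NN S q y‖ ∧ ‖NN S q y‖ ≤ b * (‖q‖ * ‖y‖))
    {γ : W Q ≃ₗ[ℝ] W Q} (h : NfIso γ)
    (hL : ∀ P ∈ LamC S, P.map (γ : W Q →ₗ[ℝ] W Q) ∈ LamC S) (y z : ℝ × ℝ) :
    ‖nfMu γ y‖ * ‖z‖ ≤ (b / a) ^ 2 * (‖nfMu γ z‖ * ‖y‖) := by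
  obtain ⟨κ, hκ⟩ := nf_kappa hS h hL
  have h1 : ∀ y : ℝ × ℝ, ‖nfMu γ y‖ = |κ| * ‖nfLam γ (y.2, -y.1)‖ := by
    intro y
    rw [← nfRot_surj y, hκ, norm_smul, nfRot_norm, nfRot_surj, Real.norm_eq_abs]
  have h2 : ∀ y : ℝ × ℝ, ‖((y.2, -y.1) : ℝ × ℝ)‖ = ‖y‖ := by
    intro y
    rw [← nfRot_norm, nfRot_surj]
  have h3 := nf_dist hQ ha hb hab h hL (y.2, -y.1) (z.2, -z.1)
  rw [h2, h2] at h3
  rw [h1, h1]
  have h4 := mul_le_mul_of_nonneg_left h3 (abs_nonneg κ)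
  calc |κ| * ‖nfLam γ (y.2, -y.1)‖ * ‖z‖ = |κ| * (‖nfLam γ (y.2, -y.1)‖ * ‖z‖) := by ring
    _ ≤ |κ| * ((b / a) ^ 2 * (‖nfLam γ (z.2, -z.1)‖ * ‖y‖)) := h4
    _ = (b / a) ^ 2 * (|κ| * ‖nfLam γ (z.2, -z.1)‖ * ‖y‖) := by ring

/-- the linear map `y ↦ pt S q c y` -/
noncomputable def nfPt (S : Q →ₗ[ℝ] Q) (q : Q) (c : ℝ) : (ℝ × ℝ) →ₗ[ℝ] W Q where
  toFun := pt S q c
  map_add' y y' := by
    refine Prod.ext rfl (Prod.ext (NN_add_right S q y y') (Prod.ext ?_ ?_))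
    · simp only [pt, Prod.fst_add, Prod.snd_add, NN_add_right, inner_add_right]
      ring
    · simp only [pt, Prod.fst_add, Prod.snd_add, NN_add_right, inner_add_right]
      ring
  map_smul' a y := by
    refine Prod.ext rfl (Prod.ext (NN_smul_right S a q y) (Prod.ext ?_ ?_))
    · simp only [pt, Prod.smul_fst, Prod.smul_snd, NN_smul_right, inner_smul_right, smul_eq_mul,
        RingHom.id_apply]
      ring
    · simp only [pt, Prod.smul_fst, Prod.smul_snd, NN_smul_right, inner_smul_right, smul_eq_mul,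
        RingHom.id_apply]
      ring

theorem nfPt_apply (S : Q →ₗ[ℝ] Q) (q : Q) (c : ℝ) (y : ℝ × ℝ) : nfPt S q c y = pt S q c y := rfl

/-- the middle space, orthogonal to `Ph S q c` and to `Pp` -/
noncomputable def nfJ (S : Q →ₗ[ℝ] Q) (q : Q) : Q →ₗ[ℝ] W Q where
  toFun u := (0, u, (-(1 / 2) * ⟪q, u⟫, -(1 / 2) * ⟪S q, u⟫))
  map_add' u u' := by
    refine Prod.ext (by simp) (Prod.ext rfl (Prod.ext ?_ ?_))
    · simp only [Prod.fst_add, Prod.snd_add, inner_add_right]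
      ring
    · simp only [Prod.snd_add, inner_add_right]
      ring
  map_smul' a u := by
    refine Prod.ext (by simp) (Prod.ext rfl (Prod.ext ?_ ?_))
    · simp only [Prod.smul_fst, Prod.smul_snd, inner_smul_right, smul_eq_mul, RingHom.id_apply]
      ring
    · simp only [Prod.smul_snd, inner_smul_right, smul_eq_mul, RingHom.id_apply]
      ring

theorem nfJ_apply (S : Q →ₗ[ℝ] Q) (q u : Q) :
    nfJ S q u = (0, u, (-(1 / 2) * ⟪q, u⟫, -(1 / 2) * ⟪S q, u⟫)) := rfl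

/-- the middle coordinate relative to `Ph S q c` and `Pp` -/
def nfR (S : Q →ₗ[ℝ] Q) (q : Q) : W Q →ₗ[ℝ] Q where
  toFun x := x.2.1 - NN S q x.1
  map_add' x x' := by
    simp only [Prod.fst_add, Prod.snd_add, NN_add_right]
    abel
  map_smul' a x := by
    simp only [Prod.smul_fst, Prod.smul_snd, NN_smul_right, RingHom.id_apply, smul_sub]

theorem nfR_apply (S : Q →ₗ[ℝ] Q) (q : Q) (x : W Q) : nfR S q x = x.2.1 - NN S q x.1 := rfl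

theorem nfR_pt (S : Q →ₗ[ℝ] Q) (q : Q) (c : ℝ) (y : ℝ × ℝ) : nfR S q (pt S q c y) = 0 := by
  simp [nfR_apply, pt]

theorem nfR_fst {S : Q →ₗ[ℝ] Q} {q : Q} {x : W Q} (hx : x.1 = 0) : nfR S q x = x.2.1 := by
  simp [nfR_apply, hx, NN]

/-- the last coordinate relative to `Ph S q c` and `Pp` -/
noncomputable def nfZ (S : Q →ₗ[ℝ] Q) (q : Q) (c : ℝ) : W Q →ₗ[ℝ] (ℝ × ℝ) :=
  (LinearMap.snd ℝ Q (ℝ × ℝ)).comp ((LinearMap.snd ℝ (ℝ × ℝ) (Q × (ℝ × ℝ))).comp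
    (LinearMap.id - (nfPt S q c).comp (LinearMap.fst ℝ (ℝ × ℝ) (Q × (ℝ × ℝ))) -
      (nfJ S q).comp (nfR S q)))

theorem nf_decomp (S : Q →ₗ[ℝ] Q) (q : Q) (c : ℝ) (x : W Q) :
    x = pt S q c x.1 + nfJ S q (nfR S q x) + (0, 0, nfZ S q c x) := by
  refine Prod.ext ?_ (Prod.ext ?_ ?_)
  · simp [nfJ_apply, pt]
  · simp [nfJ_apply, pt, nfR_apply]
  · simp [nfZ, nfPt_apply]

theorem bW_pt_J (S : Q →ₗ[ℝ] Q) (q : Q) (c : ℝ) (y : ℝ × ℝ) (u : Q) :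
    bW (pt S q c y) (nfJ S q u) = 0 := by
  simp only [bW, pt, nfJ_apply, NN, inner_add_left, inner_smul_left]
  simp
  ring

theorem bW_pt_pp (S : Q →ₗ[ℝ] Q) (q : Q) (c : ℝ) (y z : ℝ × ℝ) :
    bW (pt S q c y) (0, 0, z) = 2 * (y.1 * z.1 + y.2 * z.2) := by
  simp [bW, pt]

theorem bW_J_pp (S : Q →ₗ[ℝ] Q) (q : Q) (u : Q) (z : ℝ × ℝ) :
    bW (nfJ S q u) (0, 0, z) = 0 := by
  simp [bW, nfJ_apply]

theorem bW_J_J (S : Q →ₗ[ℝ] Q) (q : Q) (u : Q) :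
    bW (nfJ S q u) (nfJ S q u) = ‖u‖ ^ 2 := by
  simp [bW, nfJ_apply]

theorem bW_decomp (S : Q →ₗ[ℝ] Q) (q : Q) (c : ℝ) (y z : ℝ × ℝ) (u : Q) :
    bW (pt S q c y + nfJ S q u + (0, 0, z)) (pt S q c y + nfJ S q u + (0, 0, z)) =
      ‖u‖ ^ 2 + 4 * (y.1 * z.1 + y.2 * z.2) := by
  have h1 : bW (pt S q c y) (pt S q c y) = 0 := iso_Ph (pt_mem S q c y) (pt_mem S q c y)
  have h2 : bW ((0, 0, z) : W Q) (0, 0, z) = 0 := by simp [bW]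
  simp only [bW_add_left, bW_add_right, h1, h2, bW_pt_J, bW_pt_pp, bW_J_pp, bW_J_J]
  rw [bW_comm (nfJ S q u) (pt S q c y), bW_pt_J, bW_comm (0, 0, z) (pt S q c y), bW_pt_pp,
    bW_comm (0, 0, z) (nfJ S q u), bW_J_pp]
  ring

/-- `γ` is an isometry preserving `Ph S q c` and `Pp`. -/
structure NfGood (S : Q →ₗ[ℝ] Q) (q : Q) (c : ℝ) (γ : W Q ≃ₗ[ℝ] W Q) : Prop extends NfIso γ where
  g : ∀ y, γ (pt S q c y) = pt S q c (nfLam γ y)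

theorem NfGood.mul {S : Q →ₗ[ℝ] Q} {q : Q} {c : ℝ} {γ γ' : W Q ≃ₗ[ℝ] W Q}
    (h : NfGood S q c γ) (h' : NfGood S q c γ') : NfGood S q c (γ * γ') where
  toNfIso := h.toNfIso.mul h'.toNfIso
  g y := by
    rw [LinearEquiv.mul_apply, h'.g, h.g, h.toNfIso.lam_mul]

theorem NfGood.inv {S : Q →ₗ[ℝ] Q} {q : Q} {c : ℝ} {γ : W Q ≃ₗ[ℝ] W Q}
    (h : NfGood S q c γ) : NfGood S q c γ⁻¹ where
  toNfIso := h.toNfIso.inv
  g y := by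
    have h1 := h.g (nfLam γ⁻¹ y)
    rw [h.toNfIso.lam_inv] at h1
    rw [← h1, nf_inv_apply]

theorem NfGood.one {S : Q →ₗ[ℝ] Q} {q : Q} {c : ℝ} : NfGood S q c (1 : W Q ≃ₗ[ℝ] W Q) where
  b _ _ := rfl
  p _ hx := hx
  p' _ hx := by
    rw [inv_one]
    exact hx
  g _ := rfl

theorem NfGood.pow {S : Q →ₗ[ℝ] Q} {q : Q} {c : ℝ} {γ : W Q ≃ₗ[ℝ] W Q}
    (h : NfGood S q c γ) (n : ℕ) : NfGood S q c (γ ^ n) := by
  induction n with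
  | zero =>
    rw [pow_zero]
    exact NfGood.one
  | succ n ih =>
    rw [pow_succ]
    exact ih.mul h

theorem NfGood.j {S : Q →ₗ[ℝ] Q} {q : Q} {c : ℝ} {γ : W Q ≃ₗ[ℝ] W Q}
    (h : NfGood S q c γ) (u : Q) : γ (nfJ S q u) = nfJ S q (nfRho γ u) := by
  have h1 : (γ (nfJ S q u)).1 = 0 := h.toNfIso.fst0 rfl
  have h2 : (γ (nfJ S q u)).2.1 = nfRho γ u := h.toNfIso.mid (x := nfJ S q u) rfl
  have h3 : ∀ v, bW (pt S q c v) (γ (nfJ S q u)) = 0 := by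
    intro v
    have h4 := h.g (nfLam γ⁻¹ v)
    rw [h.toNfIso.lam_inv] at h4
    rw [← h4, h.b, bW_pt_J]
  have h5 := h3 (1, 0)
  have h6 := h3 (0, 1)
  simp [bW, pt, NN, h1, h2] at h5 h6
  rw [nfJ_apply S q (nfRho γ u)]
  refine Prod.ext h1 (Prod.ext h2 (Prod.ext ?_ ?_))
  · change (γ (nfJ S q u)).2.2.1 = -(1 / 2) * ⟪q, nfRho γ u⟫
    linarith
  · change (γ (nfJ S q u)).2.2.2 = -(1 / 2) * ⟪S q, nfRho γ u⟫
    linarith

theorem nf_exists_bound {A B : Type*} [NormedAddCommGroup A] [NormedSpace ℝ A]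
    [FiniteDimensional ℝ A] [NormedAddCommGroup B] [NormedSpace ℝ B] (f : A →ₗ[ℝ] B) :
    ∃ C : ℝ, 0 ≤ C ∧ ∀ x, ‖f x‖ ≤ C * ‖x‖ :=
  ⟨‖f.toContinuousLinearMap‖, norm_nonneg _, f.toContinuousLinearMap.le_opNorm⟩

/-- the base point -/
noncomputable def nfX (S : Q →ₗ[ℝ] Q) (q : Q) (c : ℝ) : W Q :=
  pt S q c (1, 0) + (0, 0, (-(1 / 4), 0))

theorem nf_bounded [FiniteDimensional ℝ Q] {S : Q →ₗ[ℝ] Q} (hQ : ∃ q : Q, q ≠ 0)
    (hS : ∀ q : Q, q ≠ 0 → ∀ c : ℝ, S q ≠ c • q) {a b : ℝ} (ha : 0 < a) (hb : 0 < b)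
    (hab : ∀ (q : Q) (y : ℝ × ℝ),
      a * (‖q‖ * ‖y‖) ≤ ‖NN S q y‖ ∧ ‖NN S q y‖ ≤ b * (‖q‖ * ‖y‖))
    (q : Q) (c : ℝ) (ν : W Q ≃ₗ[ℝ] W Q) (hν : NfIso ν) :
    ∃ R : ℝ, ∀ g : W Q ≃ₗ[ℝ] W Q, NfGood S q c g →
      (∀ P ∈ LamC S, P.map (g : W Q →ₗ[ℝ] W Q) ∈ LamC S) →
      (∀ y, ‖nfLam g⁻¹ y‖ ≤ ‖y‖) → (∀ z, ‖nfMu g z‖ ≤ ‖z‖) →
      ‖(g * ν * g⁻¹) (nfX S q c)‖ ≤ R := by
  obtain ⟨C₁, hC₁, h1⟩ := nf_exists_bound (nfPt S q c)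
  obtain ⟨C₂, hC₂, h2⟩ := nf_exists_bound (nfJ S q)
  obtain ⟨C₃, hC₃, h3⟩ := nf_exists_bound (nfLam ν)
  obtain ⟨C₄, hC₄, h4⟩ := nf_exists_bound
    ((nfR S q).comp ((ν : W Q →ₗ[ℝ] W Q).comp (nfPt S q c)))
  obtain ⟨C₅, hC₅, h5⟩ := nf_exists_bound
    ((nfZ S q c).comp ((ν : W Q →ₗ[ℝ] W Q).comp (nfPt S q c)))
  obtain ⟨C₆, hC₆, h6⟩ := nf_exists_bound (nfMu ν)
  set K₀ : ℝ := (b / a) ^ 2 with hK₀
  have hK₀' : 0 ≤ K₀ := by positivity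
  refine ⟨C₁ * (K₀ * C₃) + C₂ * C₄ + C₅ + K₀ * C₆, fun g hg hgL hg1 hg2 => ?_⟩
  set y := nfLam g⁻¹ (1, 0) with hy
  set z := nfMu g⁻¹ (-(1 / 4), 0) with hz
  have hgy : nfLam g y = (1, 0) := hg.toNfIso.lam_inv _
  have hgz : nfMu g z = (-(1 / 4), 0) := hg.toNfIso.mu_inv _
  have hn1 : ‖((1 : ℝ), (0 : ℝ))‖ = 1 := by simp [Prod.norm_def]
  have hn2 : ‖((-(1 / 4) : ℝ), (0 : ℝ))‖ ≤ 1 := by
    simp [Prod.norm_def]
    norm_num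
  have hyn : ‖y‖ ≤ 1 := (hg1 (1, 0)).trans_eq hn1
  have e1 : g⁻¹ (nfX S q c) = pt S q c y + (0, 0, z) := by
    rw [nfX, map_add, hg.inv.g, hg.inv.toNfIso.pp]
  have e2 : ν (pt S q c y) = pt S q c (nfLam ν y) + nfJ S q (nfR S q (ν (pt S q c y))) +
      (0, 0, nfZ S q c (ν (pt S q c y))) := by
    have h7 := nf_decomp S q c (ν (pt S q c y))
    have h8 : (ν (pt S q c y)).1 = nfLam ν y := hν.fst _
    rw [h8] at h7
    exact h7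
  have e3 : (g * ν * g⁻¹) (nfX S q c) = pt S q c (nfLam g (nfLam ν y)) +
      nfJ S q (nfRho g (nfR S q (ν (pt S q c y)))) +
      (0, 0, nfMu g (nfZ S q c (ν (pt S q c y)))) + (0, 0, nfMu g (nfMu ν z)) := by
    rw [LinearEquiv.mul_apply, LinearEquiv.mul_apply, e1, map_add, hν.pp, map_add]
    nth_rewrite 1 [e2]
    rw [map_add, map_add, hg.g, hg.j, hg.toNfIso.pp, hg.toNfIso.pp]
  have hpos : ∀ {v : ℝ × ℝ}, v ≠ 0 → 0 < ‖v‖ := fun hv => norm_pos_iff.2 hv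
  have hy0 : y ≠ 0 := by
    intro h0
    rw [h0, map_zero] at hgy
    have := congrArg Prod.fst hgy
    simp at this
  have hz0 : z ≠ 0 := by
    intro h0
    rw [h0, map_zero] at hgz
    have := congrArg Prod.fst hgz
    simp at this
  have b1 : ‖nfLam g (nfLam ν y)‖ ≤ K₀ * C₃ := by
    have h7 := nf_dist hQ ha hb hab hg.toNfIso hgL (nfLam ν y) y
    rw [hgy, hn1, one_mul] at h7
    have h8 := h3 y
    refine le_of_mul_le_mul_right (h7.trans ?_) (hpos hy0)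
    calc K₀ * ‖nfLam ν y‖ ≤ K₀ * (C₃ * ‖y‖) := mul_le_mul_of_nonneg_left h8 hK₀'
      _ = K₀ * C₃ * ‖y‖ := by ring
  have b2 : ‖nfRho g (nfR S q (ν (pt S q c y)))‖ ≤ C₄ := by
    rw [hg.toNfIso.norm_rho]
    refine (h4 y).trans ?_
    nlinarith
  have b3 : ‖nfMu g (nfZ S q c (ν (pt S q c y)))‖ ≤ C₅ := by
    refine (hg2 _).trans ((h5 y).trans ?_)
    nlinarith
  have b4 : ‖nfMu g (nfMu ν z)‖ ≤ K₀ * C₆ := by
    have h7 := nf_mu_dist hQ hS ha hb hab hg.toNfIso hgL (nfMu ν z) z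
    rw [hgz] at h7
    have h8 := h6 z
    refine le_of_mul_le_mul_right (h7.trans ?_) (hpos hz0)
    calc K₀ * (‖((-(1 / 4) : ℝ), (0 : ℝ))‖ * ‖nfMu ν z‖) ≤ K₀ * (1 * (C₆ * ‖z‖)) := by
          gcongr
      _ = K₀ * C₆ * ‖z‖ := by ring
  have hpp : ∀ w : ℝ × ℝ, ‖((0, 0, w) : W Q)‖ = ‖w‖ := by
    intro w
    simp [Prod.norm_def]
  rw [e3]
  refine (norm_add_le _ _).trans ?_
  rw [hpp]
  refine add_le_add ((norm_add_le _ _).trans ?_) b4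
  rw [hpp]
  refine add_le_add ((norm_add_le _ _).trans ?_) b3
  refine add_le_add ((h1 _).trans (mul_le_mul_of_nonneg_left b1 hC₁))
    ((h2 _).trans (mul_le_mul_of_nonneg_left b2 hC₂))

theorem nf_coord_le (v : ℝ × ℝ) : |v.1| ≤ ‖v‖ ∧ |v.2| ≤ ‖v‖ := by
  rw [Prod.norm_def]
  exact ⟨le_max_left _ _, le_max_right _ _⟩

theorem nf_norm_le {v : ℝ × ℝ} {C : ℝ} (h1 : |v.1| ≤ C) (h2 : |v.2| ≤ C) : ‖v‖ ≤ C := by
  rw [Prod.norm_def]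
  exact max_le h1 h2

theorem nf_pair_le (y z : ℝ × ℝ) : |y.1 * z.1 + y.2 * z.2| ≤ 2 * (‖y‖ * ‖z‖) := by
  have h1 := nf_coord_le y
  have h2 := nf_coord_le z
  calc |y.1 * z.1 + y.2 * z.2| ≤ |y.1 * z.1| + |y.2 * z.2| := abs_add_le _ _
    _ = |y.1| * |z.1| + |y.2| * |z.2| := by rw [abs_mul, abs_mul]
    _ ≤ ‖y‖ * ‖z‖ + ‖y‖ * ‖z‖ := by
      gcongr
      · exact h1.1
      · exact h2.1
      · exact h1.2
      · exact h2.2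
    _ = 2 * (‖y‖ * ‖z‖) := by ring

/-- an expanding element has a fixed photon besides the one at infinity -/
theorem nf_fixed [FiniteDimensional ℝ Q] {S : Q →ₗ[ℝ] Q}
    (hS : ∀ q : Q, q ≠ 0 → ∀ c : ℝ, S q ≠ c • q) {a b : ℝ} (ha : 0 < a) (hb : 0 < b)
    (hab : ∀ (q : Q) (y : ℝ × ℝ),
      a * (‖q‖ * ‖y‖) ≤ ‖NN S q y‖ ∧ ‖NN S q y‖ ≤ b * (‖q‖ * ‖y‖))
    {γ : W Q ≃ₗ[ℝ] W Q} (h : NfIso γ)
    (hL : ∀ P ∈ LamC S, P.map (γ : W Q →ₗ[ℝ] W Q) ∈ LamC S) {M : ℝ} (hM : 2 ≤ M)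
    (hMb : 2 * b ≤ M * a) (hexp : ∀ y, M * ‖y‖ ≤ ‖nfLam γ y‖) :
    ∃ q c, NfGood S q c γ := by
  obtain ⟨q₀, h0⟩ := nf_tau h hL
  set e : ℝ × ℝ := (1, 0) with he
  have hn1 : ‖e‖ = 1 := by simp [he, Prod.norm_def]
  have hle : nfLam γ e ≠ 0 := by
    intro h1
    have h2 := hexp e
    rw [h1, norm_zero, hn1] at h2
    linarith
  set E := LinearEquiv.ofInjectiveEndo (NL S (nfLam γ e)) (NL_injective hS hle) with hE
  have hEa : ∀ q, E q = NN S q (nfLam γ e) := fun q => rfl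
  set τ : Q →ₗ[ℝ] Q := (E.symm : Q →ₗ[ℝ] Q).comp (nfRho γ) with hτ
  have hτa : ∀ q, NN S (τ q) (nfLam γ e) = nfRho γ q := by
    intro q
    rw [← hEa]
    exact E.apply_symm_apply _
  have huniq : ∀ t q, (∀ y, NN S t (nfLam γ y) = nfRho γ (NN S q y)) → t = τ q := by
    intro t q ht
    have h1 := ht e
    have h2 : NN S q e = q := by simp [NN, he]
    rw [h2, ← hτa q] at h1
    exact NL_injective hS hle h1
  have hcontr : ∀ q, ‖τ q‖ ≤ ‖q‖ / 2 := by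
    intro q
    have h1 := (hab (τ q) (nfLam γ e)).1
    rw [hτa, h.norm_rho] at h1
    have h2 := hexp e
    rw [hn1, mul_one] at h2
    have h3 : a * (‖τ q‖ * M) ≤ ‖q‖ := by
      refine le_trans ?_ h1
      gcongr
    have h4 := (hab q e).2
    have h5 : NN S q e = q := by simp [NN, he]
    rw [h5, hn1, mul_one] at h4
    have h6 : 2 * b * ‖τ q‖ ≤ ‖q‖ := by
      calc 2 * b * ‖τ q‖ ≤ M * a * ‖τ q‖ := by gcongr
        _ = a * (‖τ q‖ * M) := by ring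
        _ ≤ ‖q‖ := h3
    have h7 : b * (2 * ‖τ q‖) ≤ b * ‖q‖ := by linarith
    have h8 := le_of_mul_le_mul_left h7 hb
    linarith
  have hinj : Function.Injective (LinearMap.id - τ : Q →ₗ[ℝ] Q) := by
    rw [injective_iff_map_eq_zero]
    intro q hq
    rw [LinearMap.sub_apply, LinearMap.id_apply, sub_eq_zero] at hq
    have h1 := hcontr q
    rw [← hq] at h1
    have h2 := norm_nonneg q
    exact norm_eq_zero.1 (by linarith)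
  have hsurj : Function.Surjective (LinearMap.id - τ : Q →ₗ[ℝ] Q) := LinearMap.surjective_of_injective hinj
  obtain ⟨q, hq⟩ := hsurj q₀
  rw [LinearMap.sub_apply, LinearMap.id_apply] at hq
  have hq' : q₀ + τ q = q := by rw [← hq, sub_add_cancel]
  obtain ⟨t, c₀, h1, h2⟩ := h0 q 0
  rw [huniq t q h2, hq'] at h1
  obtain ⟨κ, hκ⟩ := nf_kappa hS h hL
  have hκ1 : κ ≠ 1 := by
    have hsl : Function.Surjective (nfLam γ) := by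
      apply LinearMap.surjective_of_injective
      rw [injective_iff_map_eq_zero]
      exact fun y hy => h.lam_inj hy
    obtain ⟨y, hy⟩ := hsl (1, 0)
    obtain ⟨y', hy'⟩ := hsl (0, 1)
    have h3 := h.pair y' (nfRot y)
    rw [hκ, hy, hy'] at h3
    have h4 := hexp y
    have h5 := hexp y'
    rw [hy] at h4
    rw [hy'] at h5
    have hn1 : ‖((1 : ℝ), (0 : ℝ))‖ = 1 := by simp [Prod.norm_def]
    have hn2 : ‖((0 : ℝ), (1 : ℝ))‖ = 1 := by simp [Prod.norm_def]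
    rw [hn1] at h4
    rw [hn2] at h5
    have h6 := nf_pair_le y' (nfRot y)
    rw [← h3, nfRot_norm] at h6
    intro hk
    rw [hk] at h6
    simp [nfRot] at h6
    have h7 := norm_nonneg y
    have h8 := norm_nonneg y'
    have h9 : ‖y‖ ≤ 1 / 2 := by nlinarith
    have h10 : ‖y'‖ ≤ 1 / 2 := by nlinarith
    nlinarith
  set c := c₀ / (1 - κ) with hc
  have hc' : c₀ + κ * c = c := by
    have : 1 - κ ≠ 0 := sub_ne_zero.2 (Ne.symm hκ1)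
    rw [hc]
    field_simp
    ring
  refine ⟨q, c, ⟨h, fun y => ?_⟩⟩
  have h3 := nf_pt_add S q 0 c y
  rw [zero_add] at h3
  have h4 := nf_pt_add S q c₀ (κ * c) (nfLam γ y)
  rw [hc'] at h4
  rw [h3, map_add, h1, map_smul, h.pp, hκ, h4]
  congr 1
  refine Prod.ext (by simp) (Prod.ext (by simp) ?_)
  simp only [Prod.smul_snd, smul_smul]
  rw [mul_comm κ c]

theorem not_all_fix {Q : Type*} [NormedAddCommGroup Q] [InnerProductSpace ℝ Q]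
    [FiniteDimensional ℝ Q] (S : Q →ₗ[ℝ] Q) (hQ : ∃ q : Q, q ≠ 0)
    (hS : ∀ q : Q, q ≠ 0 → ∀ c : ℝ, S q ≠ c • q)
    (Γ : Subgroup (W Q ≃ₗ[ℝ] W Q)) (hb : ∀ γ ∈ Γ, ∀ x y, bW (γ x) (γ y) = bW x y)
    (hL : ∀ γ ∈ Γ, ∀ P ∈ LamC S, P.map (γ : W Q →ₗ[ℝ] W Q) ∈ LamC S)
    (hp : ∀ K : Set (W Q), IsCompact K → K ⊆ {x | bW x x = -1} →
      {γ : W Q ≃ₗ[ℝ] W Q | γ ∈ Γ ∧ ∃ x ∈ K, γ x ∈ K}.Finite)
    (hc : ∃ K : Set (W Q), IsCompact K ∧ K ⊆ {x | bW x x = -1} ∧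
      ∀ x, bW x x = -1 → ∃ γ ∈ Γ, γ x ∈ K) :
    ∃ γ ∈ Γ, (Pp Q).map (γ : W Q →ₗ[ℝ] W Q) ≠ Pp Q := by
  by_contra hcon
  push Not at hcon
  have hmap : ∀ γ ∈ Γ, ∀ x ∈ Pp Q, γ x ∈ Pp Q := by
    intro γ hγ x hx
    have h1 : γ x ∈ (Pp Q).map (γ : W Q →ₗ[ℝ] W Q) := ⟨x, hx, rfl⟩
    rwa [hcon γ hγ] at h1
  have hiso : ∀ γ ∈ Γ, NfIso γ := fun γ hγ =>
    ⟨hb γ hγ, hmap γ hγ, hmap _ (Γ.inv_mem hγ)⟩
  obtain ⟨a, b, ha, hb', hab⟩ := nf_bounds hQ hS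
  set K₀ : ℝ := (b / a) ^ 2 with hK₀
  have hK₀' : 0 < K₀ := by positivity
  obtain ⟨K, hK, hKsub, hKc⟩ := hc
  have hcontR1 : Continuous fun x : W Q => ‖x.1‖ := by fun_prop
  -- the base point and the size of the first component on `K`
  have hx0 : ∀ s : ℝ, s ≠ 0 → bW (((s, 0), 0, (-(1 / (4 * s)), 0)) : W Q)
      ((s, 0), 0, (-(1 / (4 * s)), 0)) = -1 := by
    intro s hs
    simp [bW]
    field_simp
    ring
  have hKne : K.Nonempty := by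
    obtain ⟨γ, -, h1⟩ := hKc _ (hx0 1 one_ne_zero)
    exact ⟨_, h1⟩
  obtain ⟨k₀, hk₀, hmin⟩ := hK.exists_isMinOn hKne hcontR1.continuousOn
  have hck : 0 < ‖k₀.1‖ := by
    rw [norm_pos_iff]
    intro h1
    have h2 : bW k₀ k₀ = -1 := hKsub hk₀
    simp [bW, h1] at h2
    nlinarith [sq_nonneg ‖k₀.2.1‖]
  set M : ℝ := max 2 (2 * b / a) with hM
  have hM2 : 2 ≤ M := le_max_left _ _
  have hMb : 2 * b ≤ M * a := by
    have h1 : 2 * b / a ≤ M := le_max_right _ _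
    exact (div_le_iff₀ ha).1 h1
  have hM0 : 0 < M := by linarith
  -- an expanding element
  obtain ⟨γ₀, hγ₀, hexp⟩ : ∃ γ ∈ Γ, ∀ y, M * ‖y‖ ≤ ‖nfLam γ y‖ := by
    set s := ‖k₀.1‖ / (M * K₀) with hs
    have hs0 : 0 < s := by positivity
    obtain ⟨γ, hγ, h1⟩ := hKc _ (hx0 s hs0.ne')
    refine ⟨γ, hγ, fun y => ?_⟩
    have h2 := hmin h1
    simp only [Set.mem_ofPred_eq] at h2
    rw [(hiso γ hγ).fst] at h2
    have h3 : (((s, 0), 0, (-(1 / (4 * s)), 0)) : W Q).1 = s • ((1 : ℝ), (0 : ℝ)) := by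
      simp
    rw [h3, map_smul, norm_smul, Real.norm_eq_abs, abs_of_pos hs0] at h2
    have h4 : M * K₀ ≤ ‖nfLam γ (1, 0)‖ := by
      have h5 : s * (M * K₀) = ‖k₀.1‖ := by
        rw [hs]
        field_simp
      have h6 : s * (M * K₀) ≤ s * ‖nfLam γ (1, 0)‖ := by rw [h5]; exact h2
      exact le_of_mul_le_mul_left h6 hs0
    have h5 := nf_dist hQ ha hb' hab (hiso γ hγ) (hL γ hγ) (1, 0) y
    have hn1 : ‖((1 : ℝ), (0 : ℝ))‖ = 1 := by simp [Prod.norm_def]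
    rw [hn1, mul_one, ← hK₀] at h5
    have h6 : K₀ * (M * ‖y‖) ≤ K₀ * ‖nfLam γ y‖ := by
      refine le_trans ?_ h5
      calc K₀ * (M * ‖y‖) = M * K₀ * ‖y‖ := by ring
        _ ≤ ‖nfLam γ (1, 0)‖ * ‖y‖ := by gcongr
    exact le_of_mul_le_mul_left h6 hK₀'
  obtain ⟨q, c, hgood⟩ := nf_fixed hS ha hb' hab (hiso γ₀ hγ₀) (hL γ₀ hγ₀) hM2 hMb hexp
  have hLpow : ∀ n : ℕ, γ₀ ^ n ∈ Γ := fun n => Γ.pow_mem hγ₀ n
  -- powers of `γ₀`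
  have hl1 : ∀ y, ‖nfLam γ₀⁻¹ y‖ ≤ 1 / 2 * ‖y‖ := by
    intro y
    have h1 := hexp (nfLam γ₀⁻¹ y)
    rw [(hiso γ₀ hγ₀).lam_inv] at h1
    have h2 := norm_nonneg (nfLam γ₀⁻¹ y)
    nlinarith
  have hl : ∀ (n : ℕ) (y : ℝ × ℝ), ‖nfLam (γ₀ ^ n)⁻¹ y‖ ≤ (1 / 2) ^ n * ‖y‖ := by
    intro n
    induction n with
    | zero =>
      intro y
      rw [pow_zero, inv_one, nfLam_one]
      simp
    | succ n ih =>
      intro y
      rw [pow_succ, mul_inv_rev, (hiso _ (Γ.inv_mem hγ₀)).lam_mul]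
      refine (hl1 _).trans ?_
      have h1 := ih y
      rw [pow_succ]
      nlinarith
  have hmu1 : ∀ z, ‖nfMu γ₀ z‖ ≤ ‖z‖ := by
    intro z
    have hsl : Function.Surjective (nfLam γ₀) := fun v => ⟨_, (hiso γ₀ hγ₀).lam_inv v⟩
    have key : ∀ v : ℝ × ℝ, ‖v‖ = 1 → |v.1 * (nfMu γ₀ z).1 + v.2 * (nfMu γ₀ z).2| ≤ ‖z‖ := by
      intro v hv
      obtain ⟨y, rfl⟩ := hsl v
      rw [(hiso γ₀ hγ₀).pair]
      have h1 := hexp y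
      rw [hv] at h1
      have h2 := norm_nonneg y
      have h3 : ‖y‖ ≤ 1 / 2 := by nlinarith
      have h4 := nf_pair_le y z
      have h5 := norm_nonneg z
      nlinarith
    apply nf_norm_le
    · have := key (1, 0) (by simp [Prod.norm_def])
      simpa using this
    · have := key (0, 1) (by simp [Prod.norm_def])
      simpa using this
  have hmu : ∀ (n : ℕ) (z : ℝ × ℝ), ‖nfMu (γ₀ ^ n) z‖ ≤ ‖z‖ := by
    intro n
    induction n with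
    | zero =>
      intro z
      rw [pow_zero, nfMu_one]
    | succ n ih =>
      intro z
      rw [pow_succ, (hiso γ₀ hγ₀).mu_mul]
      exact (ih _).trans (hmu1 z)
  -- every element commutes with a power of `γ₀`
  have hX : bW (nfX S q c) (nfX S q c) = -1 := by
    have h1 := bW_decomp S q c (1, 0) (-(1 / 4), 0) 0
    rw [map_zero, add_zero] at h1
    rw [nfX, h1]
    norm_num
  have hcomm : ∀ ν ∈ Γ, ∃ k : ℕ, 0 < k ∧ γ₀ ^ k * ν = ν * γ₀ ^ k := by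
    intro ν hν
    obtain ⟨R, hR⟩ := nf_bounded hQ hS ha hb' hab q c ν (hiso ν hν)
    set R' := max R ‖nfX S q c‖ with hR'
    have hcpt : IsCompact ({x : W Q | bW x x = -1} ∩ Metric.closedBall 0 R') := by
      apply IsCompact.inter_left (isCompact_closedBall _ _)
      have h1 : Continuous fun x : W Q => bW x x :=
        continuous_bW.comp (continuous_id.prodMk continuous_id)
      exact isClosed_eq h1 continuous_const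
    have hfin := hp _ hcpt Set.inter_subset_left
    have hmemΓ : ∀ n : ℕ, γ₀ ^ n * ν * (γ₀ ^ n)⁻¹ ∈ Γ := fun n =>
      Γ.mul_mem (Γ.mul_mem (hLpow n) hν) (Γ.inv_mem (hLpow n))
    have hmem : ∀ n : ℕ, γ₀ ^ n * ν * (γ₀ ^ n)⁻¹ ∈ {γ : W Q ≃ₗ[ℝ] W Q | γ ∈ Γ ∧
        ∃ x ∈ {x : W Q | bW x x = -1} ∩ Metric.closedBall 0 R',
          γ x ∈ {x : W Q | bW x x = -1} ∩ Metric.closedBall 0 R'} := by
      intro n
      refine ⟨hmemΓ n, nfX S q c, ⟨hX, ?_⟩, ?_, ?_⟩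
      · rw [mem_closedBall_zero_iff]
        exact le_max_right _ _
      · change bW _ _ = -1
        rw [hb _ (hmemΓ n)]
        exact hX
      · rw [mem_closedBall_zero_iff]
        refine (hR (γ₀ ^ n) (hgood.pow n) (hL _ (hLpow n)) ?_ (hmu n)).trans (le_max_left _ _)
        intro y
        refine (hl n y).trans ?_
        have h1 : ((1 : ℝ) / 2) ^ n ≤ 1 := pow_le_one₀ (by norm_num) (by norm_num)
        have h2 := norm_nonneg y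
        nlinarith
    obtain ⟨n, -, m, -, hne, heq⟩ := Set.infinite_univ.exists_ne_map_eq_of_mapsTo
      (f := fun n : ℕ => γ₀ ^ n * ν * (γ₀ ^ n)⁻¹) (fun n _ => hmem n) hfin
    have key : ∀ n m : ℕ, n < m → γ₀ ^ n * ν * (γ₀ ^ n)⁻¹ = γ₀ ^ m * ν * (γ₀ ^ m)⁻¹ →
        ∃ k : ℕ, 0 < k ∧ γ₀ ^ k * ν = ν * γ₀ ^ k := by
      intro n m hnm h1
      refine ⟨m - n, by omega, ?_⟩
      have h2 : γ₀ ^ m = γ₀ ^ n * γ₀ ^ (m - n) := by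
        rw [← pow_add]
        congr 1
        omega
      rw [h2] at h1
      have h3 : ν = γ₀ ^ (m - n) * ν * (γ₀ ^ (m - n))⁻¹ := by
        have h4 : γ₀ ^ n * ν * (γ₀ ^ n)⁻¹ =
            γ₀ ^ n * (γ₀ ^ (m - n) * ν * (γ₀ ^ (m - n))⁻¹) * (γ₀ ^ n)⁻¹ := by
          rw [h1]
          group
        exact mul_left_cancel (mul_right_cancel h4)
      nth_rewrite 2 [h3]
      group
    rcases lt_or_gt_of_ne hne with h1 | h1
    · exact key n m h1 heq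
    · exact key m n h1 heq.symm
  -- the middle coordinate has invariant norm
  have hrpt : ∀ ν ∈ Γ, ∀ y, nfR S q (ν (pt S q c y)) = 0 := by
    intro ν hν
    obtain ⟨k, hk, hkc⟩ := hcomm ν hν
    set α : (ℝ × ℝ) →ₗ[ℝ] Q := (nfR S q).comp ((ν : W Q →ₗ[ℝ] W Q).comp (nfPt S q c)) with hα
    have hαa : ∀ y, α y = nfR S q (ν (pt S q c y)) := fun y => rfl
    have hgk := hgood.pow k
    have h1 : ∀ y, ‖α (nfLam (γ₀ ^ k) y)‖ = ‖α y‖ := by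
      intro y
      have h2 : ν (γ₀ ^ k • pt S q c y) = γ₀ ^ k • ν (pt S q c y) := by
        have := congrArg (fun f : W Q ≃ₗ[ℝ] W Q => f (pt S q c y)) hkc
        exact this.symm
      have h3 : (γ₀ ^ k) (pt S q c y) = pt S q c (nfLam (γ₀ ^ k) y) := hgk.g y
      have h4 : nfR S q (ν (pt S q c (nfLam (γ₀ ^ k) y))) =
          nfR S q ((γ₀ ^ k) (ν (pt S q c y))) := by
        rw [← h3]
        exact congrArg _ h2
      rw [hαa, h4]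
      have h5 := nf_decomp S q c (ν (pt S q c y))
      nth_rewrite 1 [h5]
      simp only [map_add]
      rw [hgk.g, hgk.j, hgk.toNfIso.pp, nfR_pt,
        nfR_fst (x := nfJ S q _) rfl, nfR_fst (x := (0, 0, _)) rfl, zero_add, add_zero]
      change ‖nfRho (γ₀ ^ k) (nfR S q (ν (pt S q c y)))‖ = _
      rw [hgk.toNfIso.norm_rho, hαa]
    have h2 : ∀ y, ‖α y‖ = ‖α (nfLam (γ₀ ^ k)⁻¹ y)‖ := by
      intro y
      rw [← h1 (nfLam (γ₀ ^ k)⁻¹ y), hgk.toNfIso.lam_inv]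
    have h3 : ‖α.toContinuousLinearMap‖ ≤ ‖α.toContinuousLinearMap‖ / 2 := by
      refine ContinuousLinearMap.opNorm_le_bound _ (by positivity) fun y => ?_
      change ‖α y‖ ≤ _
      rw [h2]
      refine (α.toContinuousLinearMap.le_opNorm _).trans ?_
      have h4 := hl k y
      have h5 : ((1 : ℝ) / 2) ^ k ≤ 1 / 2 := by
        calc ((1 : ℝ) / 2) ^ k ≤ (1 / 2) ^ 1 :=
              pow_le_pow_of_le_one (by norm_num) (by norm_num) hk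
          _ = 1 / 2 := pow_one _
      have h6 := norm_nonneg y
      calc ‖α.toContinuousLinearMap‖ * ‖nfLam (γ₀ ^ k)⁻¹ y‖ ≤
          ‖α.toContinuousLinearMap‖ * (1 / 2 * ‖y‖) := by
            refine mul_le_mul_of_nonneg_left (h4.trans ?_) (norm_nonneg _)
            exact mul_le_mul_of_nonneg_right h5 h6
        _ = ‖α.toContinuousLinearMap‖ / 2 * ‖y‖ := by ring
    have h4 : ‖α.toContinuousLinearMap‖ = 0 := by
      have := norm_nonneg α.toContinuousLinearMap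
      linarith
    intro y
    have h5 := α.toContinuousLinearMap.le_opNorm y
    rw [h4, zero_mul] at h5
    exact norm_eq_zero.1 (le_antisymm h5 (norm_nonneg _))
  have hinv : ∀ ν ∈ Γ, ∀ x, ‖nfR S q (ν x)‖ = ‖nfR S q x‖ := by
    intro ν hν x
    have h1 := nf_decomp S q c x
    conv_lhs => rw [h1]
    rw [map_add, map_add, map_add, map_add, hrpt ν hν, (hiso ν hν).pp,
      nfR_fst (x := (0, 0, _)) rfl, zero_add, add_zero,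
      nfR_fst ((hiso ν hν).fst0 (x := nfJ S q (nfR S q x)) rfl),
      (hiso ν hν).norm_mid (x := nfJ S q (nfR S q x)) rfl]
    rfl
  -- contradiction
  obtain ⟨R, hR⟩ := hK.exists_bound_of_continuousOn
    ((nfR S q).continuous_of_finiteDimensional.continuousOn (s := K))
  obtain ⟨q₁, hq₁⟩ := hQ
  have hq₁' : 0 < ‖q₁‖ := norm_pos_iff.2 hq₁
  set u : Q := ((|R| + 1) / ‖q₁‖) • q₁ with hu
  have hun : ‖u‖ = |R| + 1 := by
    rw [hu, norm_smul, Real.norm_eq_abs, abs_of_pos (by positivity)]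
    field_simp
  set x : W Q := pt S q c (1, 0) + nfJ S q u + (0, 0, (-((1 + ‖u‖ ^ 2) / 4), 0)) with hx
  have hbx : bW x x = -1 := by
    rw [hx, bW_decomp]
    ring
  obtain ⟨ν, hν, hνK⟩ := hKc x hbx
  have h1 := hR _ hνK
  rw [hinv ν hν] at h1
  have h2 : nfR S q x = u := by
    rw [hx, map_add, map_add, nfR_pt, nfR_fst (x := nfJ S q _) rfl,
      nfR_fst (x := (0, 0, _)) rfl, zero_add, add_zero]
    rfl
  rw [h2, hun] at h1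
  have := le_abs_self R
  linarith

end NotFix

end Pool.Agent.H2.AdS
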