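import Pool.Agent.H2.AdS.Bu
import Pool.Agent.H2.AdS.NotFix
import Pool.Agent.H2.AdS.Alg
import Pool.Agent.H2.AdS.Limit

/-!
# Rigidity of photon foliations which are differentiable at one point
-/

set_option autoImplicit false

open scoped RealInnerProductSpace
open Filter Topology

namespace Pool.Agent.H2.AdS

variable {E : Type*} [NormedAddCommGroup E] [InnerProductSpace ℝ E] [FiniteDimensional ℝ E]

theorem exists_QQ_ne_zero (hE : 3 ≤ Module.finrank ℝ E) (v₀ w₀ : E) :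
    ∃ q : QQ v₀ w₀, q ≠ 0 := by
  classical
  by_contra hcon
  push Not at hcon
  have h1 : QQ v₀ w₀ = ⊥ := by
    rw [Submodule.eq_bot_iff]
    intro x hx
    have := hcon ⟨x, hx⟩
    exact congrArg Subtype.val this
  have h2 : Submodule.span ℝ {v₀, w₀} = ⊤ := by
    have := Submodule.orthogonal_orthogonal (Submodule.span ℝ ({v₀, w₀} : Set E))
    rw [show (Submodule.span ℝ ({v₀, w₀} : Set E))ᗮ = ⊥ from h1, Submodule.bot_orthogonal_eq_top]
      at this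
    exact this.symm
  have h3 : Module.finrank ℝ (Submodule.span ℝ ({v₀, w₀} : Set E)) ≤ 2 := by
    have h4 := finrank_span_finset_le_card (R := ℝ) ({v₀, w₀} : Finset E)
    have h5 : ((({v₀, w₀} : Finset E)) : Set E) = {v₀, w₀} := by simp
    rw [Set.finrank, h5] at h4
    exact h4.trans Finset.card_le_two
  rw [h2, finrank_top] at h3
  omega

/-- conjugation by a linear equivalence -/
def conjHom {V₁ V₂ : Type*} [AddCommGroup V₁] [Module ℝ V₁] [AddCommGroup V₂] [Module ℝ V₂]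
    (H : V₁ ≃ₗ[ℝ] V₂) : (V₁ ≃ₗ[ℝ] V₁) →* (V₂ ≃ₗ[ℝ] V₂) where
  toFun δ := H.symm.trans (δ.trans H)
  map_one' := by ext x; simp
  map_mul' δ δ' := by ext x; simp

theorem conjHom_apply {V₁ V₂ : Type*} [AddCommGroup V₁] [Module ℝ V₁] [AddCommGroup V₂]
    [Module ℝ V₂] (H : V₁ ≃ₗ[ℝ] V₂) (δ : V₁ ≃ₗ[ℝ] V₁) (x : V₂) :
    conjHom H δ x = H (δ (H.symm x)) := rfl

/-- **The rigidity theorem.** -/
theorem rigidity (hE : 3 ≤ Module.finrank ℝ E)
    (Γ : Subgroup (V E ≃ₗ[ℝ] V E)) (hΓ : ∀ γ ∈ Γ, ∀ x y, form (γ x) (γ y) = form x y)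
    (hp : ∀ K : Set (V E), IsCompact K → K ⊆ {x | form x x = -1} →
      {γ : V E ≃ₗ[ℝ] V E | γ ∈ Γ ∧ ∃ x ∈ K, γ x ∈ K}.Finite)
    (hc : ∃ K : Set (V E), IsCompact K ∧ K ⊆ {x | form x x = -1} ∧
      ∀ x, form x x = -1 → ∃ γ ∈ Γ, γ x ∈ K)
    {f : E → E} (hf : PhotonFoliation f)
    (hinv : ∀ γ ∈ Γ, ∀ v : E, ‖v‖ = 1 → ∃ w : E, ‖w‖ = 1 ∧
      (phot f v).map (γ : V E →ₗ[ℝ] V E) = phot f w)
    {v₀ : E} (hv₀ : ‖v₀‖ = 1) {L : E →ₗ[ℝ] E} (hL : WeakDiffAt f v₀ L)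
    (hne : ∀ h : E, h ≠ 0 → ⟪v₀, h⟫ = 0 → ⟪f v₀, h⟫ = 0 → ∀ c : ℝ, L h ≠ c • h) :
    ∃ J : V E →ₗ[ℝ] V E, (∀ x, J (J x) = -x) ∧ (∀ x y, form (J x) (J y) = form x y) ∧
      (∀ v : E, ‖v‖ = 1 → ∀ x ∈ phot f v, J x ∈ phot f v) ∧
      ∀ γ ∈ Γ, (∀ x, γ (J x) = J (γ x)) ∨ (∀ x, γ (J x) = -J (γ x)) := by
  set h := opair hf hv₀ with hh
  have hS : ∀ q : QQ v₀ (f v₀), q ≠ 0 → ∀ c : ℝ, SL h L q ≠ c • q := by
    intro q hq c hqc
    obtain ⟨h1, h2⟩ := mem_QQ.mp q.2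
    have h3 : L (q : E) ∈ QQ v₀ (f v₀) := L_mem_QQ hf hv₀ hL q q.2
    have h4 : SL h L q = ⟨L (q : E), h3⟩ := by
      rw [SL_apply]
      exact prQ_of_mem h ⟨L (q : E), h3⟩
    rw [h4] at hqc
    exact hne q (fun h0 => hq (Subtype.ext h0)) h1 h2 c (congrArg Subtype.val hqc)
  set S := SL h L with hSdef
  -- an ultrafilter
  obtain ⟨𝒰, h𝒰⟩ := Ultrafilter.exists_le (atTop : Filter ℕ)
  have hΓΛ : ∀ γ ∈ Γ, ∀ P ∈ LamF f, P.map (γ : V E →ₗ[ℝ] V E) ∈ LamF f := by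
    rintro γ hγ P ⟨v, hv, rfl⟩
    obtain ⟨w, hw, hw2⟩ := hinv γ hγ v hv
    exact ⟨w, hw, hw2⟩
  obtain ⟨g, hg, hgΛ⟩ := limit_foliation hE (isFol_LamF hf) (isFol_LamW h hS) (AA h)
    (form_AA h) 𝒰 (bu_main hf hv₀ hL hS 𝒰 h𝒰) Γ hΓ hΓΛ hc
  -- the normalizing map
  set H : W (QQ v₀ (f v₀)) ≃ₗ[ℝ] V E := (Theta h).trans g with hH
  have hHform : ∀ x y, form (H x) (H y) = bW x y := by
    intro x y
    rw [hH, LinearEquiv.trans_apply, LinearEquiv.trans_apply, hg, form_Theta]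
  have hHΛ : ∀ P : Submodule ℝ (V E), P ∈ LamF f ↔
      ∃ P' ∈ LamC S, P = P'.map (H : W (QQ v₀ (f v₀)) →ₗ[ℝ] V E) := by
    intro P
    rw [hgΛ]
    constructor
    · rintro ⟨P₁, ⟨P₂, hP₂, rfl⟩, rfl⟩
      refine ⟨P₂, hP₂, ?_⟩
      rw [← Submodule.map_comp]
      rfl
    · rintro ⟨P₂, hP₂, rfl⟩
      refine ⟨_, ⟨P₂, hP₂, rfl⟩, ?_⟩
      rw [← Submodule.map_comp]
      rfl
  have hHsymm : ∀ x y, bW (H.symm x) (H.symm y) = form x y := by
    intro x y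
    rw [← hHform, LinearEquiv.apply_symm_apply, LinearEquiv.apply_symm_apply]
  have hHc : Continuous H := H.toLinearMap.continuous_of_finiteDimensional
  have hHsc : Continuous H.symm := H.symm.toLinearMap.continuous_of_finiteDimensional
  -- the conjugated group
  set Γ' : Subgroup (W (QQ v₀ (f v₀)) ≃ₗ[ℝ] W (QQ v₀ (f v₀))) := Γ.comap (conjHom H) with hΓ'
  have hb' : ∀ δ ∈ Γ', ∀ x y, bW (δ x) (δ y) = bW x y := by
    intro δ hδ x y
    have h1 := hΓ _ (Subgroup.mem_comap.mp hδ) (H x) (H y)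
    rw [conjHom_apply, conjHom_apply, LinearEquiv.symm_apply_apply, LinearEquiv.symm_apply_apply,
      hHform, hHform] at h1
    exact h1
  have hinvL : ∀ δ : W (QQ v₀ (f v₀)) ≃ₗ[ℝ] W (QQ v₀ (f v₀)), conjHom H δ ∈ Γ →
      ∀ P ∈ LamC S, P.map (δ : W (QQ v₀ (f v₀)) →ₗ[ℝ] W (QQ v₀ (f v₀))) ∈ LamC S := by
    intro δ hδ P hP
    have h1 : P.map (H : W (QQ v₀ (f v₀)) →ₗ[ℝ] V E) ∈ LamF f := (hHΛ _).mpr ⟨P, hP, rfl⟩
    have h2 := hΓΛ _ hδ _ h1
    obtain ⟨P', hP', hPe⟩ := (hHΛ _).mp h2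
    have h3 : P.map (δ : W (QQ v₀ (f v₀)) →ₗ[ℝ] W (QQ v₀ (f v₀))) = P' := by
      ext x
      constructor
      · intro hx
        obtain ⟨y, hy, rfl⟩ := Submodule.mem_map.mp hx
        have h4 : H (δ y) ∈ P'.map (H : W (QQ v₀ (f v₀)) →ₗ[ℝ] V E) := by
          rw [← hPe]
          refine Submodule.mem_map.mpr ⟨H y, Submodule.mem_map_of_mem hy, ?_⟩
          change conjHom H δ (H y) = _
          rw [conjHom_apply, LinearEquiv.symm_apply_apply]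
        obtain ⟨z, hz, hz2⟩ := Submodule.mem_map.mp h4
        have h5 : z = δ y := H.injective hz2
        rw [h5] at hz
        exact hz
      · intro hx
        have h4 : H x ∈ (P.map (H : W (QQ v₀ (f v₀)) →ₗ[ℝ] V E)).map
            (conjHom H δ : V E →ₗ[ℝ] V E) := by
          rw [hPe]; exact Submodule.mem_map_of_mem hx
        obtain ⟨z, hz, hz2⟩ := Submodule.mem_map.mp h4
        obtain ⟨y, hy, rfl⟩ := Submodule.mem_map.mp hz
        refine Submodule.mem_map.mpr ⟨y, hy, ?_⟩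
        apply H.injective
        have h5 : conjHom H δ (H y) = H x := hz2
        rw [conjHom_apply, LinearEquiv.symm_apply_apply] at h5
        exact h5
    rw [h3]; exact hP'
  have hL' : ∀ δ ∈ Γ', ∀ P ∈ LamC S,
      P.map (δ : W (QQ v₀ (f v₀)) →ₗ[ℝ] W (QQ v₀ (f v₀))) ∈ LamC S :=
    fun δ hδ => hinvL δ (Subgroup.mem_comap.mp hδ)
  have hp' : ∀ K : Set (W (QQ v₀ (f v₀))), IsCompact K → K ⊆ {x | bW x x = -1} →
      {δ : W (QQ v₀ (f v₀)) ≃ₗ[ℝ] W (QQ v₀ (f v₀)) | δ ∈ Γ' ∧ ∃ x ∈ K, δ x ∈ K}.Finite := by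
    intro K hK hK1
    have h1 := hp (H '' K) (hK.image hHc) (by
      rintro _ ⟨x, hx, rfl⟩
      change form (H x) (H x) = -1
      rw [hHform]; exact hK1 hx)
    have hinj : Function.Injective (conjHom H) := by
      intro δ δ' hδ
      ext1 x
      have h2 : conjHom H δ (H x) = conjHom H δ' (H x) := by rw [hδ]
      rw [conjHom_apply, conjHom_apply, LinearEquiv.symm_apply_apply] at h2
      exact H.injective h2
    refine (h1.preimage hinj.injOn).subset ?_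
    rintro δ ⟨hδ, x, hx, hδx⟩
    refine ⟨Subgroup.mem_comap.mp hδ, H x, ⟨x, hx, rfl⟩, δ x, hδx, ?_⟩
    rw [conjHom_apply, LinearEquiv.symm_apply_apply]
  have hc' : ∃ K : Set (W (QQ v₀ (f v₀))), IsCompact K ∧ K ⊆ {x | bW x x = -1} ∧
      ∀ x, bW x x = -1 → ∃ δ ∈ Γ', δ x ∈ K := by
    obtain ⟨K, hK, hK1, hK2⟩ := hc
    refine ⟨H.symm '' K, hK.image hHsc, ?_, ?_⟩
    · rintro _ ⟨x, hx, rfl⟩
      change bW (H.symm x) (H.symm x) = -1
      rw [hHsymm]; exact hK1 hx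
    · intro x hx
      obtain ⟨γ, hγ, hγx⟩ := hK2 (H x) (by rw [hHform]; exact hx)
      refine ⟨conjHom H.symm γ, ?_, ?_⟩
      · rw [hΓ', Subgroup.mem_comap]
        have : conjHom H (conjHom H.symm γ) = γ := by
          ext1 y
          rw [conjHom_apply, conjHom_apply, LinearEquiv.symm_symm, LinearEquiv.apply_symm_apply,
            LinearEquiv.apply_symm_apply]
        rw [this]; exact hγ
      · exact ⟨γ (H x), hγx, rfl⟩
  have hQ := exists_QQ_ne_zero hE v₀ (f v₀)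
  obtain ⟨s, hsΓ, hsne⟩ := not_all_fix S hQ hS Γ' hb' hL' hp' hc'
  obtain ⟨J, hJ1, hJ2, hJ3, hJ4⟩ := exists_J S hQ hS s (hb' s hsΓ) (hL' s hsΓ) hsne
  refine ⟨(H : W (QQ v₀ (f v₀)) →ₗ[ℝ] V E) ∘ₗ J ∘ₗ (H.symm : V E →ₗ[ℝ] W (QQ v₀ (f v₀))),
    ?_, ?_, ?_, ?_⟩
  · intro x
    change H (J (H.symm (H (J (H.symm x))))) = -x
    rw [LinearEquiv.symm_apply_apply, hJ1, map_neg, LinearEquiv.apply_symm_apply]
  · intro x y
    change form (H (J (H.symm x))) (H (J (H.symm y))) = form x y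
    rw [hHform, hJ2, hHsymm]
  · intro v hv x hx
    obtain ⟨P', hP', hPe⟩ := (hHΛ (phot f v)).mp ⟨v, hv, rfl⟩
    rw [hPe] at hx ⊢
    obtain ⟨y, hy, rfl⟩ := Submodule.mem_map.mp hx
    refine Submodule.mem_map.mpr ⟨J y, hJ3 P' hP' y hy, ?_⟩
    change H (J y) = H (J (H.symm (H y)))
    rw [LinearEquiv.symm_apply_apply]
  · intro γ hγ
    have hmem : conjHom H.symm γ ∈ Γ' := by
      rw [hΓ', Subgroup.mem_comap]
      have : conjHom H (conjHom H.symm γ) = γ := by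
        ext1 y
        rw [conjHom_apply, conjHom_apply, LinearEquiv.symm_symm, LinearEquiv.apply_symm_apply,
          LinearEquiv.apply_symm_apply]
      rw [this]; exact hγ
    have happ : ∀ y, conjHom H.symm γ y = H.symm (γ (H y)) := fun y => rfl
    rcases hJ4 _ (hb' _ hmem) (hL' _ hmem) with h1 | h1
    · left
      intro x
      change γ (H (J (H.symm x))) = H (J (H.symm (γ x)))
      have h2 := h1 (H.symm x)
      rw [happ, happ, LinearEquiv.apply_symm_apply] at h2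
      rw [← h2, LinearEquiv.apply_symm_apply]
    · right
      intro x
      change γ (H (J (H.symm x))) = -H (J (H.symm (γ x)))
      have h2 := h1 (H.symm x)
      rw [happ, happ, LinearEquiv.apply_symm_apply] at h2
      rw [← map_neg, ← h2, LinearEquiv.apply_symm_apply]

end Pool.Agent.H2.AdS
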