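import Mathlib

/-!
# Photon foliations of the Einstein universe: definitions

`V E = E ⊕ ℝ²` carries the form `⟪·,·⟫ - (x₁y₁ + x₂y₂)` of signature `(dim E, 2)`; a photon is a
totally isotropic plane.  `W Q = ℝ² ⊕ Q ⊕ ℝ²` is the same space in coordinates adapted to two
transverse photons.
-/

set_option autoImplicit false

open scoped RealInnerProductSpace
open Filter Topology

namespace Pool.Agent.H2.AdS

section V

variable {E : Type*} [NormedAddCommGroup E] [InnerProductSpace ℝ E]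

/-- The space `E ⊕ ℝ²`. -/
abbrev V (E : Type*) : Type _ := E × ℝ × ℝ

/-- The form `⟪x, y⟫ - (x₁ y₁ + x₂ y₂)` on `E ⊕ ℝ²`. -/
def form (x y : V E) : ℝ := ⟪x.1, y.1⟫ - (x.2.1 * y.2.1 + x.2.2 * y.2.2)

/-- `Λ` is a photon foliation: a set of maximal totally isotropic subspaces (each of them is the
graph of a map `ℝ² → E`) such that every nonzero isotropic vector lies in exactly one of them. -/
structure IsFol (Λ : Set (Submodule ℝ (V E))) : Prop where
  iso : ∀ P ∈ Λ, ∀ x ∈ P, ∀ y ∈ P, form x y = 0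
  graph : ∀ P ∈ Λ, ∀ y : ℝ × ℝ, ∃ x ∈ P, x.2 = y
  cov : ∀ x : V E, x ≠ 0 → form x x = 0 → ∃ P ∈ Λ, x ∈ P
  uni : ∀ P ∈ Λ, ∀ P' ∈ Λ, ∀ x : V E, x ≠ 0 → x ∈ P → x ∈ P' → P = P'

theorem form_comm (x y : V E) : form x y = form y x := by
  unfold form; rw [real_inner_comm]; ring

theorem form_add_left (x x' y : V E) : form (x + x') y = form x y + form x' y := by
  simp only [form, Prod.fst_add, Prod.snd_add, inner_add_left]; ring

theorem form_add_right (x y y' : V E) : form x (y + y') = form x y + form x y' := by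
  rw [form_comm, form_add_left, form_comm y, form_comm y']

theorem form_smul_left (c : ℝ) (x y : V E) : form (c • x) y = c * form x y := by
  simp only [form, Prod.smul_fst, Prod.smul_snd, inner_smul_left, smul_eq_mul]; simp; ring

theorem form_smul_right (c : ℝ) (x y : V E) : form x (c • y) = c * form x y := by
  rw [form_comm, form_smul_left, form_comm]

theorem form_neg_left (x y : V E) : form (-x) y = -form x y := by
  have := form_smul_left (-1) x y; simpa using this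

theorem form_neg_right (x y : V E) : form x (-y) = -form x y := by
  rw [form_comm, form_neg_left, form_comm]

theorem form_sub_left (x x' y : V E) : form (x - x') y = form x y - form x' y := by
  rw [sub_eq_add_neg, form_add_left, form_neg_left]; ring

theorem form_sub_right (x y y' : V E) : form x (y - y') = form x y - form x y' := by
  rw [sub_eq_add_neg, form_add_right, form_neg_right]; ring

theorem form_zero_left (y : V E) : form 0 y = 0 := by
  have := form_smul_left 0 0 y; simpa using this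

theorem form_zero_right (x : V E) : form x 0 = 0 := by rw [form_comm, form_zero_left]

theorem form_nondeg {x : V E} (h : ∀ y, form x y = 0) : x = 0 := by
  have h1 := h (x.1, -x.2)
  simp only [form, real_inner_self_eq_norm_sq, Prod.fst_neg, Prod.snd_neg] at h1
  have h2 : ‖x.1‖ ^ 2 + x.2.1 ^ 2 + x.2.2 ^ 2 = 0 := by linarith [h1]
  have h3 : ‖x.1‖ = 0 := by nlinarith [sq_nonneg ‖x.1‖, sq_nonneg x.2.1, sq_nonneg x.2.2]
  have h4 : x.2.1 = 0 := by nlinarith [sq_nonneg ‖x.1‖, sq_nonneg x.2.1, sq_nonneg x.2.2]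
  have h5 : x.2.2 = 0 := by nlinarith [sq_nonneg ‖x.1‖, sq_nonneg x.2.1, sq_nonneg x.2.2]
  exact Prod.ext (norm_eq_zero.mp h3) (Prod.ext h4 h5)

/-- An isotropic vector with trivial second component is trivial. -/
theorem eq_zero_of_snd {x : V E} (h : form x x = 0) (h2 : x.2 = 0) : x = 0 := by
  simp only [form, real_inner_self_eq_norm_sq, h2, Prod.fst_zero, Prod.snd_zero] at h
  have h3 : ‖x.1‖ = 0 := by nlinarith [sq_nonneg ‖x.1‖]
  exact Prod.ext (norm_eq_zero.mp h3) h2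

theorem continuous_form : Continuous fun p : V E × V E => form p.1 p.2 := by
  unfold form; fun_prop

/-- Two isotropic orthogonal vectors with the same second component are equal. -/
theorem eq_of_snd {x y : V E} (hx : form x x = 0) (hy : form y y = 0) (hxy : form x y = 0)
    (h2 : x.2 = y.2) : x = y := by
  have h : form (x - y) (x - y) = 0 := by
    rw [form_sub_left, form_sub_right, form_sub_right, hx, hy, form_comm y x, hxy]; ring
  exact sub_eq_zero.mp (eq_zero_of_snd h (by simp [h2]))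

variable {Λ : Set (Submodule ℝ (V E))}

theorem IsFol.unique_graph (hΛ : IsFol Λ) {P : Submodule ℝ (V E)} (hP : P ∈ Λ) {x y : V E}
    (hx : x ∈ P) (hy : y ∈ P) (h2 : x.2 = y.2) : x = y :=
  eq_of_snd (hΛ.iso P hP x hx x hx) (hΛ.iso P hP y hy y hy) (hΛ.iso P hP x hx y hy) h2

/-- A photon is its own orthogonal among isotropic vectors. -/
theorem IsFol.mem_of_orth (hΛ : IsFol Λ) {P : Submodule ℝ (V E)} (hP : P ∈ Λ) {l : V E}
    (hl : form l l = 0) (h : ∀ x ∈ P, form x l = 0) : l ∈ P := by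
  obtain ⟨x, hx, hx2⟩ := hΛ.graph P hP l.2
  have := eq_of_snd (hΛ.iso P hP x hx x hx) hl (h x hx) hx2
  rwa [← this]

end V

section W

variable {Q : Type*} [NormedAddCommGroup Q] [InnerProductSpace ℝ Q]

/-- The space `ℝ² ⊕ Q ⊕ ℝ²`. -/
abbrev W (Q : Type*) : Type _ := (ℝ × ℝ) × Q × (ℝ × ℝ)

/-- The form on `W Q`: `⟪q, q'⟫ + 2 (y⁻ · y'⁺ + y⁺ · y'⁻)`. -/
def bW (x y : W Q) : ℝ := ⟪x.2.1, y.2.1⟫ + 2 * (x.1.1 * y.2.2.1 + x.1.2 * y.2.2.2) +
  2 * (x.2.2.1 * y.1.1 + x.2.2.2 * y.1.2)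

/-- The photon `{(y, y₁ q + y₂ S q, D y)}` with `D = - N ᵀ N / 4 + c ε`, `N y = y₁ q + y₂ S q`. -/
def Ph (S : Q →ₗ[ℝ] Q) (q : Q) (c : ℝ) : Submodule ℝ (W Q) where
  carrier := {x | x.2.1 = x.1.1 • q + x.1.2 • S q ∧ x.2.2.1 = -(1 / 4) * ⟪q, x.2.1⟫ - c * x.1.2 ∧
    x.2.2.2 = -(1 / 4) * ⟪S q, x.2.1⟫ + c * x.1.1}
  add_mem' := by
    rintro x y ⟨h1, h2, h3⟩ ⟨h4, h5, h6⟩
    refine ⟨?_, ?_, ?_⟩
    · simp only [Prod.fst_add, Prod.snd_add, h1, h4, add_smul]; abel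
    · simp only [Prod.fst_add, Prod.snd_add, h2, h5, inner_add_right]; ring
    · simp only [Prod.fst_add, Prod.snd_add, h3, h6, inner_add_right]; ring
  zero_mem' := by simp
  smul_mem' := by
    rintro a x ⟨h1, h2, h3⟩
    refine ⟨?_, ?_, ?_⟩
    · simp only [Prod.smul_fst, Prod.smul_snd, h1, smul_add, smul_smul, smul_eq_mul]
    · simp only [Prod.smul_fst, Prod.smul_snd, smul_eq_mul, h2, inner_smul_right]; ring
    · simp only [Prod.smul_fst, Prod.smul_snd, smul_eq_mul, h3, inner_smul_right]; ring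

/-- The photon at infinity `{(0, 0, y)}`. -/
def Pp (Q : Type*) [NormedAddCommGroup Q] [InnerProductSpace ℝ Q] : Submodule ℝ (W Q) where
  carrier := {x | x.1 = 0 ∧ x.2.1 = 0}
  add_mem' := by
    rintro x y ⟨h1, h2⟩ ⟨h3, h4⟩
    exact ⟨by simp [h1, h3], by simp [h2, h4]⟩
  zero_mem' := by simp
  smul_mem' := by
    rintro a x ⟨h1, h2⟩
    exact ⟨by simp [h1], by simp [h2]⟩

/-- The linear photon foliation attached to `S`. -/
def LamC (S : Q →ₗ[ℝ] Q) : Set (Submodule ℝ (W Q)) := {P | P = Pp Q ∨ ∃ q c, P = Ph S q c}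

theorem mem_Ph {S : Q →ₗ[ℝ] Q} {q : Q} {c : ℝ} {x : W Q} : x ∈ Ph S q c ↔
    x.2.1 = x.1.1 • q + x.1.2 • S q ∧ x.2.2.1 = -(1 / 4) * ⟪q, x.2.1⟫ - c * x.1.2 ∧
    x.2.2.2 = -(1 / 4) * ⟪S q, x.2.1⟫ + c * x.1.1 := Iff.rfl

theorem mem_Pp {x : W Q} : x ∈ Pp Q ↔ x.1 = 0 ∧ x.2.1 = 0 := Iff.rfl

theorem bW_comm (x y : W Q) : bW x y = bW y x := by
  unfold bW; rw [real_inner_comm]; ring

theorem bW_add_left (x x' y : W Q) : bW (x + x') y = bW x y + bW x' y := by
  simp only [bW, Prod.fst_add, Prod.snd_add, inner_add_left]; ring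

theorem bW_add_right (x y y' : W Q) : bW x (y + y') = bW x y + bW x y' := by
  rw [bW_comm, bW_add_left, bW_comm y, bW_comm y']

theorem bW_smul_left (c : ℝ) (x y : W Q) : bW (c • x) y = c * bW x y := by
  simp only [bW, Prod.smul_fst, Prod.smul_snd, inner_smul_left, smul_eq_mul]; simp; ring

theorem bW_smul_right (c : ℝ) (x y : W Q) : bW x (c • y) = c * bW x y := by
  rw [bW_comm, bW_smul_left, bW_comm]

theorem bW_neg_left (x y : W Q) : bW (-x) y = -bW x y := by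
  have := bW_smul_left (-1) x y; simpa using this

theorem bW_neg_right (x y : W Q) : bW x (-y) = -bW x y := by
  rw [bW_comm, bW_neg_left, bW_comm]

theorem bW_sub_left (x x' y : W Q) : bW (x - x') y = bW x y - bW x' y := by
  rw [sub_eq_add_neg, bW_add_left, bW_neg_left]; ring

theorem bW_sub_right (x y y' : W Q) : bW x (y - y') = bW x y - bW x y' := by
  rw [sub_eq_add_neg, bW_add_right, bW_neg_right]; ring

theorem bW_zero_left (y : W Q) : bW 0 y = 0 := by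
  have := bW_smul_left 0 0 y; simpa using this

theorem bW_zero_right (x : W Q) : bW x 0 = 0 := by rw [bW_comm, bW_zero_left]

theorem bW_nondeg {x : W Q} (h : ∀ y, bW x y = 0) : x = 0 := by
  have h1 := h (0, x.2.1, 0)
  have h2 := h ((1, 0), 0, 0)
  have h3 := h ((0, 1), 0, 0)
  have h4 := h (0, 0, (1, 0))
  have h5 := h (0, 0, (0, 1))
  simp [bW] at h1 h2 h3 h4 h5
  exact Prod.ext (Prod.ext h4 h5) (Prod.ext h1 (Prod.ext h2 h3))

theorem continuous_bW : Continuous fun p : W Q × W Q => bW p.1 p.2 := by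
  unfold bW; fun_prop

/-- `N_q y = y₁ q + y₂ S q` -/
def NN (S : Q →ₗ[ℝ] Q) (q : Q) (y : ℝ × ℝ) : Q := y.1 • q + y.2 • S q

theorem NN_add (S : Q →ₗ[ℝ] Q) (q q' : Q) (y : ℝ × ℝ) :
    NN S (q + q') y = NN S q y + NN S q' y := by
  simp only [NN, map_add, smul_add]; abel

theorem NN_sub (S : Q →ₗ[ℝ] Q) (q q' : Q) (y : ℝ × ℝ) :
    NN S (q - q') y = NN S q y - NN S q' y := by
  simp only [NN, map_sub, smul_sub]; abel

theorem NN_smul (S : Q →ₗ[ℝ] Q) (a : ℝ) (q : Q) (y : ℝ × ℝ) :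
    NN S (a • q) y = a • NN S q y := by
  simp only [NN, map_smul, smul_add, smul_comm a]

theorem NN_add_right (S : Q →ₗ[ℝ] Q) (q : Q) (y y' : ℝ × ℝ) :
    NN S q (y + y') = NN S q y + NN S q y' := by
  simp only [NN, Prod.fst_add, Prod.snd_add, add_smul]; abel

theorem NN_smul_right (S : Q →ₗ[ℝ] Q) (a : ℝ) (q : Q) (y : ℝ × ℝ) :
    NN S q (a • y) = a • NN S q y := by
  simp only [NN, Prod.smul_fst, Prod.smul_snd, smul_eq_mul, mul_smul, smul_add]

/-- the linear map `q ↦ N_q y` -/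
def NL (S : Q →ₗ[ℝ] Q) (y : ℝ × ℝ) : Q →ₗ[ℝ] Q := y.1 • LinearMap.id + y.2 • S

theorem NL_apply (S : Q →ₗ[ℝ] Q) (y : ℝ × ℝ) (q : Q) : NL S y q = NN S q y := rfl

/-- If `S` has no real eigenvalue then `N_q y ≠ 0` for `q ≠ 0`, `y ≠ 0`. -/
theorem NN_ne_zero {S : Q →ₗ[ℝ] Q} (hS : ∀ q : Q, q ≠ 0 → ∀ c : ℝ, S q ≠ c • q) {q : Q}
    (hq : q ≠ 0) {y : ℝ × ℝ} (hy : y ≠ 0) : NN S q y ≠ 0 := by
  intro h
  unfold NN at h
  by_cases h2 : y.2 = 0
  · rw [h2, zero_smul, add_zero] at h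
    rcases smul_eq_zero.mp h with h1 | h1
    · exact hy (Prod.ext h1 h2)
    · exact hq h1
  · apply hS q hq (-(y.1 / y.2))
    have h3 : y.2 • S q = -(y.1 • q) := by rw [eq_neg_iff_add_eq_zero, add_comm]; exact h
    have h4 : S q = y.2⁻¹ • (y.2 • S q) := by rw [smul_smul, inv_mul_cancel₀ h2, one_smul]
    rw [h4, h3, smul_neg, smul_smul, neg_smul]
    congr 2
    field_simp

theorem NL_injective {S : Q →ₗ[ℝ] Q} (hS : ∀ q : Q, q ≠ 0 → ∀ c : ℝ, S q ≠ c • q) {y : ℝ × ℝ}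
    (hy : y ≠ 0) : Function.Injective (NL S y) := by
  rw [injective_iff_map_eq_zero]
  intro q hq
  by_contra hq0
  exact NN_ne_zero hS hq0 hy hq

/-- the point of `Ph S q c` over `y` -/
noncomputable def pt (S : Q →ₗ[ℝ] Q) (q : Q) (c : ℝ) (y : ℝ × ℝ) : W Q :=
  (y, NN S q y, (-(1 / 4) * ⟪q, NN S q y⟫ - c * y.2, -(1 / 4) * ⟪S q, NN S q y⟫ + c * y.1))

theorem pt_mem (S : Q →ₗ[ℝ] Q) (q : Q) (c : ℝ) (y : ℝ × ℝ) : pt S q c y ∈ Ph S q c :=
  ⟨rfl, rfl, rfl⟩

theorem eq_pt {S : Q →ₗ[ℝ] Q} {q : Q} {c : ℝ} {x : W Q} (hx : x ∈ Ph S q c) :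
    x = pt S q c x.1 := by
  obtain ⟨h1, h2, h3⟩ := hx
  refine Prod.ext rfl (Prod.ext h1 (Prod.ext ?_ ?_))
  · rw [h2, h1]; rfl
  · rw [h3, h1]; rfl

theorem pt_injective (S : Q →ₗ[ℝ] Q) {q q' : Q} {c c' : ℝ} (h : Ph S q c = Ph S q' c') :
    q = q' ∧ c = c' := by
  have h1 : pt S q c (1, 0) ∈ Ph S q' c' := h ▸ pt_mem S q c (1, 0)
  have h2 := eq_pt h1
  have h3 : NN S q (1, 0) = NN S q' (1, 0) := congrArg (fun x : W Q => x.2.1) h2
  have h4 : q = q' := by simpa [NN] using h3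
  subst h4
  have h5 := congrArg (fun x : W Q => x.2.2.2) h2
  simp only [pt] at h5
  refine ⟨rfl, ?_⟩
  linarith

theorem Pp_ne_Ph (S : Q →ₗ[ℝ] Q) (q : Q) (c : ℝ) : Pp Q ≠ Ph S q c := by
  intro h
  have h1 : pt S q c (1, 0) ∈ Pp Q := h ▸ pt_mem S q c (1, 0)
  have h2 : ((1 : ℝ), (0 : ℝ)) = 0 := h1.1
  simpa using congrArg Prod.fst h2

theorem iso_Ph {S : Q →ₗ[ℝ] Q} {q : Q} {c : ℝ} {x y : W Q} (hx : x ∈ Ph S q c)
    (hy : y ∈ Ph S q c) : bW x y = 0 := by
  rw [eq_pt hx, eq_pt hy]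
  simp only [bW, pt, NN, inner_add_left, inner_add_right, inner_smul_left, inner_smul_right]
  rw [real_inner_comm q (S q)]
  simp
  ring

theorem iso_Pp {x y : W Q} (hx : x ∈ Pp Q) (hy : y ∈ Pp Q) : bW x y = 0 := by
  obtain ⟨h1, h2⟩ := hx
  obtain ⟨h3, h4⟩ := hy
  simp [bW, h1, h2, h3, h4]

theorem LamC_iso {S : Q →ₗ[ℝ] Q} {P : Submodule ℝ (W Q)} (hP : P ∈ LamC S) {x y : W Q}
    (hx : x ∈ P) (hy : y ∈ P) : bW x y = 0 := by
  rcases hP with rfl | ⟨q, c, rfl⟩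
  · exact iso_Pp hx hy
  · exact iso_Ph hx hy

/-- every isotropic vector lies in a member of `LamC S` -/
theorem LamC_cov [FiniteDimensional ℝ Q] {S : Q →ₗ[ℝ] Q}
    (hS : ∀ q : Q, q ≠ 0 → ∀ c : ℝ, S q ≠ c • q) (x : W Q) (hx : bW x x = 0) :
    ∃ P ∈ LamC S, x ∈ P := by
  by_cases h1 : x.1 = 0
  · refine ⟨Pp Q, Or.inl rfl, h1, ?_⟩
    simp [bW, h1] at hx
    exact hx
  · have hinj := NL_injective hS h1
    have hsurj : Function.Surjective (NL S x.1) := LinearMap.surjective_of_injective hinj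
    obtain ⟨q, hq⟩ := hsurj x.2.1
    have hq' : NN S q x.1 = x.2.1 := hq
    have hn : 0 < x.1.1 ^ 2 + x.1.2 ^ 2 := by
      by_contra hcon
      push Not at hcon
      apply h1
      have h2 : x.1.1 = 0 := by nlinarith [sq_nonneg x.1.1, sq_nonneg x.1.2]
      have h3 : x.1.2 = 0 := by nlinarith [sq_nonneg x.1.1, sq_nonneg x.1.2]
      exact Prod.ext h2 h3
    set u := x.2.2.1 + (1 / 4) * ⟪q, x.2.1⟫ with hu
    set w := x.2.2.2 + (1 / 4) * ⟪S q, x.2.1⟫ with hw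
    have hsum : ⟪x.2.1, x.2.1⟫ = x.1.1 * ⟪q, x.2.1⟫ + x.1.2 * ⟪S q, x.2.1⟫ := by
      nth_rewrite 1 [← hq']
      simp only [NN, inner_add_left, inner_smul_left]
      simp
    have horth : x.1.1 * u + x.1.2 * w = 0 := by
      have h5 : bW x x = ⟪x.2.1, x.2.1⟫ + 4 * (x.1.1 * x.2.2.1 + x.1.2 * x.2.2.2) := by
        unfold bW; ring
      rw [h5, hsum] at hx
      rw [hu, hw]
      linarith
    refine ⟨Ph S q ((x.1.1 * w - x.1.2 * u) / (x.1.1 ^ 2 + x.1.2 ^ 2)), Or.inr ⟨q, _, rfl⟩,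
      hq'.symm, ?_, ?_⟩
    · have h6 : (x.1.1 * w - x.1.2 * u) / (x.1.1 ^ 2 + x.1.2 ^ 2) * x.1.2 = -u := by
        field_simp
        linear_combination (x.1.1) * horth
      linarith
    · have h6 : (x.1.1 * w - x.1.2 * u) / (x.1.1 ^ 2 + x.1.2 ^ 2) * x.1.1 = w := by
        field_simp
        linear_combination (-x.1.2) * horth
      linarith

/-- two members of `LamC S` which share a nonzero vector are equal -/
theorem LamC_uni {S : Q →ₗ[ℝ] Q}
    (hS : ∀ q : Q, q ≠ 0 → ∀ c : ℝ, S q ≠ c • q) {P P' : Submodule ℝ (W Q)} (hP : P ∈ LamC S)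
    (hP' : P' ∈ LamC S) {x : W Q} (hx0 : x ≠ 0) (hx : x ∈ P) (hx' : x ∈ P') : P = P' := by
  have key : ∀ q c, x ∈ Pp Q → x ∈ Ph S q c → False := by
    intro q c h1 h2
    apply hx0
    have h3 := eq_pt h2
    rw [h1.1] at h3
    rw [h3]
    simp [pt, NN]
  rcases hP with rfl | ⟨q, c, rfl⟩ <;> rcases hP' with rfl | ⟨q', c', rfl⟩
  · rfl
  · exact (key q' c' hx hx').elim
  · exact (key q c hx' hx).elim
  · have hx1 : x.1 ≠ 0 := by
      intro h1
      apply hx0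
      have h3 := eq_pt hx
      rw [h1] at h3
      rw [h3]
      simp [pt, NN]
    have h2 : NL S x.1 q = NL S x.1 q' := by
      have e1 : x.2.1 = NN S q x.1 := hx.1
      have e2 : x.2.1 = NN S q' x.1 := hx'.1
      rw [NL_apply, NL_apply, ← e1, ← e2]
    have h3 := NL_injective hS hx1 h2
    subst h3
    have h4 : c = c' := by
      obtain ⟨-, e1, e2⟩ := hx
      obtain ⟨-, e3, e4⟩ := hx'
      have e5 : (c - c') * x.1.2 = 0 := by linarith
      have e6 : (c - c') * x.1.1 = 0 := by linarith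
      by_contra hne
      have hne' : c - c' ≠ 0 := sub_ne_zero.mpr hne
      apply hx1
      exact Prod.ext ((mul_eq_zero.mp e6).resolve_left hne') ((mul_eq_zero.mp e5).resolve_left hne')
    rw [h4]

end W

end Pool.Agent.H2.AdS
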