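import Pool.Agent.H2.AdS.Basic

/-!
# Blow-up of a photon foliation at a point of differentiability
-/

set_option autoImplicit false

open scoped RealInnerProductSpace
open Filter Topology

namespace Pool.Agent.H2.AdS

/-- limits of solutions of `2 × 2` systems -/
theorem inv_lim {ι : Type*} {l : Filter ι} {a b c d y₁ y₂ : ι → ℝ} {a' b' c' d' z₁ z₂ : ℝ}
    (ha : Tendsto a l (𝓝 a')) (hb : Tendsto b l (𝓝 b')) (hc : Tendsto c l (𝓝 c'))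
    (hd : Tendsto d l (𝓝 d')) (hdet : a' * d' - b' * c' ≠ 0)
    (h₁ : Tendsto (fun n => a n * y₁ n + b n * y₂ n) l (𝓝 z₁))
    (h₂ : Tendsto (fun n => c n * y₁ n + d n * y₂ n) l (𝓝 z₂)) :
    Tendsto y₁ l (𝓝 ((d' * z₁ - b' * z₂) / (a' * d' - b' * c'))) ∧
      Tendsto y₂ l (𝓝 ((a' * z₂ - c' * z₁) / (a' * d' - b' * c'))) := by
  have hdn : Tendsto (fun n => a n * d n - b n * c n) l (𝓝 (a' * d' - b' * c')) :=
    (ha.mul hd).sub (hb.mul hc)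
  have hne : ∀ᶠ n in l, a n * d n - b n * c n ≠ 0 := hdn.eventually_ne hdet
  constructor
  · refine (((hd.mul h₁).sub (hb.mul h₂)).div hdn hdet).congr' ?_
    filter_upwards [hne] with n hn
    rw [Pi.div_apply, div_eq_iff hn]
    ring
  · refine (((ha.mul h₂).sub (hc.mul h₁)).div hdn hdet).congr' ?_
    filter_upwards [hne] with n hn
    rw [Pi.div_apply, div_eq_iff hn]
    ring

/-- bounded sequences converge along an ultrafilter -/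
theorem ultra_lim {X : Type*} [NormedAddCommGroup X] [NormedSpace ℝ X] [FiniteDimensional ℝ X]
    (𝒰 : Ultrafilter ℕ) {u : ℕ → X} {C : ℝ} (h : ∀ n, ‖u n‖ ≤ C) :
    ∃ x, Tendsto u 𝒰 (𝓝 x) ∧ ‖x‖ ≤ C := by
  have : ProperSpace X := FiniteDimensional.proper ℝ X
  have hc : IsCompact (Metric.closedBall (0 : X) C) := isCompact_closedBall 0 C
  have hle : (𝒰.map u : Filter X) ≤ 𝓟 (Metric.closedBall (0 : X) C) := by
    rw [Filter.le_principal_iff, Ultrafilter.mem_coe, Ultrafilter.mem_map]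
    refine Filter.univ_mem' fun n => ?_
    simpa using h n
  obtain ⟨x, hx, hx'⟩ := hc.ultrafilter_le_nhds (𝒰.map u) hle
  exact ⟨x, hx', by simpa using hx⟩

variable {Q : Type*} [NormedAddCommGroup Q] [InnerProductSpace ℝ Q]

/-- strict Cauchy-Schwarz for `B`, `S B` -/
theorem det_pos {S : Q →ₗ[ℝ] Q} (hS : ∀ q : Q, q ≠ 0 → ∀ c : ℝ, S q ≠ c • q) {B : Q}
    (hB : B ≠ 0) : 0 < ‖B‖ ^ 2 * ‖S B‖ ^ 2 - ⟪B, S B⟫ ^ 2 := by
  have hB' : 0 < ‖B‖ ^ 2 := by positivity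
  have hne : ‖B‖ ^ 2 • S B - ⟪B, S B⟫ • B ≠ 0 := by
    intro h
    apply hS B hB (⟪B, S B⟫ / ‖B‖ ^ 2)
    have h1 : ‖B‖ ^ 2 • S B = ⟪B, S B⟫ • B := sub_eq_zero.mp h
    calc S B = (‖B‖ ^ 2)⁻¹ • (‖B‖ ^ 2 • S B) := by
          rw [smul_smul, inv_mul_cancel₀ hB'.ne', one_smul]
      _ = (⟪B, S B⟫ / ‖B‖ ^ 2) • B := by rw [h1, smul_smul, inv_mul_eq_div]
  have h2 : 0 < ‖‖B‖ ^ 2 • S B - ⟪B, S B⟫ • B‖ ^ 2 := by positivity
  have h3 : ‖‖B‖ ^ 2 • S B - ⟪B, S B⟫ • B‖ ^ 2 =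
      ‖B‖ ^ 2 * (‖B‖ ^ 2 * ‖S B‖ ^ 2 - ⟪B, S B⟫ ^ 2) := by
    rw [@norm_sub_sq_real, norm_smul, norm_smul, inner_smul_left, inner_smul_right,
      real_inner_comm B (S B)]
    simp only [Real.norm_eq_abs, mul_pow, sq_abs, abs_pow, abs_norm]
    simp
    ring
  rw [h3] at h2
  exact (mul_pos_iff_of_pos_left hB').mp h2

/-- **The blow-up.** -/
theorem blow_core [FiniteDimensional ℝ Q] {S : Q →ₗ[ℝ] Q}
    (hS : ∀ q : Q, q ≠ 0 → ∀ c : ℝ, S q ≠ c • q) (𝒰 : Ultrafilter ℕ) {ε : ℕ → ℝ}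
    (hε0 : ∀ n, 0 < ε n) {m₁₁ m₁₂ m₂₁ m₂₂ : ℕ → ℝ} {p₁ p₂ : ℕ → Q}
    (h1 : ∀ n, m₁₁ n ^ 2 + m₂₁ n ^ 2 + ‖p₁ n‖ ^ 2 = 1)
    (h2 : ∀ n, m₁₂ n ^ 2 + m₂₂ n ^ 2 + ‖p₂ n‖ ^ 2 = 1)
    (h3 : ∀ n, m₁₁ n * m₁₂ n + m₂₁ n * m₂₂ n + ⟪p₁ n, p₂ n⟫ = 0)
    (hm₁₁ : Tendsto m₁₁ 𝒰 (𝓝 1)) (hm₁₂ : Tendsto m₁₂ 𝒰 (𝓝 0)) (hm₂₁ : Tendsto m₂₁ 𝒰 (𝓝 0))
    (hm₂₂ : Tendsto m₂₂ 𝒰 (𝓝 1))
    (hD : ∀ δ : ℝ, 0 < δ → ∀ᶠ n in (𝒰 : Filter ℕ), ‖p₂ n - S (p₁ n)‖ ≤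
      δ * (‖p₁ n‖ + Real.sqrt |m₂₁ n|)) :
    ∃ P' ∈ LamC S, ∀ (y : ℕ → ℝ × ℝ) (x' : W Q),
      Tendsto (fun n => (((ε n / 2 * ((m₁₁ n + 1) * (y n).1 + m₁₂ n * (y n).2),
        ε n / 2 * (m₂₁ n * (y n).1 + (m₂₂ n + 1) * (y n).2)),
        (y n).1 • p₁ n + (y n).2 • p₂ n,
        (1 / (2 * ε n) * ((m₁₁ n - 1) * (y n).1 + m₁₂ n * (y n).2),
        1 / (2 * ε n) * (m₂₁ n * (y n).1 + (m₂₂ n - 1) * (y n).2))) : W Q)) 𝒰 (𝓝 x') →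
      x' ∈ P' := by
  -- rescaled quantities
  set d₁₁ : ℕ → ℝ := fun n => (m₁₁ n - 1) / (2 * ε n ^ 2) with hd₁₁
  set d₁₂ : ℕ → ℝ := fun n => m₁₂ n / (2 * ε n ^ 2) with hd₁₂
  set d₂₁ : ℕ → ℝ := fun n => m₂₁ n / (2 * ε n ^ 2) with hd₂₁
  set d₂₂ : ℕ → ℝ := fun n => (m₂₂ n - 1) / (2 * ε n ^ 2) with hd₂₂
  set a₁ : ℕ → Q := fun n => (ε n)⁻¹ • p₁ n with ha₁
  set a₂ : ℕ → Q := fun n => (ε n)⁻¹ • p₂ n with ha₂
  set R : ℕ → ℝ := fun n => 1 + ‖a₁ n‖ ^ 2 + ‖a₂ n‖ ^ 2 + |d₁₁ n| + |d₁₂ n| + |d₂₁ n| + |d₂₂ n|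
    with hR
  have hR1 : ∀ n, 1 ≤ R n := fun n => by
    simp only [hR]
    nlinarith [sq_nonneg ‖a₁ n‖, sq_nonneg ‖a₂ n‖, abs_nonneg (d₁₁ n), abs_nonneg (d₁₂ n),
      abs_nonneg (d₂₁ n), abs_nonneg (d₂₂ n)]
  set r : ℕ → ℝ := fun n => (Real.sqrt (R n))⁻¹ with hr
  have hr0 : ∀ n, 0 < r n := fun n => by
    simp only [hr]
    exact inv_pos.mpr (Real.sqrt_pos.mpr (by linarith [hR1 n]))
  have hr2 : ∀ n, r n ^ 2 * R n = 1 := fun n => by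
    simp only [hr]
    rw [inv_pow, Real.sq_sqrt (by linarith [hR1 n]), inv_mul_cancel₀ (by linarith [hR1 n])]
  set b₁ : ℕ → Q := fun n => r n • a₁ n with hb₁
  set b₂ : ℕ → Q := fun n => r n • a₂ n with hb₂
  set e₁₁ : ℕ → ℝ := fun n => r n ^ 2 * d₁₁ n with he₁₁
  set e₁₂ : ℕ → ℝ := fun n => r n ^ 2 * d₁₂ n with he₁₂
  set e₂₁ : ℕ → ℝ := fun n => r n ^ 2 * d₂₁ n with he₂₁
  set e₂₂ : ℕ → ℝ := fun n => r n ^ 2 * d₂₂ n with he₂₂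
  have hsum : ∀ n, r n ^ 2 + ‖b₁ n‖ ^ 2 + ‖b₂ n‖ ^ 2 + |e₁₁ n| + |e₁₂ n| + |e₂₁ n| + |e₂₂ n| = 1 := by
    intro n
    have h4 := hr2 n
    simp only [hR] at h4
    simp only [hb₁, hb₂, he₁₁, he₁₂, he₂₁, he₂₂, norm_smul, abs_mul, mul_pow, Real.norm_eq_abs,
      sq_abs, abs_of_nonneg (sq_nonneg (r n))]
    nlinarith [h4]
  have habs : ∀ n, 0 ≤ r n ^ 2 ∧ 0 ≤ ‖b₁ n‖ ^ 2 ∧ 0 ≤ ‖b₂ n‖ ^ 2 ∧ 0 ≤ |e₁₁ n| ∧ 0 ≤ |e₁₂ n| ∧
      0 ≤ |e₂₁ n| ∧ 0 ≤ |e₂₂ n| := fun n =>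
    ⟨sq_nonneg _, sq_nonneg _, sq_nonneg _, abs_nonneg _, abs_nonneg _, abs_nonneg _,
      abs_nonneg _⟩
  have sq1 : ∀ t : ℝ, 0 ≤ t → t ^ 2 ≤ 1 → t ≤ 1 := fun t h0 h => by nlinarith
  obtain ⟨r', hr', -⟩ := ultra_lim 𝒰 (u := r) (C := 1) fun n => by
    obtain ⟨c0, c1, c2, c3, c4, c5, c6⟩ := habs n
    rw [Real.norm_eq_abs, abs_of_pos (hr0 n)]
    exact sq1 _ (hr0 n).le (by linarith [hsum n])
  obtain ⟨B₁, hB₁, -⟩ := ultra_lim 𝒰 (u := b₁) (C := 1) fun n => by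
    obtain ⟨c0, c1, c2, c3, c4, c5, c6⟩ := habs n
    exact sq1 _ (norm_nonneg _) (by linarith [hsum n])
  obtain ⟨B₂, hB₂, -⟩ := ultra_lim 𝒰 (u := b₂) (C := 1) fun n => by
    obtain ⟨c0, c1, c2, c3, c4, c5, c6⟩ := habs n
    exact sq1 _ (norm_nonneg _) (by linarith [hsum n])
  obtain ⟨E₁₁, hE₁₁, -⟩ := ultra_lim 𝒰 (u := e₁₁) (C := 1) fun n => by
    obtain ⟨c0, c1, c2, c3, c4, c5, c6⟩ := habs n
    rw [Real.norm_eq_abs]; linarith [hsum n]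
  obtain ⟨E₁₂, hE₁₂, -⟩ := ultra_lim 𝒰 (u := e₁₂) (C := 1) fun n => by
    obtain ⟨c0, c1, c2, c3, c4, c5, c6⟩ := habs n
    rw [Real.norm_eq_abs]; linarith [hsum n]
  obtain ⟨E₂₁, hE₂₁, -⟩ := ultra_lim 𝒰 (u := e₂₁) (C := 1) fun n => by
    obtain ⟨c0, c1, c2, c3, c4, c5, c6⟩ := habs n
    rw [Real.norm_eq_abs]; linarith [hsum n]
  obtain ⟨E₂₂, hE₂₂, -⟩ := ultra_lim 𝒰 (u := e₂₂) (C := 1) fun n => by
    obtain ⟨c0, c1, c2, c3, c4, c5, c6⟩ := habs n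
    rw [Real.norm_eq_abs]; linarith [hsum n]
  have hnb : NeBot (𝒰 : Filter ℕ) := 𝒰.neBot
  have hsum' : r' ^ 2 + ‖B₁‖ ^ 2 + ‖B₂‖ ^ 2 + |E₁₁| + |E₁₂| + |E₂₁| + |E₂₂| = 1 := by
    refine tendsto_nhds_unique (((((((hr'.pow 2).add (hB₁.norm.pow 2)).add
      (hB₂.norm.pow 2)).add hE₁₁.abs).add hE₁₂.abs).add hE₂₁.abs).add hE₂₂.abs) ?_
    exact tendsto_const_nhds.congr fun n => (hsum n).symm
  -- relations in the limit
  have hrel1 : 4 * E₁₁ + ‖B₁‖ ^ 2 = 0 := by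
    have e1 : ∀ n, 4 * e₁₁ n + ‖b₁ n‖ ^ 2 = -2 * ((m₁₁ n - 1) * e₁₁ n + m₂₁ n * e₂₁ n) := by
      intro n
      have hε := (hε0 n).ne'
      have h4 := h1 n
      simp only [hb₁, he₁₁, he₂₁, hd₁₁, hd₂₁, ha₁, norm_smul, mul_pow, Real.norm_eq_abs,
        abs_inv, abs_of_pos (hε0 n), abs_of_pos (hr0 n)]
      rw [show ‖p₁ n‖ ^ 2 = 1 - m₁₁ n ^ 2 - m₂₁ n ^ 2 by linarith]
      field_simp
      ring
    have e2 : Tendsto (fun n => -2 * ((m₁₁ n - 1) * e₁₁ n + m₂₁ n * e₂₁ n)) 𝒰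
        (𝓝 (-2 * ((1 - 1) * E₁₁ + 0 * E₂₁))) :=
      (((hm₁₁.sub tendsto_const_nhds).mul hE₁₁).add (hm₂₁.mul hE₂₁)).const_mul _
    have e3 := tendsto_nhds_unique (((hE₁₁.const_mul 4).add (hB₁.norm.pow 2)).congr e1) e2
    rw [e3]; ring
  have hrel2 : 4 * E₂₂ + ‖B₂‖ ^ 2 = 0 := by
    have e1 : ∀ n, 4 * e₂₂ n + ‖b₂ n‖ ^ 2 = -2 * (m₁₂ n * e₁₂ n + (m₂₂ n - 1) * e₂₂ n) := by
      intro n
      have hε := (hε0 n).ne'
      have h4 := h2 n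
      simp only [hb₂, he₂₂, he₁₂, hd₂₂, hd₁₂, ha₂, norm_smul, mul_pow, Real.norm_eq_abs,
        abs_inv, abs_of_pos (hε0 n), abs_of_pos (hr0 n)]
      rw [show ‖p₂ n‖ ^ 2 = 1 - m₁₂ n ^ 2 - m₂₂ n ^ 2 by linarith]
      field_simp
      ring
    have e2 : Tendsto (fun n => -2 * (m₁₂ n * e₁₂ n + (m₂₂ n - 1) * e₂₂ n)) 𝒰
        (𝓝 (-2 * (0 * E₁₂ + (1 - 1) * E₂₂))) :=
      ((hm₁₂.mul hE₁₂).add ((hm₂₂.sub tendsto_const_nhds).mul hE₂₂)).const_mul _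
    have e3 := tendsto_nhds_unique (((hE₂₂.const_mul 4).add (hB₂.norm.pow 2)).congr e1) e2
    rw [e3]; ring
  have hrel3 : 2 * (E₁₂ + E₂₁) + ⟪B₁, B₂⟫ = 0 := by
    have e1 : ∀ n, 2 * (e₁₂ n + e₂₁ n) + ⟪b₁ n, b₂ n⟫ =
        -2 * ((m₁₁ n - 1) * e₁₂ n + (m₂₂ n - 1) * e₂₁ n) := by
      intro n
      have hε := (hε0 n).ne'
      have h4 := h3 n
      simp only [hb₁, hb₂, he₂₁, he₁₂, hd₂₁, hd₁₂, ha₁, ha₂, inner_smul_left, inner_smul_right]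
      simp only [RCLike.conj_to_real]
      rw [show ⟪p₁ n, p₂ n⟫ = -(m₁₁ n * m₁₂ n + m₂₁ n * m₂₂ n) by linarith]
      field_simp
      ring
    have e2 : Tendsto (fun n => -2 * ((m₁₁ n - 1) * e₁₂ n + (m₂₂ n - 1) * e₂₁ n)) 𝒰
        (𝓝 (-2 * ((1 - 1) * E₁₂ + (1 - 1) * E₂₁))) :=
      (((hm₁₁.sub tendsto_const_nhds).mul hE₁₂).add
        ((hm₂₂.sub tendsto_const_nhds).mul hE₂₁)).const_mul _
    have e3 := tendsto_nhds_unique ((((hE₁₂.add hE₂₁).const_mul 2).add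
      (hB₁.inner hB₂)).congr e1) e2
    rw [e3]; ring
  have hScont : Continuous S := S.continuous_of_finiteDimensional
  have hrel4 : B₂ = S B₁ := by
    have e1 : Tendsto (fun n => b₂ n - S (b₁ n)) 𝒰 (𝓝 0) := by
      rw [tendsto_zero_iff_norm_tendsto_zero, Metric.tendsto_nhds]
      intro δ hδ
      filter_upwards [hD (δ / 4) (by positivity)] with n hn
      rw [Real.dist_eq, sub_zero, abs_of_nonneg (norm_nonneg _)]
      have hε := hε0 n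
      have e2 : b₂ n - S (b₁ n) = (r n * (ε n)⁻¹) • (p₂ n - S (p₁ n)) := by
        simp only [hb₁, hb₂, ha₁, ha₂, map_smul, smul_sub, smul_smul]
      rw [e2, norm_smul, Real.norm_eq_abs, abs_of_pos (mul_pos (hr0 n) (inv_pos.mpr hε))]
      obtain ⟨c0, c1, c2, c3, c4, c5, c6⟩ := habs n
      have e3 : r n * (ε n)⁻¹ * ‖p₁ n‖ ≤ 1 := by
        have : r n * (ε n)⁻¹ * ‖p₁ n‖ = ‖b₁ n‖ := by
          simp only [hb₁, ha₁, norm_smul, Real.norm_eq_abs, abs_of_pos (hr0 n), abs_inv,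
            abs_of_pos hε, mul_assoc]
        rw [this]
        exact sq1 _ (norm_nonneg _) (by linarith [hsum n])
      have e4 : r n * (ε n)⁻¹ * Real.sqrt |m₂₁ n| ≤ 2 := by
        have e5 : (r n * (ε n)⁻¹ * Real.sqrt |m₂₁ n|) ^ 2 = 2 * |e₂₁ n| := by
          rw [mul_pow, mul_pow, Real.sq_sqrt (abs_nonneg _)]
          simp only [he₂₁, hd₂₁, abs_mul, abs_div, abs_of_nonneg (sq_nonneg (r n)),
            abs_of_nonneg (sq_nonneg (ε n)), abs_two]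
          field_simp
        have e6 : 0 ≤ r n * (ε n)⁻¹ * Real.sqrt |m₂₁ n| :=
          mul_nonneg (mul_nonneg (hr0 n).le (inv_nonneg.mpr hε.le)) (Real.sqrt_nonneg _)
        nlinarith [hsum n]
      calc r n * (ε n)⁻¹ * ‖p₂ n - S (p₁ n)‖
          ≤ r n * (ε n)⁻¹ * (δ / 4 * (‖p₁ n‖ + Real.sqrt |m₂₁ n|)) :=
            mul_le_mul_of_nonneg_left hn (mul_nonneg (hr0 n).le (inv_nonneg.mpr hε.le))
        _ = δ / 4 * (r n * (ε n)⁻¹ * ‖p₁ n‖ + r n * (ε n)⁻¹ * Real.sqrt |m₂₁ n|) := by ring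
        _ ≤ δ / 4 * (1 + 2) := by gcongr
        _ < δ := by linarith
    have e2 : Tendsto (fun n => b₂ n - S (b₁ n)) 𝒰 (𝓝 (B₂ - S B₁)) :=
      hB₂.sub ((hScont.tendsto _).comp hB₁)
    exact sub_eq_zero.mp (tendsto_nhds_unique e2 e1)
  by_cases hr'0 : r' = 0
  · -- the photon at infinity
    refine ⟨Pp Q, Or.inl rfl, ?_⟩
    have hdet : E₁₁ * E₂₂ - E₁₂ * E₂₁ ≠ 0 := by
      set c := E₂₁ + (1 / 4) * ⟪B₁, B₂⟫ with hc
      have e1 : E₁₁ * E₂₂ - E₁₂ * E₂₁ =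
          (1 / 16) * (‖B₁‖ ^ 2 * ‖B₂‖ ^ 2 - ⟪B₁, B₂⟫ ^ 2) + c ^ 2 := by
        have e2 : E₁₁ = -(1 / 4) * ‖B₁‖ ^ 2 := by linarith
        have e3 : E₂₂ = -(1 / 4) * ‖B₂‖ ^ 2 := by linarith
        have e4 : E₂₁ = c - (1 / 4) * ⟪B₁, B₂⟫ := by rw [hc]; ring
        have e5 : E₁₂ = -c - (1 / 4) * ⟪B₁, B₂⟫ := by linarith
        rw [e2, e3, e4, e5]; ring
      rw [e1]
      by_cases hB : B₁ = 0
      · have hB2 : B₂ = 0 := by rw [hrel4, hB, map_zero]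
        have e2 : E₁₁ = 0 := by rw [hB] at hrel1; simp at hrel1; exact hrel1
        have e3 : E₂₂ = 0 := by rw [hB2] at hrel2; simp at hrel2; exact hrel2
        have e4 : c = E₂₁ := by rw [hc, hB]; simp
        have e5 : E₁₂ = -c := by rw [hB] at hrel3; simp at hrel3; linarith
        have hcne : c ≠ 0 := by
          intro hc0
          rw [hr'0, hB, hB2, e2, e3, e5, ← e4, hc0] at hsum'
          simp at hsum'
        rw [hB, hB2]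
        simp
        exact hcne
      · have := det_pos hS hB
        rw [← hrel4] at this
        nlinarith [sq_nonneg c]
    intro y x' hx
    -- components
    have hx1 := ((continuous_fst.tendsto x').comp hx)
    have hx2 := ((continuous_snd.tendsto x').comp hx)
    have hx21 := ((continuous_fst.tendsto x'.2).comp hx2)
    have hx22 := ((continuous_snd.tendsto x'.2).comp hx2)
    have hx221 := ((continuous_fst.tendsto x'.2.2).comp hx22)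
    have hx222 := ((continuous_snd.tendsto x'.2.2).comp hx22)
    have hx11 := ((continuous_fst.tendsto x'.1).comp hx1)
    have hx12 := ((continuous_snd.tendsto x'.1).comp hx1)
    simp only [Function.comp_def] at hx11 hx12 hx21 hx221 hx222
    set ζ₁ : ℕ → ℝ := fun n => (r n)⁻¹ * (ε n * (y n).1) with hζ₁
    set ζ₂ : ℕ → ℝ := fun n => (r n)⁻¹ * (ε n * (y n).2) with hζ₂
    have k1 : Tendsto (fun n => e₁₁ n * ζ₁ n + e₁₂ n * ζ₂ n) 𝒰 (𝓝 0) := by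
      have : Tendsto (fun n => r n * (1 / (2 * ε n) * ((m₁₁ n - 1) * (y n).1 + m₁₂ n * (y n).2)))
          𝒰 (𝓝 (r' * x'.2.2.1)) := hr'.mul hx221
      rw [hr'0, zero_mul] at this
      refine this.congr fun n => ?_
      have hε := (hε0 n).ne'
      have hrn := (hr0 n).ne'
      simp only [he₁₁, he₁₂, hd₁₁, hd₁₂, hζ₁, hζ₂]
      field_simp
    have k2 : Tendsto (fun n => e₂₁ n * ζ₁ n + e₂₂ n * ζ₂ n) 𝒰 (𝓝 0) := by
      have : Tendsto (fun n => r n * (1 / (2 * ε n) * (m₂₁ n * (y n).1 + (m₂₂ n - 1) * (y n).2)))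
          𝒰 (𝓝 (r' * x'.2.2.2)) := hr'.mul hx222
      rw [hr'0, zero_mul] at this
      refine this.congr fun n => ?_
      have hε := (hε0 n).ne'
      have hrn := (hr0 n).ne'
      simp only [he₂₁, he₂₂, hd₂₁, hd₂₂, hζ₁, hζ₂]
      field_simp
    obtain ⟨z1, z2⟩ := inv_lim hE₁₁ hE₁₂ hE₂₁ hE₂₂ hdet k1 k2
    simp only [mul_zero, sub_zero, zero_div] at z1 z2
    refine ⟨Prod.ext ?_ ?_, ?_⟩
    · refine tendsto_nhds_unique hx11 ?_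
      have : Tendsto (fun n => 1 / 2 * ((m₁₁ n + 1) * (r n * ζ₁ n) + m₁₂ n * (r n * ζ₂ n))) 𝒰
          (𝓝 (1 / 2 * ((1 + 1) * (r' * 0) + 0 * (r' * 0)))) :=
        (((hm₁₁.add tendsto_const_nhds).mul (hr'.mul z1)).add
          (hm₁₂.mul (hr'.mul z2))).const_mul _
      simp only [mul_zero, add_zero] at this
      refine this.congr fun n => ?_
      have hrn := (hr0 n).ne'
      simp only [hζ₁, hζ₂]
      field_simp
    · refine tendsto_nhds_unique hx12 ?_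
      have : Tendsto (fun n => 1 / 2 * (m₂₁ n * (r n * ζ₁ n) + (m₂₂ n + 1) * (r n * ζ₂ n))) 𝒰
          (𝓝 (1 / 2 * (0 * (r' * 0) + (1 + 1) * (r' * 0)))) :=
        ((hm₂₁.mul (hr'.mul z1)).add
          ((hm₂₂.add tendsto_const_nhds).mul (hr'.mul z2))).const_mul _
      simp only [mul_zero, add_zero] at this
      refine this.congr fun n => ?_
      have hrn := (hr0 n).ne'
      simp only [hζ₁, hζ₂]
      field_simp
    · refine tendsto_nhds_unique hx21 ?_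
      have : Tendsto (fun n => ζ₁ n • b₁ n + ζ₂ n • b₂ n) 𝒰 (𝓝 ((0 : ℝ) • B₁ + (0 : ℝ) • B₂)) :=
        (z1.smul hB₁).add (z2.smul hB₂)
      rw [zero_smul, zero_smul, add_zero] at this
      refine this.congr fun n => ?_
      have hε := (hε0 n).ne'
      have hrn := (hr0 n).ne'
      simp only [hζ₁, hζ₂, hb₁, hb₂, ha₁, ha₂, smul_smul]
      congr 2 <;> field_simp
  · -- a photon of the chart
    have hrinv : Tendsto (fun n => (r n)⁻¹) 𝒰 (𝓝 r'⁻¹) := hr'.inv₀ hr'0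
    have hinner : ⟪S B₁, B₁⟫ = ⟪B₁, B₂⟫ := by rw [hrel4, real_inner_comm]
    refine ⟨Ph S (r'⁻¹ • B₁) (r'⁻¹ ^ 2 * (E₂₁ + (1 / 4) * ⟪B₁, B₂⟫)), Or.inr ⟨_, _, rfl⟩, ?_⟩
    intro y x' hx
    have hx1 := ((continuous_fst.tendsto x').comp hx)
    have hx2 := ((continuous_snd.tendsto x').comp hx)
    have hx21 := ((continuous_fst.tendsto x'.2).comp hx2)
    have hx22 := ((continuous_snd.tendsto x'.2).comp hx2)
    have hx221 := ((continuous_fst.tendsto x'.2.2).comp hx22)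
    have hx222 := ((continuous_snd.tendsto x'.2.2).comp hx22)
    have hx11 := ((continuous_fst.tendsto x'.1).comp hx1)
    have hx12 := ((continuous_snd.tendsto x'.1).comp hx1)
    simp only [Function.comp_def] at hx11 hx12 hx21 hx221 hx222
    have hη := inv_lim (l := (𝒰 : Filter ℕ)) (a := fun n => (m₁₁ n + 1) / 2)
      (b := fun n => m₁₂ n / 2) (c := fun n => m₂₁ n / 2) (d := fun n => (m₂₂ n + 1) / 2)
      (y₁ := fun n => ε n * (y n).1) (y₂ := fun n => ε n * (y n).2)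
      ((hm₁₁.add tendsto_const_nhds).div_const 2) (hm₁₂.div_const 2) (hm₂₁.div_const 2)
      ((hm₂₂.add tendsto_const_nhds).div_const 2) (by norm_num)
      (hx11.congr fun n => by ring) (hx12.congr fun n => by ring)
    obtain ⟨hη1, hη2⟩ := hη
    norm_num at hη1 hη2
    have hq : x'.2.1 = x'.1.1 • (r'⁻¹ • B₁) + x'.1.2 • S (r'⁻¹ • B₁) := by
      refine tendsto_nhds_unique hx21 ?_
      have : Tendsto (fun n => (ε n * (y n).1) • ((r n)⁻¹ • b₁ n) +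
          (ε n * (y n).2) • ((r n)⁻¹ • b₂ n)) 𝒰
          (𝓝 (x'.1.1 • (r'⁻¹ • B₁) + x'.1.2 • (r'⁻¹ • B₂))) :=
        (hη1.smul (hrinv.smul hB₁)).add (hη2.smul (hrinv.smul hB₂))
      rw [map_smul, ← hrel4]
      refine this.congr fun n => ?_
      have hε := (hε0 n).ne'
      have hrn := (hr0 n).ne'
      simp only [hb₁, hb₂, ha₁, ha₂, smul_smul]
      congr 2 <;> field_simp
    refine ⟨hq, ?_, ?_⟩
    · have k : x'.2.2.1 = (r'⁻¹ ^ 2 * E₁₁) * x'.1.1 + (r'⁻¹ ^ 2 * E₁₂) * x'.1.2 := by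
        refine tendsto_nhds_unique hx221 ?_
        have : Tendsto (fun n => ((r n)⁻¹ ^ 2 * e₁₁ n) * (ε n * (y n).1) +
            ((r n)⁻¹ ^ 2 * e₁₂ n) * (ε n * (y n).2)) 𝒰
            (𝓝 ((r'⁻¹ ^ 2 * E₁₁) * x'.1.1 + (r'⁻¹ ^ 2 * E₁₂) * x'.1.2)) :=
          (((hrinv.pow 2).mul hE₁₁).mul hη1).add (((hrinv.pow 2).mul hE₁₂).mul hη2)
        refine this.congr fun n => ?_
        have hε := (hε0 n).ne'
        have hrn := (hr0 n).ne'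
        simp only [he₁₁, he₁₂, hd₁₁, hd₁₂]
        field_simp
      rw [k, hq]
      simp only [inner_add_right, inner_smul_left, inner_smul_right, map_smul, RCLike.conj_to_real,
        real_inner_self_eq_norm_sq]
      rw [show ⟪B₁, S B₁⟫ = ⟪B₁, B₂⟫ by rw [hrel4]]
      have e1 : E₁₁ = -(1 / 4) * ‖B₁‖ ^ 2 := by linarith
      have e2 : E₁₂ = -E₂₁ - (1 / 2) * ⟪B₁, B₂⟫ := by linarith
      rw [e1, e2]; ring
    · have k : x'.2.2.2 = (r'⁻¹ ^ 2 * E₂₁) * x'.1.1 + (r'⁻¹ ^ 2 * E₂₂) * x'.1.2 := by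
        refine tendsto_nhds_unique hx222 ?_
        have : Tendsto (fun n => ((r n)⁻¹ ^ 2 * e₂₁ n) * (ε n * (y n).1) +
            ((r n)⁻¹ ^ 2 * e₂₂ n) * (ε n * (y n).2)) 𝒰
            (𝓝 ((r'⁻¹ ^ 2 * E₂₁) * x'.1.1 + (r'⁻¹ ^ 2 * E₂₂) * x'.1.2)) :=
          (((hrinv.pow 2).mul hE₂₁).mul hη1).add (((hrinv.pow 2).mul hE₂₂).mul hη2)
        refine this.congr fun n => ?_
        have hε := (hε0 n).ne'
        have hrn := (hr0 n).ne'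
        simp only [he₂₁, he₂₂, hd₂₁, hd₂₂]
        field_simp
      rw [k, hq]
      simp only [inner_add_right, inner_smul_left, inner_smul_right, map_smul, RCLike.conj_to_real]
      rw [← hrel4, real_inner_self_eq_norm_sq, real_inner_comm B₁ B₂]
      have e1 : E₂₂ = -(1 / 4) * ‖B₂‖ ^ 2 := by linarith
      rw [e1]; ring

end Pool.Agent.H2.AdS
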