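import Pool.Agent.H2.AdS.Geo

/-!
# Limits of the dilated foliation
-/

set_option autoImplicit false

open scoped RealInnerProductSpace
open Filter Topology

namespace Pool.Agent.H2.AdS

/-- the graph property of `LamC` -/
theorem LamC_graph {Q : Type*} [NormedAddCommGroup Q] [InnerProductSpace ℝ Q]
    {S : Q →ₗ[ℝ] Q} {P : Submodule ℝ (W Q)} (hP : P ∈ LamC S) (y : ℝ × ℝ) :
    ∃ x ∈ P, x.1 - x.2.2 = y := by
  rcases hP with rfl | ⟨q, c, rfl⟩
  · exact ⟨(0, 0, -y), ⟨rfl, rfl⟩, by simp⟩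
  · let T : (ℝ × ℝ) →ₗ[ℝ] (ℝ × ℝ) :=
      { toFun := fun z => z - (pt S q c z).2.2
        map_add' := by
          intro z z'
          simp only [pt, NN_add_right, inner_add_right]
          refine Prod.ext ?_ ?_
          · simp only [Prod.fst_sub, Prod.fst_add, Prod.snd_add]; ring
          · simp only [Prod.snd_sub, Prod.fst_add, Prod.snd_add]; ring
        map_smul' := by
          intro a z
          simp only [pt, NN_smul_right, inner_smul_right]
          refine Prod.ext ?_ ?_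
          · simp only [Prod.fst_sub, Prod.smul_fst, Prod.smul_snd, smul_eq_mul,
              RingHom.id_apply]; ring
          · simp only [Prod.snd_sub, Prod.smul_fst, Prod.smul_snd, smul_eq_mul,
              RingHom.id_apply]; ring }
    have hinj : Function.Injective T := by
      rw [injective_iff_map_eq_zero]
      intro z hz
      have h1 : z = (pt S q c z).2.2 := sub_eq_zero.mp hz
      have h2 := iso_Ph (pt_mem S q c z) (pt_mem S q c z)
      have h3 : bW (pt S q c z) (pt S q c z) = ‖NN S q z‖ ^ 2 +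
          4 * (z.1 * (pt S q c z).2.2.1 + z.2 * (pt S q c z).2.2.2) := by
        rw [← real_inner_self_eq_norm_sq]
        simp only [bW, pt]; ring
      rw [h3, ← h1] at h2
      have h4 : z.1 = 0 := by nlinarith [sq_nonneg ‖NN S q z‖, sq_nonneg z.1, sq_nonneg z.2]
      have h5 : z.2 = 0 := by nlinarith [sq_nonneg ‖NN S q z‖, sq_nonneg z.1, sq_nonneg z.2]
      exact Prod.ext h4 h5
    obtain ⟨z, hz⟩ := (LinearMap.surjective_of_injective hinj) y
    exact ⟨pt S q c z, pt_mem S q c z, hz⟩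

variable {E : Type*} [NormedAddCommGroup E] [InnerProductSpace ℝ E]

/-- the linear foliation in the original coordinates -/
def LamW {v₀ w₀ : E} (h : OPair v₀ w₀) (S : QQ v₀ w₀ →ₗ[ℝ] QQ v₀ w₀) :
    Set (Submodule ℝ (V E)) :=
  {P | ∃ P' ∈ LamC S, P = P'.map (Theta h : W (QQ v₀ w₀) →ₗ[ℝ] V E)}

theorem isFol_LamW [FiniteDimensional ℝ E] {v₀ w₀ : E} (h : OPair v₀ w₀)
    {S : QQ v₀ w₀ →ₗ[ℝ] QQ v₀ w₀} (hS : ∀ q : QQ v₀ w₀, q ≠ 0 → ∀ c : ℝ, S q ≠ c • q) :
    IsFol (LamW h S) where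
  iso := by
    rintro P ⟨P', hP', rfl⟩ x hx y hy
    obtain ⟨x', hx', rfl⟩ := Submodule.mem_map.mp hx
    obtain ⟨y', hy', rfl⟩ := Submodule.mem_map.mp hy
    have := form_Theta h x' y'
    rw [LamC_iso hP' hx' hy'] at this
    exact this
  graph := by
    rintro P ⟨P', hP', rfl⟩ y
    obtain ⟨x, hx, hxy⟩ := LamC_graph hP' y
    refine ⟨Theta h x, Submodule.mem_map_of_mem hx, ?_⟩
    rw [← hxy]
    rfl
  cov := by
    intro x hx0 hx
    have h1 : bW ((Theta h).symm x) ((Theta h).symm x) = 0 := by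
      rw [← form_Theta h, LinearEquiv.apply_symm_apply]; exact hx
    obtain ⟨P', hP', hxP⟩ := LamC_cov hS _ h1
    refine ⟨P'.map (Theta h : W (QQ v₀ w₀) →ₗ[ℝ] V E), ⟨P', hP', rfl⟩, ?_⟩
    exact Submodule.mem_map.mpr ⟨_, hxP, by simp⟩
  uni := by
    rintro P ⟨P₁, hP₁, rfl⟩ P' ⟨P₂, hP₂, rfl⟩ x hx0 hx hx'
    obtain ⟨x₁, hx₁, h1⟩ := Submodule.mem_map.mp hx
    obtain ⟨x₂, hx₂, h2⟩ := Submodule.mem_map.mp hx'
    have h3 : x₁ = x₂ := (Theta h).injective (h1.trans h2.symm)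
    subst h3
    have h4 : x₁ ≠ 0 := by
      rintro rfl
      apply hx0
      rw [← h1]; simp
    rw [LamC_uni hS hP₁ hP₂ h4 hx₁ hx₂]

/-- the dilations in the original coordinates -/
noncomputable def AA {v₀ w₀ : E} (h : OPair v₀ w₀) (n : ℕ) : V E ≃ₗ[ℝ] V E :=
  (Theta h).symm.trans ((dil (Real.exp (-n)) (Real.exp_ne_zero _)).trans (Theta h))

theorem form_AA {v₀ w₀ : E} (h : OPair v₀ w₀) (n : ℕ) (x y : V E) :
    form (AA h n x) (AA h n y) = form x y := by
  simp only [AA, LinearEquiv.trans_apply]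
  rw [form_Theta, bW_dil, ← form_Theta h, LinearEquiv.apply_symm_apply,
    LinearEquiv.apply_symm_apply]

/-- **Limits along the dilations.** -/
theorem bu_main [FiniteDimensional ℝ E] {f : E → E} (hf : PhotonFoliation f) {v₀ : E}
    (hv₀ : ‖v₀‖ = 1) {L : E →ₗ[ℝ] E} (hL : WeakDiffAt f v₀ L)
    (hS : ∀ q : QQ v₀ (f v₀), q ≠ 0 → ∀ c : ℝ, SL (opair hf hv₀) L q ≠ c • q)
    (𝒰 : Ultrafilter ℕ) (h𝒰 : (𝒰 : Filter ℕ) ≤ atTop) :
    ∀ (P : ℕ → Submodule ℝ (V E)) (u w : ℕ → V E) (u' w' : V E),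
      (∀ n, P n ∈ LamF f ∧ u n ∈ P n ∧ w n ∈ P n) →
      Tendsto (fun n => AA (opair hf hv₀) n (u n)) 𝒰 (𝓝 u') →
      Tendsto (fun n => AA (opair hf hv₀) n (w n)) 𝒰 (𝓝 w') →
      ∃ P' ∈ LamW (opair hf hv₀) (SL (opair hf hv₀) L), u' ∈ P' ∧ w' ∈ P' := by
  set h := opair hf hv₀ with hh
  set S := SL h L with hSdef
  intro P u w u' w' hP hu hw
  choose v hv hPv using fun n => (hP n).1
  have hnb : NeBot (𝒰 : Filter ℕ) := 𝒰.neBot
  obtain ⟨v', hv', -⟩ := ultra_lim 𝒰 (u := v) (C := 1) fun n => (hv n).le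
  have hv'n : ‖v'‖ = 1 := by
    refine tendsto_nhds_unique hv'.norm ?_
    exact tendsto_const_nhds.congr fun n => (hv n).symm
  have hfv : Tendsto (fun n => f (v n)) 𝒰 (𝓝 (f v')) := by
    have h1 := hf.continuousOn v' (by simpa using hv'n)
    refine h1.tendsto.comp (tendsto_nhdsWithin_iff.mpr ⟨hv', Eventually.of_forall fun n => ?_⟩)
    simpa using hv n
  have hε : Tendsto (fun n : ℕ => Real.exp (-(n : ℝ))) 𝒰 (𝓝 0) :=
    ((Real.tendsto_exp_atBot.comp tendsto_neg_atTop_atBot).comp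
      tendsto_natCast_atTop_atTop).mono_left h𝒰
  -- the coordinates
  have hprc : Continuous (prQ h) := (prQ h).continuous_of_finiteDimensional
  have hm₁₁ : Tendsto (fun n => ⟪v₀, v n⟫) 𝒰 (𝓝 ⟪v₀, v'⟫) := tendsto_const_nhds.inner hv'
  have hm₁₂ : Tendsto (fun n => ⟪v₀, f (v n)⟫) 𝒰 (𝓝 ⟪v₀, f v'⟫) := tendsto_const_nhds.inner hfv
  have hm₂₁ : Tendsto (fun n => ⟪f v₀, v n⟫) 𝒰 (𝓝 ⟪f v₀, v'⟫) := tendsto_const_nhds.inner hv'
  have hm₂₂ : Tendsto (fun n => ⟪f v₀, f (v n)⟫) 𝒰 (𝓝 ⟪f v₀, f v'⟫) :=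
    tendsto_const_nhds.inner hfv
  have hp₁ : Tendsto (fun n => prQ h (v n)) 𝒰 (𝓝 (prQ h v')) := (hprc.tendsto _).comp hv'
  have hp₂ : Tendsto (fun n => prQ h (f (v n))) 𝒰 (𝓝 (prQ h (f v'))) := (hprc.tendsto _).comp hfv
  -- the form of the vectors
  have hvec : ∀ (z : ℕ → V E) (z' : V E), (∀ n, z n ∈ P n) →
      Tendsto (fun n => AA h n (z n)) 𝒰 (𝓝 z') →
      Tendsto (fun n : ℕ => (((Real.exp (-(n : ℝ)) / 2 * ((⟪v₀, v n⟫ + 1) * (z n).2.1 +
        ⟪v₀, f (v n)⟫ * (z n).2.2),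
        Real.exp (-(n : ℝ)) / 2 * (⟪f v₀, v n⟫ * (z n).2.1 + (⟪f v₀, f (v n)⟫ + 1) * (z n).2.2)),
        (z n).2.1 • prQ h (v n) + (z n).2.2 • prQ h (f (v n)),
        (1 / (2 * Real.exp (-(n : ℝ))) * ((⟪v₀, v n⟫ - 1) * (z n).2.1 + ⟪v₀, f (v n)⟫ * (z n).2.2),
        1 / (2 * Real.exp (-(n : ℝ))) * (⟪f v₀, v n⟫ * (z n).2.1 +
          (⟪f v₀, f (v n)⟫ - 1) * (z n).2.2))) : W (QQ v₀ (f v₀)))) 𝒰
        (𝓝 ((Theta h).symm z')) := by
    intro z z' hz hlim
    have hTc : Continuous (Theta h).symm := (Theta h).symm.toLinearMap.continuous_of_finiteDimensional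
    refine ((hTc.tendsto z').comp hlim).congr fun n => ?_
    have hz1 : (z n).1 = (z n).2.1 • v n + (z n).2.2 • f (v n) := by
      have := hz n
      rw [hPv n] at this
      exact this
    simp only [Function.comp_def, AA, LinearEquiv.trans_apply, LinearEquiv.symm_apply_apply,
      dil_apply, Theta_symm_apply, hz1, map_add, map_smul, inner_add_right, inner_smul_right]
    have he := Real.exp_ne_zero (-(n : ℝ))
    refine Prod.ext (Prod.ext ?_ ?_) (Prod.ext ?_ (Prod.ext ?_ ?_))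
    · simp only [Prod.smul_fst, smul_eq_mul]; ring
    · simp only [Prod.smul_snd, smul_eq_mul]; ring
    · rfl
    · simp only [Prod.smul_fst, smul_eq_mul]; field_simp; ring
    · simp only [Prod.smul_snd, smul_eq_mul]; field_simp; ring
  have hu2 := hvec u u' (fun n => (hP n).2.1) hu
  have hw2 := hvec w w' (fun n => (hP n).2.2) hw
  by_cases hv'0 : v' = v₀
  · -- photons near the centre
    subst hv'0
    have e1 : ⟪v', v'⟫ = 1 := by rw [real_inner_self_eq_norm_sq, hv'n]; norm_num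
    have e2 : ⟪f v', f v'⟫ = 1 := by
      rw [real_inner_self_eq_norm_sq, hf.norm_eq v' hv'n]; norm_num
    have e3 : ⟪v', f v'⟫ = 0 := hf.inner_eq v' hv'n
    have e4 : ⟪f v', v'⟫ = 0 := by rw [real_inner_comm]; exact e3
    rw [e1] at hm₁₁
    rw [e3] at hm₁₂
    rw [e4] at hm₂₁
    rw [e2] at hm₂₂
    obtain ⟨P', hP', hP'2⟩ := blow_core (S := S) hS 𝒰 (ε := fun n : ℕ => Real.exp (-(n : ℝ)))
      (fun n => Real.exp_pos _) (m₁₁ := fun n => ⟪v', v n⟫) (m₁₂ := fun n => ⟪v', f (v n)⟫)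
      (m₂₁ := fun n => ⟪f v', v n⟫) (m₂₂ := fun n => ⟪f v', f (v n)⟫)
      (p₁ := fun n => prQ h (v n)) (p₂ := fun n => prQ h (f (v n)))
      (fun n => by
        have := inner_decomp h (v n) (v n)
        simp only [real_inner_self_eq_norm_sq, hv n] at this
        nlinarith)
      (fun n => by
        have := inner_decomp h (f (v n)) (f (v n))
        simp only [real_inner_self_eq_norm_sq, hf.norm_eq _ (hv n)] at this
        nlinarith)
      (fun n => by
        have := inner_decomp h (v n) (f (v n))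
        rw [hf.inner_eq _ (hv n)] at this
        exact this.symm)
      hm₁₁ hm₁₂ hm₂₁ hm₂₂ (fun δ hδ => hor_est hf hv₀ hL hv hv' δ hδ)
    refine ⟨P'.map (Theta h : W (QQ v' (f v')) →ₗ[ℝ] V E), ⟨P', hP', rfl⟩, ?_, ?_⟩
    · exact Submodule.mem_map.mpr ⟨_, hP'2 (fun n => (u n).2) _ hu2, by simp⟩
    · exact Submodule.mem_map.mpr ⟨_, hP'2 (fun n => (w n).2) _ hw2, by simp⟩
  · -- photons far from the centre
    have hdet : (⟪v₀, v'⟫ - 1) * (⟪f v₀, f v'⟫ - 1) - ⟪v₀, f v'⟫ * ⟪f v₀, v'⟫ ≠ 0 := by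
      intro hdet
      apply hv'0
      have h1 : (!![⟪v₀, v'⟫ - 1, ⟪v₀, f v'⟫; ⟪f v₀, v'⟫, ⟪f v₀, f v'⟫ - 1] :
          Matrix (Fin 2) (Fin 2) ℝ).det = 0 := by
        rw [Matrix.det_fin_two_of]; exact hdet
      obtain ⟨y, hy0, hy⟩ := Matrix.exists_mulVec_eq_zero_iff.mpr h1
      have hy1 := congrFun hy 0
      have hy2 := congrFun hy 1
      simp [Matrix.mulVec, dotProduct, Fin.sum_univ_two] at hy1 hy2
      set X := y 0 • v' + y 1 • f v' with hX
      have hX1 : ⟪v₀, X⟫ = y 0 := by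
        simp only [hX, inner_add_right, inner_smul_right]; linarith
      have hX2 : ⟪f v₀, X⟫ = y 1 := by
        simp only [hX, inner_add_right, inner_smul_right]; linarith
      have hXn : ‖X‖ ^ 2 = y 0 ^ 2 + y 1 ^ 2 := by
        rw [← real_inner_self_eq_norm_sq]
        have e1 : ⟪f v', v'⟫ = 0 := by rw [real_inner_comm]; exact hf.inner_eq v' hv'n
        simp only [hX, inner_add_left, inner_add_right, inner_smul_left, inner_smul_right,
          real_inner_self_eq_norm_sq, hv'n, hf.norm_eq v' hv'n, hf.inner_eq v' hv'n, e1,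
          RCLike.conj_to_real]
        ring
      have hXp : prQ h X = 0 := by
        have h2 := inner_decomp h X X
        rw [real_inner_self_eq_norm_sq, hXn, hX1, hX2, real_inner_self_eq_norm_sq] at h2
        have h3 : ‖prQ h X‖ ^ 2 = 0 := by linarith
        exact norm_eq_zero.mp (pow_eq_zero_iff two_ne_zero |>.mp h3)
      have hXe : X = y 0 • v₀ + y 1 • f v₀ := by
        have h2 := decomp h X
        rw [hX1, hX2, hXp] at h2
        simpa using h2
      have hx0 : ((X, y 0, y 1) : V E) ≠ 0 := by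
        intro h2
        apply hy0
        have h3 : y 0 = 0 := congrArg (fun x : V E => x.2.1) h2
        have h4 : y 1 = 0 := congrArg (fun x : V E => x.2.2) h2
        funext i
        fin_cases i
        · exact h3
        · exact h4
      exact phot_eq hf hv'n hv₀ hx0 (show ((X, y 0, y 1) : V E) ∈ phot f v' from rfl)
        (show ((X, y 0, y 1) : V E) ∈ phot f v₀ from hXe)
    have key : ∀ (z : ℕ → V E) (z' : V E), (∀ n, z n ∈ P n) →
        Tendsto (fun n => AA h n (z n)) 𝒰 (𝓝 z') → (Theta h).symm z' ∈ Pp (QQ v₀ (f v₀)) := by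
      intro z z' hz hlim
      exact blow_far (fun n : ℕ => Real.exp_pos (-(n : ℝ))) hε hm₁₁ hm₁₂ hm₂₁ hm₂₂ hp₁ hp₂ hdet
        (fun n => (z n).2) _ (hvec z z' hz hlim)
    refine ⟨(Pp (QQ v₀ (f v₀))).map (Theta h : W (QQ v₀ (f v₀)) →ₗ[ℝ] V E),
      ⟨Pp _, Or.inl rfl, rfl⟩, ?_, ?_⟩
    · exact Submodule.mem_map.mpr ⟨_, key u u' (fun n => (hP n).2.1) hu, by simp⟩
    · exact Submodule.mem_map.mpr ⟨_, key w w' (fun n => (hP n).2.2) hw, by simp⟩

end Pool.Agent.H2.AdS
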