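import Pool.Agent.H2.AdS.Geo

/-!
# The photon foliation of a complex structure

An isometric complex structure `J` of `V E` gives a smooth photon foliation by `J`-invariant
photons, and its derivative is nondegenerate at every point.
-/

set_option autoImplicit false

open scoped RealInnerProductSpace
open Filter Topology

namespace Pool.Agent.H2.AdS

variable {E : Type*} [NormedAddCommGroup E] [InnerProductSpace ℝ E]

/-- the vector `(v, 1, 0)` -/
def nC (v : E) : V E := (v, 1, 0)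

theorem nC_fst (v : E) : (nC v).1 = v := rfl

theorem nC_snd_fst (v : E) : (nC v).2.1 = 1 := rfl

theorem nC_snd_snd (v : E) : (nC v).2.2 = 0 := rfl

theorem conv_nC_ne (v : E) : nC v ≠ 0 := by
  intro h
  have h1 := congrArg (fun x : V E => x.2.1) h
  simp [nC] at h1

theorem conv_form_nC {v : E} (hv : ‖v‖ = 1) : form (nC v) (nC v) = 0 := by
  simp [form, nC, hv]

theorem conv_norm {u : V E} (hu : form u u = 0) (h2 : u.2 = (1, 0)) : ‖u.1‖ = 1 := by
  unfold form at hu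
  rw [h2, real_inner_self_eq_norm_sq] at hu
  have h0 := norm_nonneg u.1
  simp only at hu
  nlinarith

/-- the photon map of a complex structure -/
noncomputable def fJ (J : V E →ₗ[ℝ] V E) (v : E) : E :=
  ((J (nC v)).2.2)⁻¹ • ((J (nC v)).1 - (J (nC v)).2.1 • v)

section

variable {J : V E →ₗ[ℝ] V E}

theorem conv_form_J (hJ : ∀ x, J (J x) = -x) (hJb : ∀ x y, form (J x) (J y) = form x y)
    (x : V E) : form x (J x) = 0 := by
  have h1 := hJb x (J x)
  rw [hJ, form_neg_right, form_comm (J x) x] at h1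
  linarith

theorem conv_form_span (hJ : ∀ x, J (J x) = -x) (hJb : ∀ x y, form (J x) (J y) = form x y)
    {u : V E} (hu : form u u = 0) (α β : ℝ) :
    form (α • u + β • J u) (α • u + β • J u) = 0 := by
  rw [form_add_left, form_add_right, form_add_right]
  simp only [form_smul_left, form_smul_right]
  rw [hJb, hu, form_comm (J u) u, conv_form_J hJ hJb]
  ring

theorem conv_inv (hJ : ∀ x, J (J x) = -x) {u n : V E} {α β : ℝ} (h : n = α • u + β • J u) :
    α • n - β • J n = (α ^ 2 + β ^ 2) • u := by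
  rw [h]
  simp only [map_add, map_smul, hJ]
  module

theorem conv_indep (hJ : ∀ x, J (J x) = -x) {u : V E} (hu : u ≠ 0) {α β : ℝ}
    (h : α • u + β • J u = 0) : α = 0 ∧ β = 0 := by
  have h1 := conv_inv hJ h.symm
  rw [map_zero, smul_zero, smul_zero, sub_zero] at h1
  have h2 : α ^ 2 + β ^ 2 = 0 := (smul_eq_zero.mp h1.symm).resolve_right hu
  constructor
  · nlinarith [sq_nonneg α, sq_nonneg β]
  · nlinarith [sq_nonneg α, sq_nonneg β]

theorem conv_exists (hJ : ∀ x, J (J x) = -x) (hJb : ∀ x y, form (J x) (J y) = form x y)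
    {u : V E} (hu0 : u ≠ 0) (hu : form u u = 0) :
    ∃ α β : ℝ, α ^ 2 + β ^ 2 ≠ 0 ∧ (α • u + β • J u).2 = (1, 0) := by
  have hD : u.2.1 * (J u).2.2 - u.2.2 * (J u).2.1 ≠ 0 := by
    intro hD
    have h1 : (J u).2.2 • u + (-u.2.2) • J u = 0 := by
      apply eq_zero_of_snd (conv_form_span hJ hJb hu _ _)
      refine Prod.ext ?_ ?_
      · simp only [Prod.snd_add, Prod.fst_add, Prod.smul_snd, Prod.smul_fst, smul_eq_mul,
          Prod.fst_zero]
        linarith
      · simp only [Prod.snd_add, Prod.smul_snd, smul_eq_mul, Prod.snd_zero]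
        ring
    have h2 : (J u).2.1 • u + (-u.2.1) • J u = 0 := by
      apply eq_zero_of_snd (conv_form_span hJ hJb hu _ _)
      refine Prod.ext ?_ ?_
      · simp only [Prod.snd_add, Prod.fst_add, Prod.smul_snd, Prod.smul_fst, smul_eq_mul,
          Prod.fst_zero]
        ring
      · simp only [Prod.snd_add, Prod.smul_snd, smul_eq_mul, Prod.snd_zero]
        linarith
    have h3 := (conv_indep hJ hu0 h1).2
    have h4 := (conv_indep hJ hu0 h2).2
    apply hu0
    apply eq_zero_of_snd hu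
    exact Prod.ext (by simpa using h4) (by simpa using h3)
  refine ⟨(J u).2.2 / (u.2.1 * (J u).2.2 - u.2.2 * (J u).2.1),
    -(u.2.2 / (u.2.1 * (J u).2.2 - u.2.2 * (J u).2.1)), ?_, ?_⟩
  · intro h
    have h1 : (J u).2.2 / (u.2.1 * (J u).2.2 - u.2.2 * (J u).2.1) = 0 := by
      nlinarith [sq_nonneg ((J u).2.2 / (u.2.1 * (J u).2.2 - u.2.2 * (J u).2.1)),
        sq_nonneg (-(u.2.2 / (u.2.1 * (J u).2.2 - u.2.2 * (J u).2.1)))]
    have h2 : -(u.2.2 / (u.2.1 * (J u).2.2 - u.2.2 * (J u).2.1)) = 0 := by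
      nlinarith [sq_nonneg ((J u).2.2 / (u.2.1 * (J u).2.2 - u.2.2 * (J u).2.1)),
        sq_nonneg (-(u.2.2 / (u.2.1 * (J u).2.2 - u.2.2 * (J u).2.1)))]
    rw [div_eq_zero_iff] at h1
    rw [neg_eq_zero, div_eq_zero_iff] at h2
    have h3 := h1.resolve_right hD
    have h4 := h2.resolve_right hD
    apply hD
    rw [h3, h4]
    ring
  · refine Prod.ext ?_ ?_
    · simp only [Prod.snd_add, Prod.fst_add, Prod.smul_snd, Prod.smul_fst, smul_eq_mul]
      have h1 : (J u).2.2 / (u.2.1 * (J u).2.2 - u.2.2 * (J u).2.1) * u.2.1 +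
          -(u.2.2 / (u.2.1 * (J u).2.2 - u.2.2 * (J u).2.1)) * (J u).2.1 =
          (u.2.1 * (J u).2.2 - u.2.2 * (J u).2.1) / (u.2.1 * (J u).2.2 - u.2.2 * (J u).2.1) := by
        ring
      rw [h1, div_self hD]
    · simp only [Prod.snd_add, Prod.smul_snd, smul_eq_mul]
      ring

theorem conv_b_ne (hJ : ∀ x, J (J x) = -x) (hJb : ∀ x y, form (J x) (J y) = form x y)
    {v : E} (hv : ‖v‖ = 1) : (J (nC v)).2.2 ≠ 0 := by
  intro hb
  have h1 : (J (nC v)).2.1 • nC v + (-1 : ℝ) • J (nC v) = 0 := by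
    apply eq_zero_of_snd (conv_form_span hJ hJb (conv_form_nC hv) _ _)
    refine Prod.ext ?_ ?_
    · simp [nC]
    · simp only [Prod.snd_add, Prod.smul_snd, smul_eq_mul, hb]
      simp [nC]
  have h2 := (conv_indep hJ (conv_nC_ne v) h1).2
  norm_num at h2

theorem conv_fst {v : E} (hb : (J (nC v)).2.2 ≠ 0) :
    (J (nC v)).1 = (J (nC v)).2.1 • v + (J (nC v)).2.2 • fJ J v := by
  unfold fJ
  rw [smul_smul, mul_inv_cancel₀ hb, one_smul]
  abel

theorem conv_inner (hJ : ∀ x, J (J x) = -x) (hJb : ∀ x y, form (J x) (J y) = form x y)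
    {v : E} (hv : ‖v‖ = 1) : ⟪v, fJ J v⟫ = 0 := by
  have h1 := conv_form_J hJ hJb (nC v)
  simp only [form, nC] at h1
  unfold fJ
  rw [inner_smul_right, inner_sub_right, inner_smul_right, real_inner_self_eq_norm_sq, hv]
  simp only [nC]
  have : ⟪v, (J (v, 1, 0)).1⟫ - (J (v, 1, 0)).2.1 * 1 ^ 2 = 0 := by linarith
  rw [this, mul_zero]

theorem conv_norm_f (hJ : ∀ x, J (J x) = -x) (hJb : ∀ x y, form (J x) (J y) = form x y)
    {v : E} (hv : ‖v‖ = 1) : ‖fJ J v‖ = 1 := by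
  have hb := conv_b_ne hJ hJb hv
  have h1 : form (J (nC v)) (J (nC v)) = 0 := by rw [hJb]; exact conv_form_nC hv
  unfold form at h1
  rw [conv_fst hb] at h1
  have h2 := conv_inner hJ hJb hv
  simp only [inner_add_left, inner_add_right, inner_smul_left, inner_smul_right,
    real_inner_self_eq_norm_sq, hv, h2, real_inner_comm v (fJ J v), RCLike.conj_to_real] at h1
  have h3 : ((J (nC v)).2.2) ^ 2 * (‖fJ J v‖ ^ 2 - 1) = 0 := by linarith
  have h4 : ‖fJ J v‖ ^ 2 - 1 = 0 := (mul_eq_zero.mp h3).resolve_left (pow_ne_zero 2 hb)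
  have h0 := norm_nonneg (fJ J v)
  nlinarith

theorem conv_mem (hJ : ∀ x, J (J x) = -x) (hJb : ∀ x y, form (J x) (J y) = form x y)
    {v : E} (hv : ‖v‖ = 1) {x : V E} :
    x ∈ phot (fJ J) v ↔ ∃ α β : ℝ, x = α • nC v + β • J (nC v) := by
  have hb := conv_b_ne hJ hJb hv
  have hf := conv_fst hb
  constructor
  · intro hx
    rw [mem_phot] at hx
    refine ⟨x.2.1 - x.2.2 / (J (nC v)).2.2 * (J (nC v)).2.1, x.2.2 / (J (nC v)).2.2, ?_⟩
    refine Prod.ext ?_ (Prod.ext ?_ ?_)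
    · simp only [Prod.fst_add, Prod.smul_fst]
      rw [hx, hf, nC_fst, smul_add, smul_smul, smul_smul, div_mul_cancel₀ _ hb]
      module
    · simp only [Prod.snd_add, Prod.smul_snd, Prod.fst_add, Prod.smul_fst, smul_eq_mul,
        nC_snd_fst]
      ring
    · simp only [Prod.snd_add, Prod.smul_snd, smul_eq_mul, nC_snd_snd]
      rw [div_mul_cancel₀ _ hb, mul_zero, zero_add]
  · rintro ⟨α, β, rfl⟩
    rw [mem_phot]
    simp only [Prod.snd_add, Prod.smul_snd, Prod.fst_add, Prod.smul_fst, smul_eq_mul,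
      nC_fst, nC_snd_fst, nC_snd_snd]
    rw [hf]
    module

theorem conv_J_mem (hJ : ∀ x, J (J x) = -x) (hJb : ∀ x y, form (J x) (J y) = form x y)
    {v : E} (hv : ‖v‖ = 1) {x : V E} (hx : x ∈ phot (fJ J) v) : J x ∈ phot (fJ J) v := by
  rw [conv_mem hJ hJb hv] at hx ⊢
  obtain ⟨α, β, rfl⟩ := hx
  refine ⟨-β, α, ?_⟩
  simp only [map_add, map_smul, hJ]
  module

/-- every isotropic vector lies in a photon -/
theorem conv_cov (hJ : ∀ x, J (J x) = -x) (hJb : ∀ x y, form (J x) (J y) = form x y)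
    {u : V E} (hu0 : u ≠ 0) (hu : form u u = 0) : ∃ v : E, ‖v‖ = 1 ∧ u ∈ phot (fJ J) v := by
  obtain ⟨α, β, hαβ, h2⟩ := conv_exists hJ hJb hu0 hu
  have hv := conv_norm (conv_form_span hJ hJb hu α β) h2
  refine ⟨(α • u + β • J u).1, hv, ?_⟩
  rw [conv_mem hJ hJb hv]
  have hn : nC (α • u + β • J u).1 = α • u + β • J u := Prod.ext rfl h2.symm
  refine ⟨(α ^ 2 + β ^ 2)⁻¹ * α, -((α ^ 2 + β ^ 2)⁻¹ * β), ?_⟩
  have h3 := conv_inv hJ hn
  rw [neg_smul, ← sub_eq_add_neg, mul_smul, mul_smul, ← smul_sub, h3, smul_smul,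
    inv_mul_cancel₀ hαβ, one_smul]

/-- the vector `(v, 1, 0)` in terms of another vector of the photon -/
theorem conv_nC_of_mem (hJ : ∀ x, J (J x) = -x) (hJb : ∀ x y, form (J x) (J y) = form x y)
    {v : E} (hv : ‖v‖ = 1) {u : V E} (hu0 : u ≠ 0) (hu : u ∈ phot (fJ J) v) :
    ∃ γ δ : ℝ, nC v = γ • u + δ • J u := by
  obtain ⟨α, β, hx⟩ := (conv_mem hJ hJb hv).mp hu
  have h3 := conv_inv hJ hx
  have hne : α ^ 2 + β ^ 2 ≠ 0 := by
    intro h
    have h1 : α = 0 := by nlinarith [sq_nonneg α, sq_nonneg β]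
    have h2 : β = 0 := by nlinarith [sq_nonneg α, sq_nonneg β]
    apply hu0
    rw [hx, h1, h2]
    simp
  refine ⟨(α ^ 2 + β ^ 2)⁻¹ * α, -((α ^ 2 + β ^ 2)⁻¹ * β), ?_⟩
  rw [neg_smul, ← sub_eq_add_neg, mul_smul, mul_smul, ← smul_sub, h3, smul_smul,
    inv_mul_cancel₀ hne, one_smul]

/-- the photon through an isotropic vector is unique -/
theorem conv_uni (hJ : ∀ x, J (J x) = -x) (hJb : ∀ x y, form (J x) (J y) = form x y)
    {v v' : E} (hv : ‖v‖ = 1) (hv' : ‖v'‖ = 1) {u : V E} (hu0 : u ≠ 0) (hiso : form u u = 0)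
    (hu : u ∈ phot (fJ J) v) (hu' : u ∈ phot (fJ J) v') : v = v' := by
  obtain ⟨γ, δ, h1⟩ := conv_nC_of_mem hJ hJb hv hu0 hu
  obtain ⟨γ', δ', h2⟩ := conv_nC_of_mem hJ hJb hv' hu0 hu'
  have h3 : (γ - γ') • u + (δ - δ') • J u = nC v - nC v' := by
    rw [h1, h2]
    module
  have h4 := conv_form_span hJ hJb hiso (γ - γ') (δ - δ')
  rw [h3] at h4
  have h5 := eq_zero_of_snd h4 (by simp [nC])
  exact congrArg Prod.fst (sub_eq_zero.mp h5)

theorem conv_cont [FiniteDimensional ℝ E] (J : V E →ₗ[ℝ] V E) :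
    ContDiff ℝ ⊤ (fun v : E => J (nC v)) := by
  have h1 : ContDiff ℝ ⊤ (fun v : E => (nC v : V E)) :=
    contDiff_id.prodMk (contDiff_const (c := ((1 : ℝ), (0 : ℝ))))
  exact (LinearMap.toContinuousLinearMap J).contDiff.comp h1

theorem conv_smooth [FiniteDimensional ℝ E] (J : V E →ₗ[ℝ] V E) :
    ContDiffOn ℝ ⊤ (fJ J) {v | (J (nC v)).2.2 ≠ 0} := by
  have h1 := conv_cont J
  have h2 : ContDiff ℝ ⊤ (fun v : E => (J (nC v)).1) := h1.fst
  have h3 : ContDiff ℝ ⊤ (fun v : E => (J (nC v)).2.1) := h1.snd.fst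
  have h4 : ContDiff ℝ ⊤ (fun v : E => (J (nC v)).2.2) := h1.snd.snd
  unfold fJ
  exact (h4.contDiffOn.inv (fun v hv => hv)).smul (h2.sub (h3.smul contDiff_id)).contDiffOn

theorem conv_open [FiniteDimensional ℝ E] (J : V E →ₗ[ℝ] V E) :
    IsOpen {v : E | (J (nC v)).2.2 ≠ 0} := by
  have h4 : Continuous (fun v : E => (J (nC v)).2.2) := (conv_cont J).continuous.snd.snd
  exact isOpen_ne_fun h4 continuous_const

theorem conv_fol [FiniteDimensional ℝ E] (hJ : ∀ x, J (J x) = -x)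
    (hJb : ∀ x y, form (J x) (J y) = form x y) : PhotonFoliation (fJ J) where
  continuousOn := (conv_smooth J).continuousOn.mono fun v hv =>
    conv_b_ne hJ hJb (by simpa using hv)
  norm_eq := fun v hv => conv_norm_f hJ hJb hv
  inner_eq := fun v hv => conv_inner hJ hJb hv
  bijOn := by
    intro s t hst
    have hne : ∀ z : E, ((z, s, t) : V E) ≠ 0 := by
      intro z h
      have h1 : s = 0 := congrArg (fun x : V E => x.2.1) h
      have h2 : t = 0 := congrArg (fun x : V E => x.2.2) h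
      rw [h1, h2] at hst
      norm_num at hst
    have hiso : ∀ z : E, ‖z‖ = 1 → form ((z, s, t) : V E) (z, s, t) = 0 := by
      intro z hz
      simp only [form, real_inner_self_eq_norm_sq, hz]
      linarith
    have hn : ∀ v : E, ‖v‖ = 1 → ‖s • v + t • fJ J v‖ = 1 := by
      intro v hv
      have h1 : ‖s • v + t • fJ J v‖ ^ 2 = 1 := by
        rw [← real_inner_self_eq_norm_sq]
        simp only [inner_add_left, inner_add_right, inner_smul_left, inner_smul_right,
          real_inner_self_eq_norm_sq, hv, conv_inner hJ hJb hv, real_inner_comm v (fJ J v),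
          conv_norm_f hJ hJb hv, RCLike.conj_to_real]
        linarith
      have h0 := norm_nonneg (s • v + t • fJ J v)
      nlinarith
    refine ⟨?_, ?_, ?_⟩
    · intro v hv
      rw [mem_sphere_zero_iff_norm] at hv ⊢
      exact hn v hv
    · intro v hv v' hv' h
      rw [mem_sphere_zero_iff_norm] at hv hv'
      have h' : s • v + t • fJ J v = s • v' + t • fJ J v' := h
      refine conv_uni hJ hJb hv hv' (hne (s • v + t • fJ J v)) (hiso _ (hn v hv)) ?_ ?_
      · rw [mem_phot]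
      · rw [mem_phot]
        exact h'
    · intro z hz
      rw [mem_sphere_zero_iff_norm] at hz
      obtain ⟨v, hv, h1⟩ := conv_cov hJ hJb (hne z) (hiso z hz)
      rw [mem_phot] at h1
      exact ⟨v, by rwa [mem_sphere_zero_iff_norm], h1.symm⟩

theorem conv_map (hJ : ∀ x, J (J x) = -x)
    (hJb : ∀ x y, form (J x) (J y) = form x y) (γ : V E ≃ₗ[ℝ] V E)
    (hγ : ∀ x y, form (γ x) (γ y) = form x y) (hγJ : ∀ x, γ (J x) = J (γ x))
    (v : E) (hv : ‖v‖ = 1) : ∃ w : E, ‖w‖ = 1 ∧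
      (phot (fJ J) v).map (γ : V E →ₗ[ℝ] V E) = phot (fJ J) w := by
  have hu0 : γ (nC v) ≠ 0 := by
    intro h
    exact conv_nC_ne v ((LinearEquiv.map_eq_zero_iff γ).mp h)
  have hu : form (γ (nC v)) (γ (nC v)) = 0 := by rw [hγ]; exact conv_form_nC hv
  obtain ⟨w, hw, hmem⟩ := conv_cov hJ hJb hu0 hu
  refine ⟨w, hw, le_antisymm ?_ ?_⟩
  · rintro _ ⟨x, hx, rfl⟩
    obtain ⟨α, β, rfl⟩ := (conv_mem hJ hJb hv).mp hx
    have h1 : (γ : V E →ₗ[ℝ] V E) (α • nC v + β • J (nC v)) =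
        α • γ (nC v) + β • J (γ (nC v)) := by
      rw [LinearEquiv.coe_coe, map_add, map_smul, map_smul, hγJ]
    rw [h1]
    exact Submodule.add_mem _ (Submodule.smul_mem _ _ hmem)
      (Submodule.smul_mem _ _ (conv_J_mem hJ hJb hw hmem))
  · intro y hy
    obtain ⟨c, d, rfl⟩ := (conv_mem hJ hJb hw).mp hy
    obtain ⟨α, β, h1⟩ := conv_nC_of_mem hJ hJb hw hu0 hmem
    have hn : nC v ∈ phot (fJ J) v := (conv_mem hJ hJb hv).mpr ⟨1, 0, by simp⟩
    have hm : α • nC v + β • J (nC v) ∈ phot (fJ J) v :=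
      Submodule.add_mem _ (Submodule.smul_mem _ _ hn)
        (Submodule.smul_mem _ _ (conv_J_mem hJ hJb hv hn))
    refine ⟨c • (α • nC v + β • J (nC v)) + d • J (α • nC v + β • J (nC v)),
      Submodule.add_mem _ (Submodule.smul_mem _ _ hm)
        (Submodule.smul_mem _ _ (conv_J_mem hJ hJb hv hm)), ?_⟩
    have h2 : γ (α • nC v + β • J (nC v)) = nC w := by
      rw [map_add, map_smul, map_smul, hγJ, h1]
    rw [LinearEquiv.coe_coe, map_add, map_smul, map_smul, hγJ, h2]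

end

theorem exists_fol_of_J {E : Type*} [NormedAddCommGroup E] [InnerProductSpace ℝ E]
    [FiniteDimensional ℝ E] (J : V E →ₗ[ℝ] V E) (hJ : ∀ x, J (J x) = -x)
    (hJb : ∀ x y, form (J x) (J y) = form x y) :
    ∃ f : E → E, PhotonFoliation f ∧ (∃ U : Set E, IsOpen U ∧ Metric.sphere 0 1 ⊆ U ∧
        ContDiffOn ℝ ⊤ f U) ∧
      (∀ v : E, ‖v‖ = 1 → ∀ x ∈ phot f v, J x ∈ phot f v) ∧
      -- every J-invariant totally isotropic plane is one of the photons
      (∀ γ : V E ≃ₗ[ℝ] V E, (∀ x y, form (γ x) (γ y) = form x y) → (∀ x, γ (J x) = J (γ x)) →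
        ∀ v : E, ‖v‖ = 1 → ∃ w : E, ‖w‖ = 1 ∧
          (phot f v).map (γ : V E →ₗ[ℝ] V E) = phot f w) ∧
      ∀ v₀ : E, ‖v₀‖ = 1 → ∃ L : E →ₗ[ℝ] E, WeakDiffAt f v₀ L ∧
        ∀ h : E, h ≠ 0 → ⟪v₀, h⟫ = 0 → ⟪f v₀, h⟫ = 0 → ∀ c : ℝ, L h ≠ c • h := by
  refine ⟨fJ J, conv_fol hJ hJb, ⟨_, conv_open J, ?_, conv_smooth J⟩,
    fun v hv x hx => conv_J_mem hJ hJb hv hx, fun γ hγ hγJ v hv => conv_map hJ hJb γ hγ hγJ v hv,
    ?_⟩
  · intro v hv
    exact conv_b_ne hJ hJb (by simpa using hv)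
  · intro v₀ hv₀
    have hb := conv_b_ne hJ hJb hv₀
    have hU : {v : E | (J (nC v)).2.2 ≠ 0} ∈ 𝓝 v₀ := (conv_open J).mem_nhds hb
    have hd : DifferentiableAt ℝ (fJ J) v₀ :=
      ((conv_smooth J).contDiffAt hU).differentiableAt (by simp)
    refine ⟨(fderiv ℝ (fJ J) v₀ : E →ₗ[ℝ] E), ?_, ?_⟩
    · intro δ hδ
      have h1 := hd.hasFDerivAt.isLittleO
      rw [Asymptotics.isLittleO_iff] at h1
      obtain ⟨ρ, hρ, h2⟩ := Metric.eventually_nhds_iff.mp (h1 hδ)
      refine ⟨ρ, hρ, fun v _ hv => ?_⟩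
      have h3 := h2 (by rwa [dist_eq_norm])
      refine h3.trans ?_
      have := Real.sqrt_nonneg |⟪fJ J v₀, v⟫|
      rw [mul_add]
      nlinarith
    · intro h hh0 _ _ c hc
      have hc' : fderiv ℝ (fJ J) v₀ h = c • h := hc
      -- the curve
      have hγd : HasDerivAt (fun τ : ℝ => v₀ + τ • h) h 0 := by
        have := ((hasDerivAt_id (0 : ℝ)).smul_const h).const_add v₀
        simpa using this
      have hγ0 : v₀ + (0 : ℝ) • h = v₀ := by simp
      have hf : HasDerivAt (fun τ : ℝ => fJ J (v₀ + τ • h)) (c • h) 0 := by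
        have h1 : HasFDerivAt (fJ J) (fderiv ℝ (fJ J) v₀) (v₀ + (0 : ℝ) • h) := by
          rw [hγ0]
          exact hd.hasFDerivAt
        have := h1.comp_hasDerivAt 0 hγd
        rwa [hc'] at this
      have hlin : ∀ τ : ℝ, J (nC (v₀ + τ • h)) = J (nC v₀) + τ • J (h, 0, 0) := by
        intro τ
        rw [← map_smul, ← map_add]
        congr 1
        refine Prod.ext ?_ (Prod.ext ?_ ?_)
        · simp [nC]
        · simp [nC]
        · simp [nC]
      have hA1 : HasDerivAt (fun τ : ℝ => (J (nC (v₀ + τ • h))).1) (J (h, 0, 0)).1 0 := by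
        have h1 : (fun τ : ℝ => (J (nC (v₀ + τ • h))).1) =
            fun τ => (J (nC v₀)).1 + τ • (J (h, 0, 0)).1 := by
          funext τ
          rw [hlin τ]
          rfl
        rw [h1]
        have := ((hasDerivAt_id (0 : ℝ)).smul_const (J (h, 0, 0)).1).const_add (J (nC v₀)).1
        simpa using this
      have hA21 : HasDerivAt (fun τ : ℝ => (J (nC (v₀ + τ • h))).2.1) (J (h, 0, 0)).2.1 0 := by
        have h1 : (fun τ : ℝ => (J (nC (v₀ + τ • h))).2.1) =
            fun τ => (J (nC v₀)).2.1 + τ • (J (h, 0, 0)).2.1 := by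
          funext τ
          rw [hlin τ]
          rfl
        rw [h1]
        have := ((hasDerivAt_id (0 : ℝ)).smul_const (J (h, 0, 0)).2.1).const_add (J (nC v₀)).2.1
        simpa using this
      have hA22 : HasDerivAt (fun τ : ℝ => (J (nC (v₀ + τ • h))).2.2) (J (h, 0, 0)).2.2 0 := by
        have h1 : (fun τ : ℝ => (J (nC (v₀ + τ • h))).2.2) =
            fun τ => (J (nC v₀)).2.2 + τ • (J (h, 0, 0)).2.2 := by
          funext τ
          rw [hlin τ]
          rfl
        rw [h1]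
        have := ((hasDerivAt_id (0 : ℝ)).smul_const (J (h, 0, 0)).2.2).const_add (J (nC v₀)).2.2
        simpa using this
      have hR := (hA21.smul hγd).add (hA22.smul hf)
      have hev : (fun τ : ℝ => (J (nC (v₀ + τ • h))).1) =ᶠ[𝓝 0]
          (fun τ : ℝ => (J (nC (v₀ + τ • h))).2.1 • (v₀ + τ • h) +
            (J (nC (v₀ + τ • h))).2.2 • fJ J (v₀ + τ • h)) := by
        have h1 : Tendsto (fun τ : ℝ => v₀ + τ • h) (𝓝 0) (𝓝 v₀) := by
          have := hγd.continuousAt.tendsto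
          rwa [hγ0] at this
        filter_upwards [h1 hU] with τ hτ
        exact conv_fst hτ
      have hkey := hA1.unique (hR.congr_of_eventuallyEq hev)
      rw [hγ0] at hkey
      -- the vector p
      obtain ⟨p, hp⟩ : ∃ p : V E, p = ((J (h, 0, 0)).2.1 • v₀ + (J (h, 0, 0)).2.2 • fJ J v₀,
        (J (h, 0, 0)).2.1, (J (h, 0, 0)).2.2) := ⟨_, rfl⟩
      have hpP : p ∈ phot (fJ J) v₀ := by rw [hp]; exact rfl
      obtain ⟨c', hc1⟩ : ∃ c' : ℝ, c' = (J (nC v₀)).2.1 + (J (nC v₀)).2.2 * c := ⟨_, rfl⟩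
      have hJh : J (h, 0, 0) = c' • ((h, 0, 0) : V E) + p := by
        refine Prod.ext ?_ (Prod.ext ?_ ?_)
        · rw [hkey, hp, hc1]
          simp only [Prod.fst_add, Prod.smul_fst]
          module
        · rw [hp]
          simp
        · rw [hp]
          simp
      have hJ2 := hJ (h, 0, 0)
      rw [hJh, map_add, map_smul, hJh] at hJ2
      have hfin : (1 + c' ^ 2) • ((h, 0, 0) : V E) = -(c' • p + J p) := by
        have h5 : (1 + c' ^ 2) • ((h, 0, 0) : V E) =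
            ((h, 0, 0) : V E) + (c' • (c' • ((h, 0, 0) : V E) + p) + J p) - (c' • p + J p) := by
          module
        rw [h5, hJ2]
        abel
      have hmem : (1 + c' ^ 2) • ((h, 0, 0) : V E) ∈ phot (fJ J) v₀ := by
        rw [hfin]
        exact Submodule.neg_mem _ (Submodule.add_mem _ (Submodule.smul_mem _ _ hpP)
          (conv_J_mem hJ hJb hv₀ hpP))
      have hpos : (1 + c' ^ 2) ≠ 0 := by positivity
      have hmem2 : ((h, 0, 0) : V E) ∈ phot (fJ J) v₀ := by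
        have := Submodule.smul_mem _ (1 + c' ^ 2)⁻¹ hmem
        rwa [smul_smul, inv_mul_cancel₀ hpos, one_smul] at this
      rw [mem_phot] at hmem2
      apply hh0
      simpa using hmem2

end Pool.Agent.H2.AdS
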