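import Pool.Agent.H2.AdS.BlowUp

/-!
# The photon foliation of a map of the sphere, and its blow-up
-/

set_option autoImplicit false

open scoped RealInnerProductSpace
open Filter Topology

namespace Pool.Agent.H2.AdS

variable {E : Type*} [NormedAddCommGroup E] [InnerProductSpace ℝ E]

/-- The photon `{(s v + t f v, s, t)}`. -/
def phot (f : E → E) (v : E) : Submodule ℝ (V E) where
  carrier := {x | x.1 = x.2.1 • v + x.2.2 • f v}
  add_mem' := by
    intro x y hx hy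
    change x.1 = _ at hx
    change y.1 = _ at hy
    change (x + y).1 = _
    simp only [Prod.fst_add, Prod.snd_add, hx, hy, add_smul]; abel
  zero_mem' := by simp
  smul_mem' := by
    intro a x hx
    change x.1 = _ at hx
    change (a • x).1 = _
    simp only [Prod.smul_fst, Prod.smul_snd, hx, smul_add, smul_smul, smul_eq_mul]

theorem mem_phot {f : E → E} {v : E} {x : V E} : x ∈ phot f v ↔ x.1 = x.2.1 • v + x.2.2 • f v :=
  Iff.rfl

/-- `f` defines a continuous photon foliation: for every unit vector `v` the vector `f v` is a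
unit vector orthogonal to `v`, and for all `(s, t)` on the circle `v ↦ s v + t f v` is a bijection
of the unit sphere. -/
structure PhotonFoliation (f : E → E) : Prop where
  continuousOn : ContinuousOn f (Metric.sphere 0 1)
  norm_eq : ∀ v : E, ‖v‖ = 1 → ‖f v‖ = 1
  inner_eq : ∀ v : E, ‖v‖ = 1 → ⟪v, f v⟫ = 0
  bijOn : ∀ s t : ℝ, s ^ 2 + t ^ 2 = 1 →
    Set.BijOn (fun v : E => s • v + t • f v) (Metric.sphere 0 1) (Metric.sphere 0 1)

/-- the set of the photons of `f` -/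
def LamF (f : E → E) : Set (Submodule ℝ (V E)) := {P | ∃ v : E, ‖v‖ = 1 ∧ P = phot f v}

theorem form_phot {f : E → E} (hf : PhotonFoliation f) {v : E} (hv : ‖v‖ = 1) {x y : V E}
    (hx : x ∈ phot f v) (hy : y ∈ phot f v) : form x y = 0 := by
  rw [mem_phot] at hx hy
  unfold form
  rw [hx, hy]
  have h1 : ⟪f v, v⟫ = 0 := by rw [real_inner_comm]; exact hf.inner_eq v hv
  simp only [inner_add_left, inner_add_right, inner_smul_left, inner_smul_right,
    real_inner_self_eq_norm_sq, hv, hf.norm_eq v hv, hf.inner_eq v hv, h1]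
  simp
  ring

/-- two photons with a common nonzero vector -/
theorem phot_eq {f : E → E} (hf : PhotonFoliation f) {v v' : E} (hv : ‖v‖ = 1) (hv' : ‖v'‖ = 1)
    {x : V E} (hx0 : x ≠ 0) (hx : x ∈ phot f v) (hx' : x ∈ phot f v') : v = v' := by
  rw [mem_phot] at hx hx'
  have hr : 0 < x.2.1 ^ 2 + x.2.2 ^ 2 := by
    by_contra hcon
    push Not at hcon
    apply hx0
    have h2 : x.2.1 = 0 := by nlinarith [sq_nonneg x.2.1, sq_nonneg x.2.2]
    have h3 : x.2.2 = 0 := by nlinarith [sq_nonneg x.2.1, sq_nonneg x.2.2]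
    rw [h2, h3] at hx
    simp only [zero_smul, add_zero] at hx
    exact Prod.ext hx (Prod.ext h2 h3)
  set r := Real.sqrt (x.2.1 ^ 2 + x.2.2 ^ 2) with hrdef
  have hr0 : 0 < r := Real.sqrt_pos.mpr hr
  have hr2 : r ^ 2 = x.2.1 ^ 2 + x.2.2 ^ 2 := Real.sq_sqrt hr.le
  have hst : (x.2.1 / r) ^ 2 + (x.2.2 / r) ^ 2 = 1 := by
    rw [div_pow, div_pow, ← add_div, hr2, div_self hr.ne']
  refine (hf.bijOn _ _ hst).injOn (by simpa using hv) (by simpa using hv') ?_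
  have e : ∀ w : E, (x.2.1 / r) • w + (x.2.2 / r) • f w = r⁻¹ • (x.2.1 • w + x.2.2 • f w) := by
    intro w
    rw [smul_add, smul_smul, smul_smul, div_eq_inv_mul, div_eq_inv_mul]
  change (x.2.1 / r) • v + (x.2.2 / r) • f v = (x.2.1 / r) • v' + (x.2.2 / r) • f v'
  rw [e, e, ← hx, ← hx']

theorem isFol_LamF {f : E → E} (hf : PhotonFoliation f) : IsFol (LamF f) where
  iso := by
    rintro P ⟨v, hv, rfl⟩ x hx y hy
    exact form_phot hf hv hx hy
  graph := by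
    rintro P ⟨v, hv, rfl⟩ y
    exact ⟨(y.1 • v + y.2 • f v, y), rfl, rfl⟩
  cov := by
    intro x hx0 hx
    simp only [form, real_inner_self_eq_norm_sq] at hx
    have hr : 0 < x.2.1 ^ 2 + x.2.2 ^ 2 := by
      by_contra hcon
      push Not at hcon
      apply hx0
      have h2 : x.2.1 = 0 := by nlinarith [sq_nonneg x.2.1, sq_nonneg x.2.2]
      have h3 : x.2.2 = 0 := by nlinarith [sq_nonneg x.2.1, sq_nonneg x.2.2]
      have h4 : ‖x.1‖ = 0 := by
        rw [h2, h3] at hx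
        nlinarith [sq_nonneg ‖x.1‖]
      exact Prod.ext (norm_eq_zero.mp h4) (Prod.ext h2 h3)
    set r := Real.sqrt (x.2.1 ^ 2 + x.2.2 ^ 2) with hrdef
    have hr0 : 0 < r := Real.sqrt_pos.mpr hr
    have hr2 : r ^ 2 = x.2.1 ^ 2 + x.2.2 ^ 2 := Real.sq_sqrt hr.le
    have hst : (x.2.1 / r) ^ 2 + (x.2.2 / r) ^ 2 = 1 := by
      rw [div_pow, div_pow, ← add_div, hr2, div_self hr.ne']
    have hn : ‖x.1‖ = r := by
      have : ‖x.1‖ ^ 2 = r ^ 2 := by rw [hr2]; linarith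
      exact (pow_left_inj₀ (norm_nonneg _) hr0.le two_ne_zero).mp this
    have hmem : r⁻¹ • x.1 ∈ Metric.sphere (0 : E) 1 := by
      rw [mem_sphere_zero_iff_norm, norm_smul, norm_inv, Real.norm_eq_abs, abs_of_pos hr0, hn,
        inv_mul_cancel₀ hr0.ne']
    obtain ⟨v, hv, hv2⟩ := (hf.bijOn _ _ hst).surjOn hmem
    refine ⟨phot f v, ⟨v, by simpa using hv, rfl⟩, ?_⟩
    rw [mem_phot]
    simp only at hv2
    calc x.1 = r • (r⁻¹ • x.1) := by rw [smul_smul, mul_inv_cancel₀ hr0.ne', one_smul]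
      _ = r • ((x.2.1 / r) • v + (x.2.2 / r) • f v) := by rw [hv2]
      _ = x.2.1 • v + x.2.2 • f v := by
        rw [smul_add, smul_smul, smul_smul, mul_div_cancel₀ _ hr0.ne', mul_div_cancel₀ _ hr0.ne']
  uni := by
    rintro P ⟨v, hv, rfl⟩ P' ⟨v', hv', rfl⟩ x hx0 hx hx'
    rw [phot_eq hf hv hv' hx0 hx hx']

/-! ### adapted coordinates -/

/-- the orthogonal complement of `v₀`, `w₀` -/
noncomputable abbrev QQ (v₀ w₀ : E) : Submodule ℝ E := (Submodule.span ℝ {v₀, w₀})ᗮ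

theorem mem_QQ {v₀ w₀ q : E} : q ∈ QQ v₀ w₀ ↔ ⟪v₀, q⟫ = 0 ∧ ⟪w₀, q⟫ = 0 := by
  rw [Submodule.mem_orthogonal]
  constructor
  · intro h
    exact ⟨h v₀ (Submodule.subset_span (by simp)), h w₀ (Submodule.subset_span (by simp))⟩
  · rintro ⟨h1, h2⟩ u hu
    obtain ⟨a, b, rfl⟩ := Submodule.mem_span_pair.mp hu
    rw [inner_add_left, inner_smul_left, inner_smul_left, h1, h2]
    simp

/-- orthonormal pairs -/
structure OPair (v₀ w₀ : E) : Prop where
  nv : ‖v₀‖ = 1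
  nw : ‖w₀‖ = 1
  vw : ⟪v₀, w₀⟫ = 0

variable {v₀ w₀ : E}

/-- the orthogonal projection to `QQ` -/
noncomputable def prQ (h : OPair v₀ w₀) : E →ₗ[ℝ] QQ v₀ w₀ where
  toFun x := ⟨x - ⟪v₀, x⟫ • v₀ - ⟪w₀, x⟫ • w₀, by
    rw [mem_QQ]
    have h1 : ⟪w₀, v₀⟫ = 0 := by rw [real_inner_comm]; exact h.vw
    simp only [inner_sub_right, inner_smul_right, real_inner_self_eq_norm_sq, h.nv, h.nw, h.vw, h1]
    simp⟩
  map_add' x y := by
    ext
    simp only [inner_add_right, add_smul, Submodule.coe_add]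
    abel
  map_smul' a x := by
    ext
    simp only [inner_smul_right, mul_smul, Submodule.coe_smul, smul_sub, RingHom.id_apply]

theorem coe_prQ (h : OPair v₀ w₀) (x : E) :
    (prQ h x : E) = x - ⟪v₀, x⟫ • v₀ - ⟪w₀, x⟫ • w₀ := rfl

theorem prQ_of_mem (h : OPair v₀ w₀) (q : QQ v₀ w₀) : prQ h (q : E) = q := by
  ext
  obtain ⟨h1, h2⟩ := mem_QQ.mp q.2
  rw [coe_prQ, h1, h2]
  simp

theorem decomp (h : OPair v₀ w₀) (x : E) :
    x = ⟪v₀, x⟫ • v₀ + ⟪w₀, x⟫ • w₀ + (prQ h x : E) := by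
  rw [coe_prQ]; abel

theorem inner_decomp (h : OPair v₀ w₀) (x y : E) :
    ⟪x, y⟫ = ⟪v₀, x⟫ * ⟪v₀, y⟫ + ⟪w₀, x⟫ * ⟪w₀, y⟫ + ⟪prQ h x, prQ h y⟫ := by
  have h1 : ⟪w₀, v₀⟫ = 0 := by rw [real_inner_comm]; exact h.vw
  have e : ⟪prQ h x, prQ h y⟫ = ⟪(prQ h x : E), (prQ h y : E)⟫ := rfl
  rw [e, coe_prQ, coe_prQ]
  simp only [inner_sub_left, inner_sub_right, inner_smul_left, inner_smul_right,
    real_inner_self_eq_norm_sq, h.nv, h.nw, h.vw, h1, RCLike.conj_to_real,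
    real_inner_comm v₀ x, real_inner_comm w₀ x]
  ring

theorem norm_prQ_le (h : OPair v₀ w₀) (x : E) : ‖prQ h x‖ ≤ ‖x‖ := by
  have h1 := inner_decomp h x x
  simp only [real_inner_self_eq_norm_sq] at h1
  have h2 : ‖prQ h x‖ ^ 2 ≤ ‖x‖ ^ 2 := by nlinarith [sq_nonneg ⟪v₀, x⟫, sq_nonneg ⟪w₀, x⟫]
  exact (pow_le_pow_iff_left₀ (norm_nonneg _) (norm_nonneg _) two_ne_zero).mp h2

/-- the coordinates adapted to `v₀`, `w₀` -/
noncomputable def Theta (h : OPair v₀ w₀) : W (QQ v₀ w₀) ≃ₗ[ℝ] V E where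
  toFun x := ((x.1.1 + x.2.2.1) • v₀ + (x.1.2 + x.2.2.2) • w₀ + (x.2.1 : E),
    x.1.1 - x.2.2.1, x.1.2 - x.2.2.2)
  map_add' x y := by
    refine Prod.ext ?_ (Prod.ext ?_ ?_)
    · simp only [Prod.fst_add, Prod.snd_add, Submodule.coe_add, add_smul]; abel
    · simp only [Prod.fst_add, Prod.snd_add]; ring
    · simp only [Prod.fst_add, Prod.snd_add]; ring
  map_smul' a x := by
    refine Prod.ext ?_ (Prod.ext ?_ ?_)
    · simp only [Prod.smul_fst, Prod.smul_snd, Submodule.coe_smul, smul_eq_mul, RingHom.id_apply,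
        smul_add, smul_smul, mul_add]
    · simp only [Prod.smul_fst, Prod.smul_snd, smul_eq_mul, RingHom.id_apply]; ring
    · simp only [Prod.smul_fst, Prod.smul_snd, smul_eq_mul, RingHom.id_apply]; ring
  invFun z := (((⟪v₀, z.1⟫ + z.2.1) / 2, (⟪w₀, z.1⟫ + z.2.2) / 2), prQ h z.1,
    ((⟪v₀, z.1⟫ - z.2.1) / 2, (⟪w₀, z.1⟫ - z.2.2) / 2))
  left_inv x := by
    have h1 : ⟪w₀, v₀⟫ = 0 := by rw [real_inner_comm]; exact h.vw
    obtain ⟨h2, h3⟩ := mem_QQ.mp x.2.1.2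
    have e1 : ⟪v₀, (x.1.1 + x.2.2.1) • v₀ + (x.1.2 + x.2.2.2) • w₀ + (x.2.1 : E)⟫ =
        x.1.1 + x.2.2.1 := by
      simp only [inner_add_right, inner_smul_right, real_inner_self_eq_norm_sq, h.nv, h.vw, h2]
      ring
    have e2 : ⟪w₀, (x.1.1 + x.2.2.1) • v₀ + (x.1.2 + x.2.2.2) • w₀ + (x.2.1 : E)⟫ =
        x.1.2 + x.2.2.2 := by
      simp only [inner_add_right, inner_smul_right, real_inner_self_eq_norm_sq, h.nw, h1, h3]
      ring
    refine Prod.ext (Prod.ext ?_ ?_) (Prod.ext ?_ (Prod.ext ?_ ?_))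
    · simp only [e1]; ring
    · simp only [e2]; ring
    · ext
      rw [coe_prQ, e1, e2]
      module
    · simp only [e1]; ring
    · simp only [e2]; ring
  right_inv z := by
    refine Prod.ext ?_ (Prod.ext ?_ ?_)
    · simp only [coe_prQ]
      rw [show (⟪v₀, z.1⟫ + z.2.1) / 2 + (⟪v₀, z.1⟫ - z.2.1) / 2 = ⟪v₀, z.1⟫ by ring,
        show (⟪w₀, z.1⟫ + z.2.2) / 2 + (⟪w₀, z.1⟫ - z.2.2) / 2 = ⟪w₀, z.1⟫ by ring]
      abel
    · simp only; ring
    · simp only; ring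

theorem Theta_apply (h : OPair v₀ w₀) (x : W (QQ v₀ w₀)) : Theta h x =
    ((x.1.1 + x.2.2.1) • v₀ + (x.1.2 + x.2.2.2) • w₀ + (x.2.1 : E),
    x.1.1 - x.2.2.1, x.1.2 - x.2.2.2) := rfl

theorem Theta_symm_apply (h : OPair v₀ w₀) (z : V E) : (Theta h).symm z =
    (((⟪v₀, z.1⟫ + z.2.1) / 2, (⟪w₀, z.1⟫ + z.2.2) / 2), prQ h z.1,
    ((⟪v₀, z.1⟫ - z.2.1) / 2, (⟪w₀, z.1⟫ - z.2.2) / 2)) := rfl

theorem form_Theta (h : OPair v₀ w₀) (x y : W (QQ v₀ w₀)) :
    form (Theta h x) (Theta h y) = bW x y := by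
  have h1 : ⟪w₀, v₀⟫ = 0 := by rw [real_inner_comm]; exact h.vw
  obtain ⟨h2, h3⟩ := mem_QQ.mp x.2.1.2
  obtain ⟨h4, h5⟩ := mem_QQ.mp y.2.1.2
  have h2' : ⟪(x.2.1 : E), v₀⟫ = 0 := by rw [real_inner_comm]; exact h2
  have h3' : ⟪(x.2.1 : E), w₀⟫ = 0 := by rw [real_inner_comm]; exact h3
  rw [Theta_apply, Theta_apply]
  unfold form bW
  simp only [inner_add_left, inner_add_right, inner_smul_left, inner_smul_right,
    real_inner_self_eq_norm_sq, h.nv, h.nw, h.vw, h1, h2', h3', h4, h5, RCLike.conj_to_real]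
  have e : ⟪x.2.1, y.2.1⟫ = ⟪(x.2.1 : E), (y.2.1 : E)⟫ := rfl
  rw [e]
  ring

/-- the dilations -/
noncomputable def dil {Q : Type*} [NormedAddCommGroup Q] [InnerProductSpace ℝ Q] (ε : ℝ)
    (hε : ε ≠ 0) : W Q ≃ₗ[ℝ] W Q where
  toFun x := (ε • x.1, x.2.1, ε⁻¹ • x.2.2)
  map_add' x y := by
    refine Prod.ext ?_ (Prod.ext ?_ ?_) <;>
      simp only [Prod.fst_add, Prod.snd_add, smul_add]
  map_smul' a x := by
    refine Prod.ext ?_ (Prod.ext ?_ ?_)
    · simp only [Prod.smul_fst, RingHom.id_apply, smul_comm ε a]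
    · simp only [Prod.smul_fst, Prod.smul_snd, RingHom.id_apply]
    · simp only [Prod.smul_snd, RingHom.id_apply, smul_comm ε⁻¹ a]
  invFun x := (ε⁻¹ • x.1, x.2.1, ε • x.2.2)
  left_inv x := by
    refine Prod.ext ?_ (Prod.ext ?_ ?_)
    · simp only [smul_smul, inv_mul_cancel₀ hε, one_smul]
    · rfl
    · simp only [smul_smul, mul_inv_cancel₀ hε, one_smul]
  right_inv x := by
    refine Prod.ext ?_ (Prod.ext ?_ ?_)
    · simp only [smul_smul, mul_inv_cancel₀ hε, one_smul]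
    · rfl
    · simp only [smul_smul, inv_mul_cancel₀ hε, one_smul]

theorem dil_apply {Q : Type*} [NormedAddCommGroup Q] [InnerProductSpace ℝ Q] (ε : ℝ)
    (hε : ε ≠ 0) (x : W Q) : dil ε hε x = (ε • x.1, x.2.1, ε⁻¹ • x.2.2) := rfl

theorem bW_dil {Q : Type*} [NormedAddCommGroup Q] [InnerProductSpace ℝ Q] (ε : ℝ)
    (hε : ε ≠ 0) (x y : W Q) : bW (dil ε hε x) (dil ε hε y) = bW x y := by
  simp only [bW, dil_apply, Prod.smul_fst, Prod.smul_snd, smul_eq_mul]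
  field_simp

end Pool.Agent.H2.AdS
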