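import Pool.Agent.H2.AdS.Fol

/-!
# The blow-up of the photon foliation of a map which is differentiable at one point
-/

set_option autoImplicit false

open scoped RealInnerProductSpace
open Filter Topology

namespace Pool.Agent.H2.AdS

/-- photons far from the centre of the blow-up converge to the photon at infinity -/
theorem blow_far {Q : Type*} [NormedAddCommGroup Q] [InnerProductSpace ℝ Q]
    {l : Filter ℕ} [NeBot l] {ε : ℕ → ℝ}
    (hε0 : ∀ n, 0 < ε n) (hε : Tendsto ε l (𝓝 0)) {m₁₁ m₁₂ m₂₁ m₂₂ : ℕ → ℝ} {p₁ p₂ : ℕ → Q}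
    {M₁₁ M₁₂ M₂₁ M₂₂ : ℝ} {P₁ P₂ : Q}
    (hm₁₁ : Tendsto m₁₁ l (𝓝 M₁₁)) (hm₁₂ : Tendsto m₁₂ l (𝓝 M₁₂)) (hm₂₁ : Tendsto m₂₁ l (𝓝 M₂₁))
    (hm₂₂ : Tendsto m₂₂ l (𝓝 M₂₂)) (hp₁ : Tendsto p₁ l (𝓝 P₁)) (hp₂ : Tendsto p₂ l (𝓝 P₂))
    (hdet : (M₁₁ - 1) * (M₂₂ - 1) - M₁₂ * M₂₁ ≠ 0) (y : ℕ → ℝ × ℝ) (x' : W Q)
    (hx : Tendsto (fun n => (((ε n / 2 * ((m₁₁ n + 1) * (y n).1 + m₁₂ n * (y n).2),
        ε n / 2 * (m₂₁ n * (y n).1 + (m₂₂ n + 1) * (y n).2)),
        (y n).1 • p₁ n + (y n).2 • p₂ n,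
        (1 / (2 * ε n) * ((m₁₁ n - 1) * (y n).1 + m₁₂ n * (y n).2),
        1 / (2 * ε n) * (m₂₁ n * (y n).1 + (m₂₂ n - 1) * (y n).2))) : W Q)) l (𝓝 x')) :
    x' ∈ Pp Q := by
  have hx1 := ((continuous_fst.tendsto x').comp hx)
  have hx2 := ((continuous_snd.tendsto x').comp hx)
  have hx21 := ((continuous_fst.tendsto x'.2).comp hx2)
  have hx22 := ((continuous_snd.tendsto x'.2).comp hx2)
  have hx221 := ((continuous_fst.tendsto x'.2.2).comp hx22)
  have hx222 := ((continuous_snd.tendsto x'.2.2).comp hx22)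
  have hx11 := ((continuous_fst.tendsto x'.1).comp hx1)
  have hx12 := ((continuous_snd.tendsto x'.1).comp hx1)
  simp only [Function.comp_def] at hx11 hx12 hx21 hx221 hx222
  have k1 : Tendsto (fun n => (m₁₁ n - 1) * (y n).1 + m₁₂ n * (y n).2) l (𝓝 0) := by
    have : Tendsto (fun n => 2 * ε n * (1 / (2 * ε n) * ((m₁₁ n - 1) * (y n).1 +
        m₁₂ n * (y n).2))) l (𝓝 (2 * 0 * x'.2.2.1)) := (hε.const_mul 2).mul hx221
    simp only [mul_zero, zero_mul] at this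
    refine this.congr fun n => ?_
    have := (hε0 n).ne'
    field_simp
  have k2 : Tendsto (fun n => m₂₁ n * (y n).1 + (m₂₂ n - 1) * (y n).2) l (𝓝 0) := by
    have : Tendsto (fun n => 2 * ε n * (1 / (2 * ε n) * (m₂₁ n * (y n).1 +
        (m₂₂ n - 1) * (y n).2))) l (𝓝 (2 * 0 * x'.2.2.2)) := (hε.const_mul 2).mul hx222
    simp only [mul_zero, zero_mul] at this
    refine this.congr fun n => ?_
    have := (hε0 n).ne'
    field_simp
  obtain ⟨z1, z2⟩ := inv_lim (hm₁₁.sub_const 1) hm₁₂ hm₂₁ (hm₂₂.sub_const 1)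
    (by rwa [mul_comm M₁₂ M₂₁] at hdet ⊢) k1 k2
  simp only [mul_zero, sub_zero, zero_div] at z1 z2
  refine ⟨Prod.ext ?_ ?_, ?_⟩
  · refine tendsto_nhds_unique hx11 ?_
    have := (hε.div_const 2).mul (((hm₁₁.add_const 1).mul z1).add (hm₁₂.mul z2))
    simpa using this
  · refine tendsto_nhds_unique hx12 ?_
    have := (hε.div_const 2).mul ((hm₂₁.mul z1).add ((hm₂₂.add_const 1).mul z2))
    simpa using this
  · refine tendsto_nhds_unique hx21 ?_
    have := (z1.smul hp₁).add (z2.smul hp₂)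
    simpa using this

variable {E : Type*} [NormedAddCommGroup E] [InnerProductSpace ℝ E]

/-- `f` is differentiable at the unit vector `v₀` along the sphere, in a weak sense: in the
direction of `f v₀` the error term may be of the size `o(√|⟪f v₀, v⟫|)`. -/
def WeakDiffAt (f : E → E) (v₀ : E) (L : E →ₗ[ℝ] E) : Prop :=
  ∀ δ : ℝ, 0 < δ → ∃ ρ : ℝ, 0 < ρ ∧ ∀ v : E, ‖v‖ = 1 → ‖v - v₀‖ < ρ →
    ‖f v - f v₀ - L (v - v₀)‖ ≤ δ * (‖v - v₀‖ + Real.sqrt |⟪f v₀, v⟫|)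

theorem opair {f : E → E} (hf : PhotonFoliation f) {v₀ : E} (hv₀ : ‖v₀‖ = 1) :
    OPair v₀ (f v₀) := ⟨hv₀, hf.norm_eq v₀ hv₀, hf.inner_eq v₀ hv₀⟩

/-- the derivative maps `{v₀, f v₀}ᗮ` to itself -/
theorem L_mem_QQ [FiniteDimensional ℝ E] {f : E → E} (hf : PhotonFoliation f) {v₀ : E}
    (hv₀ : ‖v₀‖ = 1) {L : E →ₗ[ℝ] E} (hL : WeakDiffAt f v₀ L) (q : E) (hq : q ∈ QQ v₀ (f v₀)) :
    L q ∈ QQ v₀ (f v₀) := by
  -- reduction to unit vectors
  suffices hmain : ∀ q : E, q ∈ QQ v₀ (f v₀) → ‖q‖ = 1 → L q ∈ QQ v₀ (f v₀) by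
    by_cases hq0 : q = 0
    · rw [hq0, map_zero]; exact Submodule.zero_mem _
    · have hn : ‖q‖ ≠ 0 := norm_ne_zero_iff.mpr hq0
      have h1 := hmain (‖q‖⁻¹ • q) (Submodule.smul_mem _ _ hq)
        (by rw [norm_smul, norm_inv, norm_norm, inv_mul_cancel₀ hn])
      have h2 := Submodule.smul_mem _ ‖q‖ h1
      rwa [map_smul, smul_smul, mul_inv_cancel₀ hn, one_smul] at h2
  clear hq q
  intro q hq hqn
  obtain ⟨hq1, hq2⟩ := mem_QQ.mp hq
  set γ : ℝ → E := fun t => Real.cos t • v₀ + Real.sin t • q with hγ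
  have hγn : ∀ t, ‖γ t‖ = 1 := by
    intro t
    have : ‖γ t‖ ^ 2 = 1 := by
      rw [← real_inner_self_eq_norm_sq]
      simp only [hγ, inner_add_left, inner_add_right, inner_smul_left, inner_smul_right,
        real_inner_self_eq_norm_sq, hv₀, hqn, hq1, real_inner_comm v₀ q, RCLike.conj_to_real]
      have := Real.cos_sq_add_sin_sq t
      nlinarith
    have h0 := norm_nonneg (γ t)
    nlinarith
  have hγ0 : γ 0 = v₀ := by simp [hγ]
  have hγd : HasDerivAt γ q 0 := by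
    have h1 : HasDerivAt γ (-Real.sin 0 • v₀ + Real.cos 0 • q) 0 :=
      ((Real.hasDerivAt_cos 0).smul_const v₀).add ((Real.hasDerivAt_sin 0).smul_const q)
    simpa using h1
  have hLc : Continuous L := L.continuous_of_finiteDimensional
  have hg : HasDerivAt (fun t => f (γ t)) (L q) 0 := by
    have h1 : HasDerivAt (fun t => L (γ t)) (L q) 0 := by
      have := (LinearMap.toContinuousLinearMap L).hasFDerivAt (x := γ 0)
      exact this.comp_hasDerivAt 0 hγd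
    have h2 : HasDerivAt (fun t => f (γ t) - L (γ t)) 0 0 := by
      rw [hasDerivAt_iff_isLittleO, Asymptotics.isLittleO_iff]
      intro c hc
      -- the curve is Lipschitz at 0
      have h3 : ∀ᶠ t in 𝓝 (0 : ℝ), ‖γ t - v₀‖ ≤ 2 * ‖t‖ := by
        have h4 := (hasDerivAt_iff_isLittleO.mp hγd)
        rw [Asymptotics.isLittleO_iff] at h4
        filter_upwards [h4 (c := 1) one_pos] with t ht
        rw [sub_zero, hγ0] at ht
        calc ‖γ t - v₀‖ = ‖(γ t - v₀ - t • q) + t • q‖ := by rw [sub_add_cancel]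
          _ ≤ ‖γ t - v₀ - t • q‖ + ‖t • q‖ := norm_add_le _ _
          _ ≤ 1 * ‖t‖ + ‖t‖ * 1 := by
            rw [norm_smul, hqn]
            linarith
          _ = 2 * ‖t‖ := by ring
      obtain ⟨ρ, hρ, h5⟩ := hL (c / 2) (by positivity)
      have h6 : ∀ᶠ t in 𝓝 (0 : ℝ), ‖γ t - v₀‖ < ρ := by
        have : Tendsto (fun t => ‖γ t - v₀‖) (𝓝 0) (𝓝 ‖γ 0 - v₀‖) :=
          (hγd.continuousAt.tendsto.sub_const v₀).norm
        rw [hγ0, sub_self, norm_zero] at this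
        exact this.eventually_lt_const hρ
      filter_upwards [h3, h6] with t ht3 ht6
      have h7 := h5 (γ t) (hγn t) ht6
      have h8 : ⟪f v₀, γ t⟫ = 0 := by
        simp only [hγ, inner_add_right, inner_smul_right, hq2]
        rw [real_inner_comm, hf.inner_eq v₀ hv₀]; simp
      rw [h8, abs_zero, Real.sqrt_zero, add_zero] at h7
      rw [hγ0, smul_zero, sub_zero, sub_zero]
      calc ‖f (γ t) - L (γ t) - (f v₀ - L v₀)‖ = ‖f (γ t) - f v₀ - L (γ t - v₀)‖ := by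
            rw [map_sub]; congr 1; abel
        _ ≤ c / 2 * ‖γ t - v₀‖ := h7
        _ ≤ c / 2 * (2 * ‖t‖) := by gcongr
        _ = c * ‖t‖ := by ring
    have h3 := h1.add h2
    simp only [add_zero] at h3
    refine h3.congr_of_eventuallyEq (Eventually.of_forall fun t => ?_)
    simp
  rw [mem_QQ]
  constructor
  · -- derivative of ⟪γ, f γ⟫ = 0
    have h1 := hγd.inner ℝ hg
    have h2 : (fun t => ⟪γ t, f (γ t)⟫) = fun _ => (0 : ℝ) := by
      funext t; exact hf.inner_eq _ (hγn t)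
    rw [h2] at h1
    have h3 := h1.unique (hasDerivAt_const (0 : ℝ) (0 : ℝ))
    rw [hγ0] at h3
    have h4 : ⟪q, f v₀⟫ = 0 := by rw [real_inner_comm]; exact hq2
    rw [h4, add_zero] at h3
    exact h3
  · have h1 := hg.inner ℝ hg
    have h2 : (fun t => ⟪f (γ t), f (γ t)⟫) = fun _ => (1 : ℝ) := by
      funext t
      rw [real_inner_self_eq_norm_sq, hf.norm_eq _ (hγn t)]; norm_num
    rw [h2] at h1
    have h3 := h1.unique (hasDerivAt_const (0 : ℝ) (1 : ℝ))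
    rw [hγ0, real_inner_comm (f v₀) (L q)] at h3
    linarith

/-- the horizontal part of the derivative -/
noncomputable def SL {v₀ w₀ : E} (h : OPair v₀ w₀) (L : E →ₗ[ℝ] E) :
    QQ v₀ w₀ →ₗ[ℝ] QQ v₀ w₀ := (prQ h).comp (L.comp (Submodule.subtype _))

theorem SL_apply {v₀ w₀ : E} (h : OPair v₀ w₀) (L : E →ₗ[ℝ] E) (q : QQ v₀ w₀) :
    SL h L q = prQ h (L q) := rfl

/-- the horizontal estimate -/
theorem hor_est {f : E → E} (hf : PhotonFoliation f) {v₀ : E}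
    (hv₀ : ‖v₀‖ = 1) {L : E →ₗ[ℝ] E} (hL : WeakDiffAt f v₀ L) {l : Filter ℕ} {v : ℕ → E}
    (hv : ∀ n, ‖v n‖ = 1) (hlim : Tendsto v l (𝓝 v₀)) (δ : ℝ) (hδ : 0 < δ) :
    ∀ᶠ n in l, ‖prQ (opair hf hv₀) (f (v n)) - SL (opair hf hv₀) L (prQ (opair hf hv₀) (v n))‖ ≤
      δ * (‖prQ (opair hf hv₀) (v n)‖ + Real.sqrt |⟪f v₀, v n⟫|) := by
  set h := opair hf hv₀ with hh
  set C : ℝ := ‖L v₀‖ + ‖L (f v₀)‖ + 1 with hC
  have hC0 : 0 < C := by positivity
  -- a small auxiliary parameter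
  set κ : ℝ := min 1 (δ / (4 * C)) with hκ
  have hκ0 : 0 < κ := lt_min one_pos (by positivity)
  have hκ1 : κ ≤ 1 := min_le_left _ _
  have hκC : κ * C ≤ δ / 4 := by
    have : κ ≤ δ / (4 * C) := min_le_right _ _
    calc κ * C ≤ δ / (4 * C) * C := mul_le_mul_of_nonneg_right this hC0.le
      _ = δ / 4 := by field_simp
  obtain ⟨ρ, hρ, hρ2⟩ := hL (δ / 8) (by positivity)
  have hnear : ∀ᶠ n in l, ‖v n - v₀‖ < ρ := by
    have : Tendsto (fun n => ‖v n - v₀‖) l (𝓝 ‖v₀ - v₀‖) := (hlim.sub_const v₀).norm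
    rw [sub_self, norm_zero] at this
    exact this.eventually_lt_const hρ
  have hcm : Tendsto (fun n => ⟪v₀, v n⟫) l (𝓝 1) := by
    have : Tendsto (fun n => ⟪v₀, v n⟫) l (𝓝 ⟪v₀, v₀⟫) :=
      (tendsto_const_nhds (x := v₀)).inner hlim
    rwa [real_inner_self_eq_norm_sq, hv₀, one_pow] at this
  have hcs : Tendsto (fun n => |⟪f v₀, v n⟫|) l (𝓝 0) := by
    have : Tendsto (fun n => ⟪f v₀, v n⟫) l (𝓝 ⟪f v₀, v₀⟫) :=
      (tendsto_const_nhds (x := f v₀)).inner hlim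
    rw [real_inner_comm, hf.inner_eq v₀ hv₀] at this
    simpa using this.abs
  have hcp : Tendsto (fun n => ‖prQ h (v n)‖) l (𝓝 0) := by
    have h1 : Tendsto (fun n => ‖v n - v₀‖) l (𝓝 0) := by
      have : Tendsto (fun n => ‖v n - v₀‖) l (𝓝 ‖v₀ - v₀‖) := (hlim.sub_const v₀).norm
      rwa [sub_self, norm_zero] at this
    refine squeeze_zero (fun n => norm_nonneg _) (fun n => ?_) h1
    have h2 : prQ h (v n) = prQ h (v n - v₀) := by
      rw [map_sub]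
      have : prQ h v₀ = 0 := by
        ext
        rw [coe_prQ, real_inner_self_eq_norm_sq, hv₀, real_inner_comm, hf.inner_eq v₀ hv₀]
        simp
      rw [this, sub_zero]
    rw [h2]
    exact norm_prQ_le h _
  filter_upwards [hnear, (tendsto_order.1 hcm).1 0 one_pos,
    hcs.eventually_lt_const (show 0 < (κ / 2) ^ 2 by positivity),
    hcp.eventually_lt_const (show 0 < κ / 2 by positivity)] with n hn1 hn2 hn3 hn4
  set p := ‖prQ h (v n)‖ with hp
  set s := ⟪f v₀, v n⟫ with hs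
  set c := ⟪v₀, v n⟫ with hc
  set T := p + Real.sqrt |s| with hT
  have hp0 : 0 ≤ p := norm_nonneg _
  have hs0 : 0 ≤ Real.sqrt |s| := Real.sqrt_nonneg _
  have hss : Real.sqrt |s| ^ 2 = |s| := Real.sq_sqrt (abs_nonneg _)
  have hsk : Real.sqrt |s| < κ / 2 := by
    rw [← Real.sqrt_sq (show (0 : ℝ) ≤ κ / 2 by positivity)]
    exact Real.sqrt_lt_sqrt (abs_nonneg _) hn3
  have hone : c ^ 2 + s ^ 2 + p ^ 2 = 1 := by
    have h1 := inner_decomp h (v n) (v n)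
    simp only [real_inner_self_eq_norm_sq, hv n] at h1
    rw [hc, hs, hp]
    nlinarith
  have hsa : |s| ≤ κ * T := by
    have : |s| ≤ κ / 2 * Real.sqrt |s| := by nlinarith
    nlinarith
  have hca : |c - 1| ≤ κ * T := by
    have hc1 : c ≤ 1 := by nlinarith [sq_nonneg s, sq_nonneg p]
    rw [abs_of_nonpos (by linarith)]
    have h1 : 1 - c ≤ s ^ 2 + p ^ 2 := by nlinarith
    have h2 : s ^ 2 = |s| ^ 2 := (sq_abs s).symm
    have h3 : |s| ≤ κ / 2 := by nlinarith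
    have h4 : |s| ^ 2 ≤ κ / 2 * Real.sqrt |s| := by nlinarith [abs_nonneg s]
    have h5 : p ^ 2 ≤ κ / 2 * p := by nlinarith
    nlinarith
  have hvd : v n - v₀ = (c - 1) • v₀ + s • f v₀ + (prQ h (v n) : E) := by
    have := decomp h (v n)
    nth_rewrite 1 [this]
    rw [← hc, ← hs, sub_smul, one_smul]; abel
  have hT0 : 0 ≤ T := by positivity
  have hvn : ‖v n - v₀‖ ≤ 3 * T := by
    rw [hvd]
    calc ‖(c - 1) • v₀ + s • f v₀ + (prQ h (v n) : E)‖
        ≤ ‖(c - 1) • v₀‖ + ‖s • f v₀‖ + ‖(prQ h (v n) : E)‖ := norm_add₃_le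
      _ = |c - 1| + |s| + p := by
        rw [norm_smul, norm_smul, hv₀, hf.norm_eq v₀ hv₀, Real.norm_eq_abs, Real.norm_eq_abs,
          mul_one, mul_one]; rfl
      _ ≤ κ * T + κ * T + T := by linarith
      _ ≤ 3 * T := by nlinarith
  have hpw : prQ h (f v₀) = 0 := by
    ext
    rw [coe_prQ, real_inner_self_eq_norm_sq, hf.norm_eq v₀ hv₀, hf.inner_eq v₀ hv₀]
    simp
  have hkey : prQ h (f (v n)) - SL h L (prQ h (v n)) =
      prQ h (f (v n) - f v₀ - L (v n - v₀)) + (c - 1) • prQ h (L v₀) + s • prQ h (L (f v₀)) := by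
    have e1 : L (v n - v₀) = (c - 1) • L v₀ + s • L (f v₀) + L (prQ h (v n) : E) := by
      rw [hvd, map_add, map_add, map_smul, map_smul]
    rw [e1, SL_apply, map_sub, map_sub, map_add, map_add, map_smul, map_smul, hpw]
    abel
  rw [hkey]
  have h9 := hρ2 (v n) (hv n) hn1
  calc ‖prQ h (f (v n) - f v₀ - L (v n - v₀)) + (c - 1) • prQ h (L v₀) +
        s • prQ h (L (f v₀))‖
      ≤ ‖prQ h (f (v n) - f v₀ - L (v n - v₀))‖ + ‖(c - 1) • prQ h (L v₀)‖ +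
        ‖s • prQ h (L (f v₀))‖ := norm_add₃_le
    _ ≤ δ / 8 * (‖v n - v₀‖ + Real.sqrt |s|) + |c - 1| * ‖L v₀‖ + |s| * ‖L (f v₀)‖ := by
      gcongr
      · exact (norm_prQ_le h _).trans h9
      · rw [norm_smul, Real.norm_eq_abs]
        exact mul_le_mul_of_nonneg_left (norm_prQ_le h _) (abs_nonneg _)
      · rw [norm_smul, Real.norm_eq_abs]
        exact mul_le_mul_of_nonneg_left (norm_prQ_le h _) (abs_nonneg _)
    _ ≤ δ / 8 * (3 * T + T) + κ * T * ‖L v₀‖ + κ * T * ‖L (f v₀)‖ := by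
      gcongr
      linarith
    _ = δ / 2 * T + κ * (‖L v₀‖ + ‖L (f v₀)‖) * T := by ring
    _ ≤ δ / 2 * T + κ * C * T := by
      gcongr
      rw [hC]; linarith
    _ ≤ δ / 2 * T + δ / 4 * T := by gcongr
    _ ≤ δ * T := by nlinarith

end Pool.Agent.H2.AdS
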