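import Pool.Agent.H2.AdS.Lip

/-!
# Finite index subgroups
-/

set_option autoImplicit false

open scoped RealInnerProductSpace
open Filter Topology

namespace Pool.Agent.H2.AdS

/-- the elements of `Γ` which commute with `J` -/
def commJ {X : Type*} [AddCommGroup X] [Module ℝ X] (Γ : Subgroup (X ≃ₗ[ℝ] X))
    (J : X →ₗ[ℝ] X) : Subgroup (X ≃ₗ[ℝ] X) where
  carrier := {γ | γ ∈ Γ ∧ ∀ x, γ (J x) = J (γ x)}
  mul_mem' := by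
    rintro γ γ' ⟨h1, h2⟩ ⟨h3, h4⟩
    refine ⟨Γ.mul_mem h1 h3, fun x => ?_⟩
    rw [LinearEquiv.mul_apply, LinearEquiv.mul_apply, h4, h2]
  one_mem' := ⟨Γ.one_mem, fun x => rfl⟩
  inv_mem' := by
    rintro γ ⟨h1, h2⟩
    refine ⟨Γ.inv_mem h1, fun x => ?_⟩
    have h3 := h2 (γ⁻¹ x)
    have h4 : ∀ y, γ (γ⁻¹ y) = y := fun y => γ.apply_symm_apply y
    have h5 : ∀ y, γ⁻¹ (γ y) = y := fun y => γ.symm_apply_apply y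
    rw [h4] at h3
    rw [← h3, h5]

theorem commJ_le {X : Type*} [AddCommGroup X] [Module ℝ X] (Γ : Subgroup (X ≃ₗ[ℝ] X))
    (J : X →ₗ[ℝ] X) : commJ Γ J ≤ Γ := fun _ h => h.1

/-- the subgroup has index at most two -/
theorem index_commJ {X : Type*} [AddCommGroup X] [Module ℝ X] (Γ : Subgroup (X ≃ₗ[ℝ] X))
    (J : X →ₗ[ℝ] X) (h : ∀ γ ∈ Γ, (∀ x, γ (J x) = J (γ x)) ∨ (∀ x, γ (J x) = -J (γ x))) :
    ((commJ Γ J).subgroupOf Γ).index = 1 ∨ ((commJ Γ J).subgroupOf Γ).index = 2 := by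
  by_cases hall : ∀ γ ∈ Γ, ∀ x, γ (J x) = J (γ x)
  · left
    rw [Subgroup.index_eq_one, Subgroup.subgroupOf_eq_top]
    exact fun γ hγ => ⟨hγ, hall γ hγ⟩
  · right
    push Not at hall
    obtain ⟨γ₀, hγ₀, x₀, hx₀⟩ := hall
    have hanti : ∀ x, γ₀ (J x) = -J (γ₀ x) := by
      rcases h γ₀ hγ₀ with h1 | h1
      · exact absurd (h1 x₀) hx₀
      · exact h1
    have hanti' : ∀ γ ∈ Γ, ¬ (∀ x, γ (J x) = J (γ x)) → ∀ x, γ (J x) = -J (γ x) := by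
      intro γ hγ hn
      exact (h γ hγ).resolve_left hn
    rw [Subgroup.index_eq_two_iff]
    refine ⟨⟨γ₀, hγ₀⟩, fun γ => ?_⟩
    have e1 : ∀ γ : Γ, γ ∈ (commJ Γ J).subgroupOf Γ ↔ ∀ x, (γ : X ≃ₗ[ℝ] X) (J x) = J ((γ : X ≃ₗ[ℝ] X) x) := by
      intro γ
      rw [Subgroup.mem_subgroupOf]
      exact ⟨fun h => h.2, fun h => ⟨γ.2, h⟩⟩
    rw [e1, e1]
    by_cases hc : ∀ x, (γ : X ≃ₗ[ℝ] X) (J x) = J ((γ : X ≃ₗ[ℝ] X) x)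
    · right
      refine ⟨hc, fun hcon => hx₀ ?_⟩
      have h1 := hcon ((γ : X ≃ₗ[ℝ] X).symm x₀)
      have h2 : ∀ y, ((γ * (⟨γ₀, hγ₀⟩ : Γ) : Γ) : X ≃ₗ[ℝ] X) y = (γ : X ≃ₗ[ℝ] X) (γ₀ y) := fun y => rfl
      have h3 : ∀ x, (γ : X ≃ₗ[ℝ] X) (γ₀ (J x)) = J ((γ : X ≃ₗ[ℝ] X) (γ₀ x)) := fun x => hcon x
      have h4 : ∀ x, γ₀ (J x) = J (γ₀ x) := by
        intro x
        apply (γ : X ≃ₗ[ℝ] X).injective
        rw [h3, hc]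
      exact h4 x₀
    · left
      have hg := hanti' γ γ.2 hc
      refine ⟨fun x => ?_, hc⟩
      change (γ : X ≃ₗ[ℝ] X) (γ₀ (J x)) = J ((γ : X ≃ₗ[ℝ] X) (γ₀ x))
      rw [hanti, map_neg, hg, neg_neg]

/-- finite index subgroups act cocompactly -/
theorem cocompact_of_index {X : Type*} [AddCommGroup X] [Module ℝ X] [TopologicalSpace X]
    {Γ Δ : Subgroup (X ≃ₗ[ℝ] X)} (hcont : ∀ γ ∈ Γ, Continuous γ) {A : Set X}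
    (hA : ∀ γ ∈ Γ, ∀ x ∈ A, γ x ∈ A) (hfin : (Δ.subgroupOf Γ).index ≠ 0)
    (hc : ∃ K : Set X, IsCompact K ∧ K ⊆ A ∧ ∀ x ∈ A, ∃ γ ∈ Γ, γ x ∈ K) :
    ∃ K : Set X, IsCompact K ∧ K ⊆ A ∧ ∀ x ∈ A, ∃ γ ∈ Δ, γ x ∈ K := by
  obtain ⟨K, hK, hKA, hK2⟩ := hc
  have : (Δ.subgroupOf Γ).FiniteIndex := ⟨hfin⟩
  have hfinite : Finite (Γ ⧸ Δ.subgroupOf Γ) := inferInstance
  refine ⟨⋃ c : Γ ⧸ Δ.subgroupOf Γ, (((Quotient.out c : Γ)⁻¹ : Γ) : X ≃ₗ[ℝ] X) '' K, ?_, ?_, ?_⟩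
  · exact isCompact_iUnion fun c => hK.image (hcont _ (Subtype.mem _))
  · refine Set.iUnion_subset fun c => ?_
    rintro _ ⟨x, hx, rfl⟩
    exact hA _ (Subtype.mem _) x (hKA hx)
  · intro x hx
    obtain ⟨γ, hγ, hγx⟩ := hK2 x hx
    set g : Γ := ⟨γ, hγ⟩ with hg
    set c : Γ ⧸ Δ.subgroupOf Γ := QuotientGroup.mk g with hc
    have h1 : (Quotient.out c)⁻¹ * g ∈ Δ.subgroupOf Γ := by
      rw [← QuotientGroup.eq]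
      exact Quotient.out_eq' c
    rw [Subgroup.mem_subgroupOf] at h1
    refine ⟨_, h1, ?_⟩
    refine Set.mem_iUnion.mpr ⟨c, γ x, hγx, rfl⟩

end Pool.Agent.H2.AdS
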