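import Pool.Agent.H2.AdS.Assemble

/-!
# Locally bi-Lipschitz photon foliations are differentiable somewhere (Rademacher)
-/

set_option autoImplicit false

open scoped RealInnerProductSpace
open Filter Topology

namespace Pool.Agent.H2.AdS

variable {E : Type*} [NormedAddCommGroup E] [InnerProductSpace ℝ E] [FiniteDimensional ℝ E]

omit [FiniteDimensional ℝ E] in
/-- `x ↦ x / ‖x‖` is Lipschitz away from `0` -/
theorem norm_unit_sub {x y : E} (hx : 1 / 2 < ‖x‖) (hy : 1 / 2 < ‖y‖) :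
    ‖‖x‖⁻¹ • x - ‖y‖⁻¹ • y‖ ≤ 4 * ‖x - y‖ := by
  have hx0 : (0 : ℝ) < ‖x‖ := by linarith
  have hy0 : (0 : ℝ) < ‖y‖ := by linarith
  have e : ‖x‖⁻¹ • x - ‖y‖⁻¹ • y = ‖x‖⁻¹ • (x - y) + (‖x‖⁻¹ - ‖y‖⁻¹) • y := by
    rw [smul_sub, sub_smul]; abel
  have hi : ‖x‖⁻¹ ≤ 2 := by
    rw [inv_le_comm₀ hx0 two_pos]; linarith
  rw [e]
  calc ‖‖x‖⁻¹ • (x - y) + (‖x‖⁻¹ - ‖y‖⁻¹) • y‖
      ≤ ‖‖x‖⁻¹ • (x - y)‖ + ‖(‖x‖⁻¹ - ‖y‖⁻¹) • y‖ := norm_add_le _ _
    _ = ‖x‖⁻¹ * ‖x - y‖ + ‖x‖⁻¹ * |‖y‖ - ‖x‖| := by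
        rw [norm_smul, norm_smul, norm_inv, norm_norm]
        congr 1
        rw [show ‖x‖⁻¹ - ‖y‖⁻¹ = ‖x‖⁻¹ * ‖y‖⁻¹ * (‖y‖ - ‖x‖) by field_simp, Real.norm_eq_abs,
          abs_mul, abs_mul, abs_inv, abs_inv, abs_norm, abs_norm]
        field_simp
    _ ≤ 2 * ‖x - y‖ + 2 * ‖x - y‖ := by
        gcongr
        rw [norm_sub_rev]
        exact abs_norm_sub_norm_le y x
    _ = 4 * ‖x - y‖ := by ring

/-- Rademacher on the sphere -/
theorem exists_diff {f : E → E} {v₁ : E} (hv₁ : ‖v₁‖ = 1) {r C : ℝ} (hr : 0 < r)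
    (hf : ∀ v w : E, ‖v‖ = 1 → ‖w‖ = 1 → ‖v - v₁‖ < r → ‖w - v₁‖ < r →
      ‖f v - f w‖ ≤ C * ‖v - w‖) :
    ∃ v₀ : E, ‖v₀‖ = 1 ∧ ‖v₀ - v₁‖ < r ∧ ∃ L : E →L[ℝ] E,
      HasFDerivAt (fun x => f (‖x‖⁻¹ • x)) L v₀ := by
  let _ : MeasurableSpace E := borel E
  have _ : BorelSpace E := ⟨rfl⟩
  set F : E → E := fun x => f (‖x‖⁻¹ • x) with hF
  set U : Set E := {x | 1 / 2 < ‖x‖ ∧ ‖‖x‖⁻¹ • x - v₁‖ < r} with hU
  have hunit : ∀ x : E, 1 / 2 < ‖x‖ → ‖‖x‖⁻¹ • x‖ = 1 := by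
    intro x hx
    rw [norm_smul, norm_inv, norm_norm, inv_mul_cancel₀ (by linarith)]
  have hUo : IsOpen U := by
    have h1 : IsOpen {x : E | 1 / 2 < ‖x‖} := isOpen_lt continuous_const continuous_norm
    have h2 : ContinuousOn (fun x : E => ‖‖x‖⁻¹ • x - v₁‖) {x : E | 1 / 2 < ‖x‖} := by
      refine ((ContinuousOn.smul (continuous_norm.continuousOn.inv₀ fun x hx => ?_)
        continuousOn_id).sub continuousOn_const).norm
      have : (1 : ℝ) / 2 < ‖x‖ := hx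
      linarith
    have h3 := h2.isOpen_inter_preimage h1 (isOpen_Iio (a := r))
    exact h3
  have hv₁U : v₁ ∈ U := by
    refine ⟨by rw [hv₁]; norm_num, ?_⟩
    rw [hv₁]; simpa using hr
  have hC : 0 ≤ max C 0 := le_max_right _ _
  have hlip : LipschitzOnWith (Real.toNNReal (4 * max C 0)) F U := by
    refine LipschitzOnWith.of_dist_le_mul fun x hx y hy => ?_
    rw [dist_eq_norm, dist_eq_norm, Real.coe_toNNReal _ (by positivity)]
    calc ‖F x - F y‖ ≤ C * ‖‖x‖⁻¹ • x - ‖y‖⁻¹ • y‖ :=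
          hf _ _ (hunit x hx.1) (hunit y hy.1) hx.2 hy.2
      _ ≤ max C 0 * ‖‖x‖⁻¹ • x - ‖y‖⁻¹ • y‖ := by gcongr; exact le_max_left _ _
      _ ≤ max C 0 * (4 * ‖x - y‖) := by gcongr; exact norm_unit_sub hx.1 hy.1
      _ = 4 * max C 0 * ‖x - y‖ := by ring
  have hae := hlip.ae_differentiableWithinAt_of_mem (μ := MeasureTheory.Measure.addHaar)
  have hpos : (MeasureTheory.Measure.addHaar (U : Set E)) ≠ 0 :=
    (hUo.measure_pos _ ⟨v₁, hv₁U⟩).ne'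
  obtain ⟨x, hxU, hx⟩ : ∃ x ∈ U, DifferentiableWithinAt ℝ F U x := by
    by_contra hcon
    push Not at hcon
    apply hpos
    refine MeasureTheory.measure_mono_null (fun x hx => ?_) hae
    intro h
    exact hcon x hx (h hx)
  have hxd : DifferentiableAt ℝ F x := hx.differentiableAt (hUo.mem_nhds hxU)
  have hx0 : (0 : ℝ) < ‖x‖ := by linarith [hxU.1]
  refine ⟨‖x‖⁻¹ • x, hunit x hxU.1, hxU.2, ‖x‖ • fderiv ℝ F x, ?_⟩
  have h1 : HasFDerivAt (fun y : E => ‖x‖ • y) (‖x‖ • ContinuousLinearMap.id ℝ E)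
      (‖x‖⁻¹ • x) := (hasFDerivAt_id _).const_smul _
  have h2 : HasFDerivAt F (fderiv ℝ F x) (‖x‖ • (‖x‖⁻¹ • x)) := by
    rw [smul_smul, mul_inv_cancel₀ hx0.ne', one_smul]
    exact hxd.hasFDerivAt
  have h3 := h2.comp (‖x‖⁻¹ • x) h1
  have h4 : (F ∘ fun y : E => ‖x‖ • y) = F := by
    funext y
    simp only [Function.comp, hF, norm_smul, norm_norm, smul_smul]
    congr 2
    by_cases hy : ‖y‖ = 0
    · rw [hy]; simp
    · field_simp
  rw [h4] at h3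
  convert h3 using 1
  ext y
  simp

/-- A locally bi-Lipschitz photon foliation is nondegenerately differentiable somewhere. -/
theorem exists_weakDiff {f : E → E} {v₁ : E} (hv₁ : ‖v₁‖ = 1)
    {r c C : ℝ} (hr : 0 < r) (hc : 0 < c)
    (hu : ∀ v w : E, ‖v‖ = 1 → ‖w‖ = 1 → ‖v - v₁‖ < r → ‖w - v₁‖ < r →
      ‖f v - f w‖ ≤ C * ‖v - w‖)
    (hl : ∀ v w : E, ‖v‖ = 1 → ‖w‖ = 1 → ‖v - v₁‖ < r → ‖w - v₁‖ < r → ∀ s t : ℝ,
      s ^ 2 + t ^ 2 = 1 → c * ‖v - w‖ ≤ ‖s • (v - w) + t • (f v - f w)‖) :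
    ∃ v₀ : E, ‖v₀‖ = 1 ∧ ∃ L : E →ₗ[ℝ] E, WeakDiffAt f v₀ L ∧
      ∀ h : E, h ≠ 0 → ⟪v₀, h⟫ = 0 → ⟪f v₀, h⟫ = 0 → ∀ a : ℝ, L h ≠ a • h := by
  obtain ⟨v₀, hv₀, hv₀r, L, hL⟩ := exists_diff hv₁ hr hu
  refine ⟨v₀, hv₀, L, ?_, ?_⟩
  · intro δ hδ
    have h1 := hasFDerivAt_iff_isLittleO.mp hL
    rw [Asymptotics.isLittleO_iff] at h1
    obtain ⟨ρ, hρ, h2⟩ := Metric.eventually_nhds_iff.mp (h1 hδ)
    refine ⟨ρ, hρ, fun v hv hvρ => ?_⟩
    have h3 := h2 (show dist v v₀ < ρ by rwa [dist_eq_norm])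
    simp only [hv, hv₀, inv_one, one_smul] at h3
    refine h3.trans ?_
    have := Real.sqrt_nonneg |⟪f v₀, v⟫|
    nlinarith
  · intro h hh hv0h _ a hah
    -- normalise
    have hn : 0 < ‖h‖ := norm_pos_iff.mpr hh
    set e : E := ‖h‖⁻¹ • h with he
    have hen : ‖e‖ = 1 := by rw [he, norm_smul, norm_inv, norm_norm, inv_mul_cancel₀ hn.ne']
    have hv0e : ⟪v₀, e⟫ = 0 := by rw [he, inner_smul_right, hv0h, mul_zero]
    have hLe : L e = a • e := by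
      rw [he, map_smul]
      have : L h = a • h := hah
      rw [this, smul_comm]
    set γ : ℝ → E := fun t => Real.cos t • v₀ + Real.sin t • e with hγ
    have hγn : ∀ t, ‖γ t‖ = 1 := by
      intro t
      have : ‖γ t‖ ^ 2 = 1 := by
        rw [← real_inner_self_eq_norm_sq]
        simp only [hγ, inner_add_left, inner_add_right, inner_smul_left, inner_smul_right,
          real_inner_self_eq_norm_sq, hv₀, hen, hv0e, real_inner_comm v₀ e, RCLike.conj_to_real]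
        have := Real.cos_sq_add_sin_sq t
        nlinarith
      have h0 := norm_nonneg (γ t)
      nlinarith
    have hγ0 : γ 0 = v₀ := by simp [hγ]
    have hγd : HasDerivAt γ e 0 := by
      have h1 : HasDerivAt γ (-Real.sin 0 • v₀ + Real.cos 0 • e) 0 :=
        ((Real.hasDerivAt_cos 0).smul_const v₀).add ((Real.hasDerivAt_sin 0).smul_const e)
      simpa using h1
    have hgd : HasDerivAt (fun t => f (γ t)) (L e) 0 := by
      have h1 : HasFDerivAt (fun x => f (‖x‖⁻¹ • x)) L (γ 0) := by rw [hγ0]; exact hL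
      have h2 := h1.comp_hasDerivAt 0 hγd
      refine h2.congr_of_eventuallyEq (Eventually.of_forall fun t => ?_)
      simp only [Function.comp, hγn, inv_one, one_smul]
    -- the bad direction
    set N : ℝ := Real.sqrt (1 + a ^ 2) with hN
    have hN0 : 0 < N := Real.sqrt_pos.mpr (by positivity)
    have hN2 : N ^ 2 = 1 + a ^ 2 := Real.sq_sqrt (by positivity)
    have hst : (-a / N) ^ 2 + (1 / N) ^ 2 = 1 := by
      rw [div_pow, div_pow, ← add_div, hN2]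
      have : (0 : ℝ) < 1 + a ^ 2 := by positivity
      field_simp
      ring
    have hcomb : HasDerivAt (fun t => (-a / N) • (γ t - v₀) + (1 / N) • (f (γ t) - f v₀))
        ((-a / N) • e + (1 / N) • L e) 0 :=
      ((hγd.sub_const v₀).const_smul _).add ((hgd.sub_const (f v₀)).const_smul _)
    have hzero : (-a / N) • e + (1 / N) • L e = 0 := by
      have h3 : (1 / N) • (a • e) = (1 / N * a) • e := smul_smul _ _ _
      rw [hLe, h3, ← add_smul]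
      have : -a / N + 1 / N * a = 0 := by field_simp; ring
      rw [this, zero_smul]
    rw [hzero] at hcomb
    -- comparison of the two derivatives
    have h1 := hasDerivAt_iff_isLittleO.mp hcomb
    have h2 := hasDerivAt_iff_isLittleO.mp hγd
    rw [Asymptotics.isLittleO_iff] at h1 h2
    have h3 := h1 (c := c / 4) (by positivity)
    have h4 := h2 (c := 1 / 2) (by norm_num)
    have h5 : ∀ᶠ t in 𝓝 (0 : ℝ), ‖γ t - v₁‖ < r := by
      have : Tendsto (fun t => ‖γ t - v₁‖) (𝓝 0) (𝓝 ‖γ 0 - v₁‖) :=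
        (hγd.continuousAt.tendsto.sub_const v₁).norm
      rw [hγ0] at this
      exact this.eventually_lt_const hv₀r
    obtain ⟨ρ, hρ, h6⟩ := Metric.eventually_nhds_iff.mp (h3.and (h4.and h5))
    have hd : dist (ρ / 2) (0 : ℝ) < ρ := by
      rw [Real.dist_eq, sub_zero, abs_of_pos (by positivity)]; linarith
    obtain ⟨h7, h8, h9⟩ := h6 hd
    have h10 := hl (γ (ρ / 2)) v₀ (hγn _) hv₀ h9 hv₀r _ _ hst
    simp only [hγ0, sub_self, smul_zero, sub_zero, add_zero, Real.norm_eq_abs,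
      abs_of_pos (show (0 : ℝ) < ρ / 2 by positivity)] at h7 h8
    have h11 : ρ / 2 ≤ 2 * ‖γ (ρ / 2) - v₀‖ := by
      have h12 : ‖(ρ / 2) • e‖ ≤ ‖γ (ρ / 2) - v₀‖ + ‖γ (ρ / 2) - v₀ - (ρ / 2) • e‖ := by
        calc ‖(ρ / 2) • e‖ = ‖(γ (ρ / 2) - v₀) - (γ (ρ / 2) - v₀ - (ρ / 2) • e)‖ := by
              congr 1; abel
          _ ≤ _ := norm_sub_le _ _
      rw [norm_smul, hen, mul_one, Real.norm_eq_abs,
        abs_of_pos (show (0 : ℝ) < ρ / 2 by positivity)] at h12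
      linarith
    nlinarith

end Pool.Agent.H2.AdS
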