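import Pool.Agent.H2.AdS.Basic

/-!
# All isometric complex structures of `ℝ^{2m,2}` are conjugate
-/

set_option autoImplicit false

open scoped RealInnerProductSpace

namespace Pool.Agent.H2.AdS

/-- `ℂ^m` -/
abbrev CE (m : ℕ) : Type := EuclideanSpace ℂ (Fin m)

theorem finrank_CE (m : ℕ) : Module.finrank ℝ (CE m) = 2 * m := by
  have := Module.finrank_mul_finrank ℝ ℂ (CE m)
  simp at this
  omega

/-- A Euclidean space with an orthogonal complex structure is `ℂ^m`. -/
theorem std_pos {F : Type*} [AddCommGroup F] [Module ℝ F] [FiniteDimensional ℝ F]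
    (B : F → F → ℝ) (hsymm : ∀ x y, B x y = B y x)
    (hadd : ∀ x y z, B x (y + z) = B x y + B x z) (hsmul : ∀ (c : ℝ) (x y), B x (c • y) = c * B x y)
    (hpos : ∀ x, x ≠ 0 → 0 < B x x) (j : F →ₗ[ℝ] F) (hj : ∀ x, j (j x) = -x)
    (hjB : ∀ x y, B (j x) (j y) = B x y) {m : ℕ} (hm : Module.finrank ℝ F = 2 * m) :
    ∃ g : F ≃ₗ[ℝ] CE m, (∀ x y, ⟪g x, g y⟫ = B x y) ∧
      ∀ x, g (j x) = (Complex.I • (g x) : CE m) := by
  classical
  have hj2 : (j : Module.End ℝ F) * j = -1 := by
    ext x
    simp [hj]
  let modC : Module ℂ F :=
    Module.compHom F ((Complex.lift ⟨(j : Module.End ℝ F), hj2⟩ : ℂ →ₐ[ℝ] Module.End ℝ F) :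
      ℂ →+* Module.End ℝ F)
  have hact : ∀ (z : ℂ) (x : F), z • x = z.re • x + z.im • j x := by
    intro z x
    change (Complex.lift ⟨(j : Module.End ℝ F), hj2⟩ z) x = _
    rw [Complex.lift_apply, Complex.liftAux_apply]
    simp [Algebra.algebraMap_eq_smul_one]
  have tower : IsScalarTower ℝ ℂ F := by
    refine ⟨fun r z x => ?_⟩
    rw [hact, hact]
    simp [smul_add, smul_smul]
  have hB0 : ∀ x, B x 0 = 0 := by
    intro x
    have := hsmul 0 x 0
    simpa using this
  have haddl : ∀ x y z, B (x + y) z = B x z + B y z := by
    intro x y z; rw [hsymm, hadd, hsymm z x, hsymm z y]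
  have hsmull : ∀ (c : ℝ) x y, B (c • x) y = c * B x y := by
    intro c x y; rw [hsymm, hsmul, hsymm]
  have hneg : ∀ x y, B x (-y) = -B x y := by
    intro x y
    have := hsmul (-1) x y
    simpa using this
  have hjx : ∀ x y, B (j x) y = -B x (j y) := by
    intro x y
    have := hjB x (j y)
    rw [hj, hneg] at this
    linarith
  have hself : ∀ x, B x (j x) = 0 := by
    intro x
    have := hjx x x
    rw [hsymm] at this
    linarith
  let core : InnerProductSpace.Core ℂ F :=
    { inner := fun x y => ⟨B x y, -B x (j y)⟩
      conj_inner_symm := by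
        intro x y
        apply Complex.ext
        · simp [hsymm]
        · simp only [Complex.conj_im]
          have := hjx x y
          rw [hsymm] at this
          rw [this]; ring
      re_inner_nonneg := by
        intro x
        by_cases hx : x = 0
        · subst hx
          simp [hB0]
        · exact (hpos x hx).le
      add_left := by
        intro x y z
        apply Complex.ext
        · simp [haddl]
        · simp [haddl]; ring
      smul_left := by
        intro x y r
        rw [hact]
        apply Complex.ext
        · simp [haddl, hsmull, hjx]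
          ring
        · simp [haddl, hsmull, hjx, hj, hneg]
          ring
      definite := by
        intro x hx
        by_contra h
        have h1 := hpos x h
        have h2 := congrArg Complex.re hx
        simp at h2
        linarith }
  let nacg : NormedAddCommGroup F := core.toNormedAddCommGroup
  let ips : InnerProductSpace ℂ F := InnerProductSpace.ofCore core.toCore
  have fdC : FiniteDimensional ℂ F := FiniteDimensional.right ℝ ℂ F
  have hfin : Module.finrank ℂ F = m := by
    have := Module.finrank_mul_finrank ℝ ℂ F
    rw [hm, Complex.finrank_real_complex] at this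
    omega
  let ob := (stdOrthonormalBasis ℂ F).reindex (finCongr hfin)
  refine ⟨ob.repr.toLinearEquiv.restrictScalars ℝ, ?_, ?_⟩
  · intro x y
    have h1 : inner ℂ (ob.repr x) (ob.repr y) = inner ℂ x y := ob.repr.inner_map_map x y
    have h2 : (inner ℂ x y : ℂ) = ⟨B x y, -B x (j y)⟩ := rfl
    have h3 := congrArg Complex.re (h1.trans h2)
    change ⟪ob.repr x, ob.repr y⟫ = B x y
    rw [PiLp.inner_apply] at h3 ⊢
    simp only [Complex.re_sum] at h3
    rw [← h3]
    refine Finset.sum_congr rfl fun i _ => ?_
    rw [Complex.inner]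
    rfl
  · intro x
    have h1 : j x = (Complex.I • x : F) := by
      rw [hact]; simp
    change ob.repr (j x) = Complex.I • ob.repr x
    rw [h1, map_smul]

/-- The standard complex structure of `ℝ^{2m,2} = ℂ^m ⊕ ℝ²`. -/
noncomputable def J0 (m : ℕ) : V (CE m) →ₗ[ℝ] V (CE m) where
  toFun x := (Complex.I • x.1, -x.2.2, x.2.1)
  map_add' x y := by
    refine Prod.ext ?_ (Prod.ext ?_ ?_)
    · simp
    · simp; ring
    · simp
  map_smul' c x := by
    refine Prod.ext ?_ (Prod.ext ?_ ?_)
    · simp only [Prod.smul_fst, RingHom.id_apply]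
      exact smul_comm _ _ _
    · simp
    · simp

theorem J0_apply (m : ℕ) (x : V (CE m)) : J0 m x = (Complex.I • x.1, -x.2.2, x.2.1) := rfl

/-- Every isometric complex structure is conjugate to the standard one. -/
theorem exists_conj_std {m : ℕ} (J : V (CE m) →ₗ[ℝ] V (CE m)) (hJ : ∀ x, J (J x) = -x)
    (hJb : ∀ x y, form (J x) (J y) = form x y) :
    ∃ h : V (CE m) ≃ₗ[ℝ] V (CE m), (∀ x y, form (h x) (h y) = form x y) ∧
      ∀ x, h (J x) = J0 m (h x) := by
  classical
  set e : V (CE m) := (0, 1, 0) with he
  set e' := J e with he'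
  have hee : form e e = -1 := by rw [he]; unfold form; simp
  have hee' : form e' e' = -1 := by rw [he', hJb, hee]
  have hJx : ∀ x y, form (J x) y = -form x (J y) := by
    intro x y
    have := hJb x (J y)
    rw [hJ, form_neg_right] at this
    linarith
  have hse : form e e' = 0 := by
    have := hJx e e
    rw [form_comm] at this
    rw [← he'] at this
    linarith
  have hse' : form e' e = 0 := by rw [form_comm]; exact hse
  have hJe' : J e' = -e := hJ e
  let U : Submodule ℝ (V (CE m)) :=
    { carrier := {x | form x e = 0 ∧ form x e' = 0}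
      add_mem' := by
        rintro x y ⟨h1, h2⟩ ⟨h3, h4⟩
        exact ⟨by rw [form_add_left, h1, h3, add_zero], by rw [form_add_left, h2, h4, add_zero]⟩
      zero_mem' := ⟨form_zero_left _, form_zero_left _⟩
      smul_mem' := by
        rintro c x ⟨h1, h2⟩
        exact ⟨by rw [form_smul_left, h1, mul_zero], by rw [form_smul_left, h2, mul_zero]⟩ }
  have hUJ : ∀ x ∈ U, J x ∈ U := by
    rintro x ⟨h1, h2⟩
    refine ⟨?_, ?_⟩
    · rw [hJx, ← he', h2, neg_zero]
    · rw [he', hJb, h1]
  have hpos : ∀ x : V (CE m), form x e = 0 → form x e' = 0 → x ≠ 0 → 0 < form x x := by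
    intro x h1 h2 hx0
    have a0 : e'.2.1 = 0 := by
      have := hse
      rw [he] at this
      unfold form at this
      simp at this
      exact this
    have b0 : e'.2.2 ≠ 0 := by
      intro hb
      have := hee'
      unfold form at this
      rw [a0, hb, real_inner_self_eq_norm_sq] at this
      nlinarith [sq_nonneg ‖e'.1‖]
    set β : ℝ := x.2.2 / e'.2.2 with hβ
    set α : ℝ := x.2.1 with hα
    set z : V (CE m) := x - α • e - β • e' with hz
    have hz2 : z.2 = 0 := by
      refine Prod.ext ?_ ?_
      · simp [hz, he, a0, hα]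
      · simp [hz, he, hβ, b0]
    have hzz : form z z = form x x - α ^ 2 - β ^ 2 := by
      rw [hz]
      simp only [form_sub_left, form_sub_right, form_smul_left, form_smul_right, hee, hee', hse,
        hse', h1, h2, form_comm e x, form_comm e' x]
      ring
    have hzn : form z z = ‖z.1‖ ^ 2 := by
      unfold form
      rw [hz2, real_inner_self_eq_norm_sq]
      simp
    by_contra hcon
    push Not at hcon
    have hz1 : ‖z.1‖ ^ 2 + α ^ 2 + β ^ 2 ≤ 0 := by linarith
    have e1 : α = 0 := by nlinarith [sq_nonneg ‖z.1‖, sq_nonneg α, sq_nonneg β]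
    have e2 : β = 0 := by nlinarith [sq_nonneg ‖z.1‖, sq_nonneg α, sq_nonneg β]
    have e3 : ‖z.1‖ = 0 := by nlinarith [sq_nonneg ‖z.1‖, sq_nonneg α, sq_nonneg β]
    apply hx0
    have e4 : z = 0 := Prod.ext (norm_eq_zero.mp e3) hz2
    rw [hz, e1, e2, zero_smul, zero_smul, sub_zero, sub_zero] at e4
    exact e4
  have hdec : ∀ x : V (CE m), x + form x e • e + form x e' • e' ∈ U := by
    intro x
    refine ⟨?_, ?_⟩
    · simp only [form_add_left, form_smul_left, hee, hse']; ring
    · simp only [form_add_left, form_smul_left, hse, hee']; ring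
  let T : (U × ℝ × ℝ) ≃ₗ[ℝ] V (CE m) :=
    { toFun := fun w => (w.1 : V (CE m)) - w.2.1 • e - w.2.2 • e'
      map_add' := by
        intro w w'
        simp only [Prod.fst_add, Prod.snd_add, Submodule.coe_add, add_smul]
        abel
      map_smul' := by
        intro c w
        simp only [Prod.smul_fst, Prod.smul_snd, Submodule.coe_smul, smul_eq_mul, mul_smul,
          RingHom.id_apply, smul_sub]
      invFun := fun x => (⟨x + form x e • e + form x e' • e', hdec x⟩, form x e, form x e')
      left_inv := by
        rintro ⟨⟨u, hu1, hu2⟩, a, b⟩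
        have h1 : form (u - a • e - b • e') e = a := by
          simp only [form_sub_left, form_smul_left, hee, hse', hu1]; ring
        have h2 : form (u - a • e - b • e') e' = b := by
          simp only [form_sub_left, form_smul_left, hee', hse, hu2]; ring
        refine Prod.ext (Subtype.ext ?_) (Prod.ext ?_ ?_)
        · change (u - a • e - b • e') + form (u - a • e - b • e') e • e +
            form (u - a • e - b • e') e' • e' = u
          rw [h1, h2]; abel
        · exact h1
        · exact h2
      right_inv := by
        intro x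
        change x + form x e • e + form x e' • e' - form x e • e - form x e' • e' = x
        abel }
  have hfin : Module.finrank ℝ U = 2 * m := by
    have h1 := T.finrank_eq
    have h2 : Module.finrank ℝ (V (CE m)) = 2 * m + 2 := by
      rw [Module.finrank_prod, Module.finrank_prod, finrank_CE, Module.finrank_self]
    rw [h2, Module.finrank_prod, Module.finrank_prod, Module.finrank_self] at h1
    omega
  let jU : U →ₗ[ℝ] U := J.restrict hUJ
  obtain ⟨g, hg1, hg2⟩ := std_pos (F := U) (fun x y => form (x : V (CE m)) y)
    (fun x y => form_comm _ _) (fun x y z => form_add_right _ _ _)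
    (fun c x y => form_smul_right _ _ _)
    (fun x hx => hpos x x.2.1 x.2.2 (fun h => hx (Subtype.ext h))) jU
    (fun x => Subtype.ext (hJ x)) (fun x y => hJb _ _) hfin
  let G : (U × ℝ × ℝ) ≃ₗ[ℝ] V (CE m) := LinearEquiv.prodCongr g
    (LinearEquiv.refl ℝ (ℝ × ℝ))
  let N : (U × ℝ × ℝ) ≃ₗ[ℝ] (U × ℝ × ℝ) := LinearEquiv.prodCongr (LinearEquiv.refl ℝ U)
    (LinearEquiv.neg ℝ)
  refine ⟨T.symm.trans (N.trans G), ?_, ?_⟩
  · intro x y
    have hG : ∀ x, (T.symm.trans (N.trans G)) x =
        (g ⟨x + form x e • e + form x e' • e', hdec x⟩, -form x e, -form x e') := fun x => rfl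
    rw [hG, hG]
    change ⟪g ⟨x + form x e • e + form x e' • e', hdec x⟩,
      g ⟨y + form y e • e + form y e' • e', hdec y⟩⟫ - (-form x e * -form y e +
        -form x e' * -form y e') = _
    rw [hg1]
    change form (x + form x e • e + form x e' • e') (y + form y e • e + form y e' • e') - _ = _
    simp only [form_add_left, form_add_right, form_smul_left, form_smul_right, hee, hee', hse,
      hse', form_comm e y, form_comm e' y]
    ring
  · intro x
    have hG : ∀ x, (T.symm.trans (N.trans G)) x =
        (g ⟨x + form x e • e + form x e' • e', hdec x⟩, -form x e, -form x e') := fun x => rfl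
    rw [hG, hG, J0_apply]
    have h1 : form (J x) e = -form x e' := by rw [hJx]
    have h2 : form (J x) e' = form x e := by rw [he', hJb]
    refine Prod.ext ?_ (Prod.ext ?_ ?_)
    · change g _ = Complex.I • g _
      rw [← hg2]
      congr 1
      refine Subtype.ext ?_
      change J x + form (J x) e • e + form (J x) e' • e' =
        J (x + form x e • e + form x e' • e')
      rw [map_add, map_add, map_smul, map_smul, hJe', h1, h2, ← he', smul_neg, neg_smul]
      abel
    · change -form (J x) e = - -form x e'
      rw [h1]
    · change -form (J x) e' = -form x e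
      rw [h2]

end Pool.Agent.H2.AdS
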