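import Pool.Agent.H2.AdS.Index
import Pool.Agent.H2.AdS.Conv
import Pool.Agent.H2.AdS.StdJ

/-!
# Groups acting on `AdS_{2m+1}` and their photon foliations: definitions

`ℝ^{2m,2} = ℂ^m ⊕ ℝ²` carries the form `b` of signature `(2m, 2)`; `AdS_{2m+1} = {b(x,x) = -1}`.
A photon is a totally isotropic plane.  Such a plane is the graph
`{(s v + t w, s, t)}` of an orthonormal pair `(v, w)`, so a photon foliation (a family of photons
such that every isotropic line lies in exactly one of them) is given by a map `w = f v`.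

The group `O(2m,2)` is the group of all bijections of `ℝ^{2m,2}` which preserve `b` (they are
automatically linear, see `exists_linear` below).
-/

set_option autoImplicit false

open scoped RealInnerProductSpace ContDiff

namespace Pool.Agent.H2.AdS.Std

/-- `ℂ^m = ℝ^{2m}` with its Euclidean norm. -/
abbrev E (m : ℕ) : Type := EuclideanSpace ℂ (Fin m)

/-- The real vector space `ℝ^{2m+2}`, written as `ℂ^m ⊕ ℝ ⊕ ℝ`. -/
abbrev V (m : ℕ) : Type := E m × ℝ × ℝ

/-- The real scalar product of `ℂ^m = ℝ^{2m}`. -/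
noncomputable def dot {m : ℕ} (x y : E m) : ℝ := ∑ i, ((starRingEnd ℂ) (x i) * y i).re

/-- The form of signature `(2m, 2)`. -/
noncomputable def b {m : ℕ} (x y : V m) : ℝ :=
  dot x.1 y.1 - (x.2.1 * y.2.1 + x.2.2 * y.2.2)

/-- Anti-de Sitter space of dimension `2m+1`. -/
def AdS (m : ℕ) : Set (V m) := {x | b x x = -1}

/-- `g` belongs to `O(2m,2)`. -/
def IsIsometry {m : ℕ} (g : Equiv.Perm (V m)) : Prop := ∀ x y, b (g x) (g y) = b x y

/-- `Γ` is a subgroup of `O(2m,2)` which acts cocompactly on `AdS_{2m+1}`. -/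
structure IsCocompact {m : ℕ} (Γ : Subgroup (Equiv.Perm (V m))) : Prop where
  isometry : ∀ γ ∈ Γ, IsIsometry γ
  cocompact : ∃ K : Set (V m), IsCompact K ∧ K ⊆ AdS m ∧ ∀ x ∈ AdS m, ∃ γ ∈ Γ, γ x ∈ K

/-- `Γ` is a subgroup of `O(2m,2)` which acts properly discontinuously and cocompactly on
`AdS_{2m+1}`. -/
structure IsCompactAdSGroup {m : ℕ} (Γ : Subgroup (Equiv.Perm (V m))) : Prop
    extends IsCocompact Γ where
  proper : ∀ K : Set (V m), IsCompact K → K ⊆ AdS m → {γ | γ ∈ Γ ∧ ∃ x ∈ K, γ x ∈ K}.Finite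

/-- Multiplication by the imaginary unit on `ℝ^{2m,2} = ℂ^m ⊕ ℂ = ℂ^{m,1}`.  The group `U(m,1)`
consists of the elements of `O(2m,2)` which commute with it. -/
noncomputable def mulI {m : ℕ} (x : V m) : V m := (Complex.I • x.1, -x.2.2, x.2.1)

/-- `h γ h⁻¹` commutes with the multiplication by `i`. -/
def Commutes {m : ℕ} (h γ : Equiv.Perm (V m)) : Prop :=
  ∀ x, h (γ (h.symm (mulI x))) = mulI (h (γ (h.symm x)))

/-- `h γ h⁻¹` anticommutes with the multiplication by `i`. -/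
def Anticommutes {m : ℕ} (h γ : Equiv.Perm (V m)) : Prop :=
  ∀ x, h (γ (h.symm (mulI x))) = -mulI (h (γ (h.symm x)))

/-- `Δ` is a finite-index subgroup of `Γ`. -/
def FiniteIndexIn {m : ℕ} (Δ Γ : Subgroup (Equiv.Perm (V m))) : Prop :=
  Δ ≤ Γ ∧ (Δ.subgroupOf Γ).index ≠ 0

/-- The conclusion of Q1: a finite-index subgroup `Δ` of `Γ` is conjugate, by some `h ∈ O(2m,2)`,
to a subgroup of `U(m,1)`. -/
def IsStandard {m : ℕ} (Γ : Subgroup (Equiv.Perm (V m))) : Prop :=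
  ∃ Δ, FiniteIndexIn Δ Γ ∧ ∃ h : Equiv.Perm (V m), IsIsometry h ∧ ∀ γ ∈ Δ, Commutes h γ

/-- The photon `{(s v + t f(v), s, t)}` through the isotropic vector `(v, 1, 0)`. -/
def photon {m : ℕ} (f : E m → E m) (v : E m) : Set (V m) :=
  {x | x.1 = x.2.1 • v + x.2.2 • f v}

/-- The photons of `f` form a continuous photon foliation: they are totally isotropic planes
(`v`, `f v` are orthonormal), depend continuously on `v`, and every isotropic line lies in exactly
one of them (`v ↦ s v + t f(v)` is a bijection of the unit sphere for all `(s, t)` on the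
circle). -/
structure IsPhotonFoliation {m : ℕ} (f : E m → E m) : Prop where
  continuousOn : ContinuousOn f (Metric.sphere 0 1)
  norm_eq : ∀ v : E m, ‖v‖ = 1 → ‖f v‖ = 1
  dot_eq : ∀ v : E m, ‖v‖ = 1 → dot v (f v) = 0
  bijOn : ∀ s t : ℝ, s ^ 2 + t ^ 2 = 1 →
    Set.BijOn (fun v : E m => s • v + t • f v) (Metric.sphere 0 1) (Metric.sphere 0 1)

/-- Every element of `Γ` maps photons of `f` to photons of `f`. -/
def Preserves {m : ℕ} (Γ : Subgroup (Equiv.Perm (V m))) (f : E m → E m) : Prop :=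
  ∀ γ ∈ Γ, ∀ v : E m, ‖v‖ = 1 → ∃ w : E m, ‖w‖ = 1 ∧ γ '' photon f v = photon f w

/-- The photons of `f` are invariant under the complex structure `h⁻¹ i h`. -/
def PhotonsComplex {m : ℕ} (h : Equiv.Perm (V m)) (f : E m → E m) : Prop :=
  ∀ v : E m, ‖v‖ = 1 → ∀ x ∈ photon f v, h.symm (mulI (h x)) ∈ photon f v

/-- For some `h ∈ O(2m,2)`: the photons of `f` are invariant under the complex structure
`h⁻¹ i h`, every element of `h Γ h⁻¹` commutes or anticommutes with `i`, and a subgroup `Δ` of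
`Γ` of index one or two satisfies `h Δ h⁻¹ ⊂ U(m,1)`. -/
def IsComplexFoliation {m : ℕ} (Γ : Subgroup (Equiv.Perm (V m))) (f : E m → E m) : Prop :=
  ∃ h : Equiv.Perm (V m), IsIsometry h ∧ PhotonsComplex h f ∧
    (∀ γ ∈ Γ, Commutes h γ ∨ Anticommutes h γ) ∧
    ∃ Δ, Δ ≤ Γ ∧ ((Δ.subgroupOf Γ).index = 1 ∨ (Δ.subgroupOf Γ).index = 2) ∧
      ∀ γ ∈ Δ, Commutes h γ

/-! ### Comparison with the notions of the helper files -/

section aux

variable {m : ℕ}

theorem dot_eq_inner (x y : E m) : dot x y = ⟪x, y⟫ := by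
  unfold dot
  rw [PiLp.inner_apply]
  refine Finset.sum_congr rfl fun i _ => ?_
  rw [Complex.inner, mul_comm]

theorem b_eq_form (x y : V m) : b x y = form x y := by
  unfold b form
  rw [dot_eq_inner]

/-- Every bijection which preserves `b` is linear. -/
theorem exists_linear (g : Equiv.Perm (V m)) (hg : IsIsometry g) :
    ∃ g' : V m ≃ₗ[ℝ] V m, g'.toEquiv = g := by
  have hg' : ∀ x y, form (g x) (g y) = form x y := by
    intro x y
    rw [← b_eq_form, ← b_eq_form, hg]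
  refine ⟨{ g with
    map_add' := ?_
    map_smul' := ?_ }, rfl⟩
  · intro x y
    refine sub_eq_zero.mp (form_nondeg fun z => ?_)
    obtain ⟨w, rfl⟩ := g.surjective z
    rw [form_sub_left, form_add_left]
    change form (g (x + y)) (g w) - (form (g x) (g w) + form (g y) (g w)) = 0
    rw [hg', hg', hg', form_add_left]
    ring
  · intro c x
    refine sub_eq_zero.mp (form_nondeg fun z => ?_)
    obtain ⟨w, rfl⟩ := g.surjective z
    rw [form_sub_left]
    change form (g (c • x)) (g w) - form (c • (g x)) (g w) = 0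
    rw [form_smul_left, hg', hg', form_smul_left]
    ring

/-- The inclusion of the linear bijections into all bijections. -/
noncomputable def permHom (m : ℕ) : (V m ≃ₗ[ℝ] V m) →* Equiv.Perm (V m) where
  toFun g := g.toEquiv
  map_one' := rfl
  map_mul' _ _ := rfl

theorem permHom_apply (g : V m ≃ₗ[ℝ] V m) (x : V m) : permHom m g x = g x := rfl

theorem permHom_injective : Function.Injective (permHom m) := by
  intro g g' h
  ext1 x
  exact congrArg (fun p : Equiv.Perm (V m) => p x) h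

theorem coe_phot (f : E m → E m) (v : E m) : (phot f v : Set (V m)) = photon f v := rfl

theorem foliation_iff (f : E m → E m) : IsPhotonFoliation f ↔ PhotonFoliation f := by
  constructor
  · intro h
    exact ⟨h.continuousOn, h.norm_eq, fun v hv => by rw [← dot_eq_inner]; exact h.dot_eq v hv,
      h.bijOn⟩
  · intro h
    exact ⟨h.continuousOn, h.norm_eq, fun v hv => by rw [dot_eq_inner]; exact h.inner_eq v hv,
      h.bijOn⟩

theorem map_iff (f : E m → E m) (γ : V m ≃ₗ[ℝ] V m) (v w : E m) :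
    permHom m γ '' photon f v = photon f w ↔
      (phot f v).map (γ : V m →ₗ[ℝ] V m) = phot f w := by
  constructor
  · intro h
    refine SetLike.coe_injective ?_
    rw [Submodule.map_coe]
    exact h
  · intro h
    have h1 := congrArg (fun P : Submodule ℝ (V m) => (P : Set (V m))) h
    simp only [Submodule.map_coe] at h1
    exact h1

theorem mulI_eq (x : V m) : mulI x = J0 m x := rfl

theorem form_mulI (x y : V m) : form (mulI x) (mulI y) = form x y := by
  unfold form mulI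
  have h1 : ⟪Complex.I • x.1, Complex.I • y.1⟫ = ⟪x.1, y.1⟫ := by
    rw [← dot_eq_inner, ← dot_eq_inner]
    unfold dot
    refine Finset.sum_congr rfl fun i _ => ?_
    simp
  simp only [h1]
  ring

theorem mulI_mulI (x : V m) : mulI (mulI x) = -x := by
  unfold mulI
  refine Prod.ext ?_ (Prod.ext ?_ ?_)
  · simp only [smul_smul, Complex.I_mul_I, Prod.fst_neg]
    simp
  · simp
  · simp

/-- the group of linear bijections of `Γ` -/
noncomputable def lin (Γ : Subgroup (Equiv.Perm (V m))) : Subgroup (V m ≃ₗ[ℝ] V m) :=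
  Γ.comap (permHom m)

theorem mem_lin {Γ : Subgroup (Equiv.Perm (V m))} {γ : V m ≃ₗ[ℝ] V m} :
    γ ∈ lin Γ ↔ permHom m γ ∈ Γ := Iff.rfl

theorem lin_lift {Γ : Subgroup (Equiv.Perm (V m))} (hΓ : ∀ γ ∈ Γ, IsIsometry γ)
    (γ : Equiv.Perm (V m)) (hγ : γ ∈ Γ) : ∃ γ' : V m ≃ₗ[ℝ] V m, γ' ∈ lin Γ ∧
      permHom m γ' = γ := by
  obtain ⟨γ', hγ'⟩ := exists_linear γ (hΓ γ hγ)
  have h1 : permHom m γ' = γ := hγ'
  exact ⟨γ', by rw [mem_lin, h1]; exact hγ, h1⟩

theorem map_lin {Γ : Subgroup (Equiv.Perm (V m))} (hΓ : ∀ γ ∈ Γ, IsIsometry γ) :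
    (lin Γ).map (permHom m) = Γ := by
  ext γ
  constructor
  · rintro ⟨γ', h1, rfl⟩
    exact h1
  · intro hγ
    obtain ⟨γ', h1, h2⟩ := lin_lift hΓ γ hγ
    exact ⟨γ', h1, h2⟩

theorem lin_iso {Γ : Subgroup (Equiv.Perm (V m))} (hΓ : ∀ γ ∈ Γ, IsIsometry γ) :
    ∀ γ ∈ lin Γ, ∀ x y, form (γ x) (γ y) = form x y := by
  intro γ hγ x y
  rw [← b_eq_form, ← b_eq_form]
  exact hΓ _ (mem_lin.mp hγ) x y

theorem lin_cocompact {Γ : Subgroup (Equiv.Perm (V m))} (hΓ : IsCocompact Γ) :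
    ∃ K : Set (V m), IsCompact K ∧ K ⊆ {x | form x x = -1} ∧
      ∀ x, form x x = -1 → ∃ γ ∈ lin Γ, γ x ∈ K := by
  obtain ⟨K, hK, hK2, hK3⟩ := hΓ.cocompact
  refine ⟨K, hK, fun x hx => ?_, fun x hx => ?_⟩
  · have h1 : b x x = -1 := hK2 hx
    rw [b_eq_form] at h1; exact h1
  · obtain ⟨γ, hγ, hγx⟩ := hK3 x (by
      change b x x = -1
      rw [b_eq_form]; exact hx)
    obtain ⟨γ', h1, h2⟩ := lin_lift hΓ.isometry γ hγ
    refine ⟨γ', h1, ?_⟩
    rw [← permHom_apply, h2]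
    exact hγx

theorem lin_proper {Γ : Subgroup (Equiv.Perm (V m))} (hΓ : IsCompactAdSGroup Γ) :
    ∀ K : Set (V m), IsCompact K → K ⊆ {x | form x x = -1} →
      {γ : V m ≃ₗ[ℝ] V m | γ ∈ lin Γ ∧ ∃ x ∈ K, γ x ∈ K}.Finite := by
  intro K hK hK2
  have h1 := hΓ.proper K hK fun x hx => by
    change b x x = -1
    rw [b_eq_form]; exact hK2 hx
  refine (h1.preimage permHom_injective.injOn).subset ?_
  rintro γ ⟨hγ, hγ2⟩
  exact ⟨hγ, hγ2⟩

theorem lin_preserves {Γ : Subgroup (Equiv.Perm (V m))} {f : E m → E m} (h : Preserves Γ f) :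
    ∀ γ ∈ lin Γ, ∀ v : E m, ‖v‖ = 1 → ∃ w : E m, ‖w‖ = 1 ∧
      (phot f v).map (γ : V m →ₗ[ℝ] V m) = phot f w := by
  intro γ hγ v hv
  obtain ⟨w, hw, hw2⟩ := h _ (mem_lin.mp hγ) v hv
  exact ⟨w, hw, (map_iff f γ v w).mp hw2⟩

theorem finrank_E (hm : 2 ≤ m) : 3 ≤ Module.finrank ℝ (E m) := by
  have : Module.finrank ℝ (E m) = 2 * m := finrank_CE m
  rw [this]; omega

/-- From an isometric complex structure to the standard one. -/
theorem complex_of_J {Γ : Subgroup (Equiv.Perm (V m))} (hΓ : ∀ γ ∈ Γ, IsIsometry γ)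
    {f : E m → E m}
    (h : ∃ J : V m →ₗ[ℝ] V m, (∀ x, J (J x) = -x) ∧ (∀ x y, form (J x) (J y) = form x y) ∧
      (∀ v : E m, ‖v‖ = 1 → ∀ x ∈ phot f v, J x ∈ phot f v) ∧
      ∀ γ ∈ lin Γ, (∀ x, γ (J x) = J (γ x)) ∨ (∀ x, γ (J x) = -J (γ x))) :
    IsComplexFoliation Γ f := by
  obtain ⟨J, hJ1, hJ2, hJ3, hJ4⟩ := h
  obtain ⟨h, hh1, hh2⟩ := exists_conj_std J hJ1 hJ2
  have hJh : ∀ x, h.symm (mulI (h x)) = J x := by
    intro x
    rw [mulI_eq, ← hh2, LinearEquiv.symm_apply_apply]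
  have hJh' : ∀ x, h.symm (mulI x) = J (h.symm x) := by
    intro x
    rw [← hJh, LinearEquiv.apply_symm_apply]
  have hcom : ∀ γ : V m ≃ₗ[ℝ] V m, (∀ x, γ (J x) = J (γ x)) →
      Commutes (permHom m h) (permHom m γ) := by
    intro γ hγ x
    change h (γ (h.symm (mulI x))) = mulI (h (γ (h.symm x)))
    rw [hJh', hγ, hh2, mulI_eq]
  have hanti : ∀ γ : V m ≃ₗ[ℝ] V m, (∀ x, γ (J x) = -J (γ x)) →
      Anticommutes (permHom m h) (permHom m γ) := by
    intro γ hγ x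
    change h (γ (h.symm (mulI x))) = -mulI (h (γ (h.symm x)))
    rw [hJh', hγ, map_neg, hh2, mulI_eq]
  have hmap := map_lin hΓ
  have hidx : (((commJ (lin Γ) J).map (permHom m)).subgroupOf Γ).index =
      ((commJ (lin Γ) J).subgroupOf (lin Γ)).index := by
    change ((commJ (lin Γ) J).map (permHom m)).relIndex Γ = (commJ (lin Γ) J).relIndex (lin Γ)
    nth_rewrite 2 [← hmap]
    rw [Subgroup.relIndex_map_map_of_injective _ _ permHom_injective]
  refine ⟨permHom m h, fun x y => by rw [b_eq_form, b_eq_form]; exact hh1 x y, ?_, ?_,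
    (commJ (lin Γ) J).map (permHom m), ?_, ?_, ?_⟩
  · intro v hv x hx
    change h.symm (mulI (h x)) ∈ photon f v
    rw [hJh]
    exact hJ3 v hv x hx
  · intro γ hγ
    obtain ⟨γ', h1, rfl⟩ := lin_lift hΓ γ hγ
    rcases hJ4 γ' h1 with h2 | h2
    · exact Or.inl (hcom γ' h2)
    · exact Or.inr (hanti γ' h2)
  · nth_rewrite 2 [← hmap]
    exact Subgroup.map_mono (commJ_le (lin Γ) J)
  · rw [hidx]
    exact index_commJ (lin Γ) J hJ4
  · rintro _ ⟨γ, hγ, rfl⟩
    exact hcom γ hγ.2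

/-- A finite-index subgroup of a cocompact group is cocompact. -/
theorem IsCocompact.of_index {Γ Δ : Subgroup (Equiv.Perm (V m))}
    (hΓ : IsCocompact Γ) (hΔ : FiniteIndexIn Δ Γ) : IsCocompact Δ where
  isometry γ hγ := hΓ.isometry γ (hΔ.1 hγ)
  cocompact := by
    obtain ⟨hle, hfin⟩ := hΔ
    have hmap := map_lin hΓ.isometry
    have hidx : ((lin Δ).subgroupOf (lin Γ)).index ≠ 0 := by
      change (lin Δ).relIndex (lin Γ) ≠ 0
      rw [lin, Subgroup.relIndex_comap, hmap]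
      exact hfin
    obtain ⟨K, hK, hKA, hK2⟩ := cocompact_of_index (Γ := lin Γ) (Δ := lin Δ) (A := AdS m)
      (fun γ _ => γ.toLinearMap.continuous_of_finiteDimensional)
      (fun γ hγ x hx => by
        change b (γ x) (γ x) = -1
        have h1 := hΓ.isometry (permHom m γ) hγ x x
        rw [permHom_apply] at h1
        rw [h1]
        exact hx) hidx
      (by
        obtain ⟨K, hK, hKA, hK2⟩ := hΓ.cocompact
        refine ⟨K, hK, hKA, fun x hx => ?_⟩
        obtain ⟨γ, hγ, hγx⟩ := hK2 x hx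
        obtain ⟨γ', h1, rfl⟩ := lin_lift hΓ.isometry γ hγ
        exact ⟨γ', h1, hγx⟩)
    refine ⟨K, hK, hKA, fun x hx => ?_⟩
    obtain ⟨γ, hγ, hγx⟩ := hK2 x hx
    exact ⟨permHom m γ, hγ, hγx⟩

/-- A finite-index subgroup of a compact AdS group is a compact AdS group. -/
theorem IsCompactAdSGroup.of_index {Γ Δ : Subgroup (Equiv.Perm (V m))}
    (hΓ : IsCompactAdSGroup Γ) (hΔ : FiniteIndexIn Δ Γ) : IsCompactAdSGroup Δ where
  toIsCocompact := hΓ.toIsCocompact.of_index hΔ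
  proper K hK hK2 := (hΓ.proper K hK hK2).subset fun γ hγ => ⟨hΔ.1 hγ.1, hγ.2⟩

/-- A complex foliation of a finite-index subgroup makes the group standard. -/
theorem IsStandard.of_complex {Γ Δ : Subgroup (Equiv.Perm (V m))} {f : E m → E m}
    (hΔ : FiniteIndexIn Δ Γ) (h : IsComplexFoliation Δ f) : IsStandard Γ := by
  obtain ⟨h, hh1, _, _, Δ', hle', hind, hcom⟩ := h
  refine ⟨Δ', ⟨hle'.trans hΔ.1, ?_⟩, h, hh1, hcom⟩
  have h3 : Δ'.relIndex Δ ≠ 0 := by
    change (Δ'.subgroupOf Δ).index ≠ 0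
    rcases hind with h4 | h4 <;> rw [h4] <;> norm_num
  have h4 : Δ.relIndex Γ ≠ 0 := hΔ.2
  have h5 : Δ'.relIndex Γ ≠ 0 := by
    rw [← Subgroup.relIndex_mul_relIndex Δ' Δ Γ hle' hΔ.1]
    exact mul_ne_zero h3 h4
  exact h5

/-- Standard groups virtually preserve a real analytic complex photon foliation. -/
theorem IsStandard.exists_fol {Γ : Subgroup (Equiv.Perm (V m))}
    (hΓ : ∀ γ ∈ Γ, IsIsometry γ) (hs : IsStandard Γ) :
    ∃ (Δ : Subgroup (Equiv.Perm (V m))) (f : E m → E m) (J : V m →ₗ[ℝ] V m),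
      FiniteIndexIn Δ Γ ∧ IsPhotonFoliation f ∧ Preserves Δ f ∧
      (∀ x, J (J x) = -x) ∧ (∀ x y, form (J x) (J y) = form x y) ∧
      (∀ v : E m, ‖v‖ = 1 → ∀ x ∈ phot f v, J x ∈ phot f v) ∧
      (∃ U : Set (E m), IsOpen U ∧ Metric.sphere 0 1 ⊆ U ∧ ContDiffOn ℝ ω f U) ∧
      ∀ v₀ : E m, ‖v₀‖ = 1 → ∃ L : E m →ₗ[ℝ] E m, WeakDiffAt f v₀ L ∧
        ∀ h : E m, h ≠ 0 → ⟪v₀, h⟫ = 0 → ⟪f v₀, h⟫ = 0 → ∀ c : ℝ, L h ≠ c • h := by
  obtain ⟨Δ, ⟨hle, hfin⟩, h₀, hh₀, hcom⟩ := hs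
  obtain ⟨h, rfl⟩ := exists_linear h₀ hh₀
  have hh : ∀ x y, b (h x) (h y) = b x y := hh₀
  set J : V m →ₗ[ℝ] V m := (h.symm : V m →ₗ[ℝ] V m) ∘ₗ J0 m ∘ₗ (h : V m →ₗ[ℝ] V m)
    with hJdef
  have hJ : ∀ x, J x = h.symm (mulI (h x)) := fun x => rfl
  have hhf : ∀ x y, form (h x) (h y) = form x y := by
    intro x y
    rw [← b_eq_form, ← b_eq_form, hh]
  have hhs : ∀ x y, form (h.symm x) (h.symm y) = form x y := by
    intro x y
    rw [← hhf, LinearEquiv.apply_symm_apply, LinearEquiv.apply_symm_apply]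
  have hJJ : ∀ x, J (J x) = -x := fun x => by
    rw [hJ, hJ, LinearEquiv.apply_symm_apply, mulI_mulI, map_neg, LinearEquiv.symm_apply_apply]
  have hJb : ∀ x y, form (J x) (J y) = form x y := fun x y => by
    rw [hJ, hJ, hhs, form_mulI, hhf]
  obtain ⟨f, hf, hsm, hJf, hpres, hdiff⟩ := exists_fol_of_J J hJJ hJb
  refine ⟨Δ, f, J, ⟨hle, hfin⟩, (foliation_iff f).mpr hf, ?_, hJJ, hJb, hJf, hsm, hdiff⟩
  intro γ₀ hγ₀ v hv
  obtain ⟨γ, rfl⟩ := exists_linear γ₀ (hΓ γ₀ (hle hγ₀))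
  obtain ⟨w, hw, hw2⟩ := hpres γ
    (fun x y => by
      rw [← b_eq_form, ← b_eq_form]
      exact hΓ _ (hle hγ₀) x y)
    (fun x => by
      have h4 : h (γ (h.symm (mulI (h x)))) = mulI (h (γ (h.symm (h x)))) :=
        hcom _ hγ₀ (h x)
      rw [LinearEquiv.symm_apply_apply] at h4
      rw [hJ, hJ, ← h4, LinearEquiv.symm_apply_apply]) v hv
  exact ⟨w, hw, (map_iff f γ v w).mpr hw2⟩

end aux

end Pool.Agent.H2.AdS.Std
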